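import Mathlib
import Pool.Agent.Lib.MP_9ec2c5_bp.Defs

/-!
Endomorphisms of affine varieties which extend to algebraically stable maps of a projective
closure: definitions.
-/

set_option autoImplicit false

namespace Pool.Agent.Lib.MP_9ec2c5_av

open MvPolynomial
open Pool.Agent.Lib.MP_9ec2c5_gen (iter)
open Pool.Agent.Lib.MP_9ec2c5_bp

section statement

variable {K : Type} [Field K] {s : ℕ}

/-- The points at infinity (over the algebraic closure) of the projective closure of the zero set
of the ideal `p`: the points at which the forms of highest degree of all elements of `p`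
vanish. -/
def Infty (p : Ideal (MvPolynomial (Fin s) K)) :
    Set (Projectivization (AlgebraicClosure K) (Fin s → AlgebraicClosure K)) :=
  {x | ∀ f ∈ p, aeval x.rep (homogeneousComponent f.totalDegree f) = 0}

/-- The degree of the `n`-th iterate of `F` on the zero set of `p`: the least `D` such that each
coordinate of the iterate is congruent modulo `p` to a polynomial of degree at most `D`. -/
noncomputable def iterDegOn (p : Ideal (MvPolynomial (Fin s) K))
    (F : Fin s → MvPolynomial (Fin s) K) (n : ℕ) : ℕ :=
  sInf {D | ∀ i, ∃ g : MvPolynomial (Fin s) K, g.totalDegree ≤ D ∧ iter F n i - g ∈ p}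

end statement

section homogenisation

variable {K : Type} [Field K] {s : ℕ}

/-- setting the variable zero to one -/
noncomputable def dehom : MvPolynomial (Fin (s + 1)) K →ₐ[K] MvPolynomial (Fin s) K :=
  aeval (Fin.cons 1 X : Fin (s + 1) → MvPolynomial (Fin s) K)

/-- the homogeneous ideal of the projective closure of the zero set of `p` -/
noncomputable def hid (p : Ideal (MvPolynomial (Fin s) K)) :
    Ideal (MvPolynomial (Fin (s + 1)) K) :=
  RingHom.ker (aeval (Fin.cons Polynomial.X (fun i =>
      Polynomial.C (Ideal.Quotient.mk p (X i)) * Polynomial.X) :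
        Fin (s + 1) → Polynomial (MvPolynomial (Fin s) K ⧸ p)) :
    MvPolynomial (Fin (s + 1)) K →ₐ[K] Polynomial (MvPolynomial (Fin s) K ⧸ p))

end homogenisation

section cone

variable {K : Type} [Field K] {s : ℕ}

/-- an ideal generated by forms -/
def IsHom (Q : Ideal (MvPolynomial (Fin (s + 1)) K)) : Prop :=
  ∀ f ∈ Q, ∀ n, homogeneousComponent n f ∈ Q

/-- the zero set of `Q` -/
def Cone (Ω : Type) [Field Ω] [Algebra K Ω] (Q : Ideal (MvPolynomial (Fin (s + 1)) K)) :
    Set (Fin (s + 1) → Ω) := {x | ∀ f ∈ Q, aeval x f = 0}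

/-- the classes modulo `Q` of the forms of degree `m` in the ideal `a` -/
noncomputable def part (Q a : Ideal (MvPolynomial (Fin (s + 1)) K)) (m : ℕ) :
    Submodule K (MvPolynomial (Fin (s + 1)) K ⧸ Q) :=
  (a.restrictScalars K ⊓ homogeneousSubmodule (Fin (s + 1)) K m).map
    (Ideal.Quotient.mkₐ K Q).toLinearMap

/-- the dimension of the space of forms of degree `m` on the zero set of `Q` -/
noncomputable def dimQ (Q : Ideal (MvPolynomial (Fin (s + 1)) K)) (m : ℕ) : ℕ :=
  Module.finrank K (part Q ⊤ m)

/-- the homogeneous prime ideal of the point `q`: the kernel of `X i ↦ q i * T` -/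
noncomputable def Jid (K : Type) [Field K] {Ω : Type} [Field Ω] [Algebra K Ω]
    (q : Fin (s + 1) → Ω) : Ideal (MvPolynomial (Fin (s + 1)) K) :=
  RingHom.ker (aeval (fun i => Polynomial.C (q i) * Polynomial.X) :
    MvPolynomial (Fin (s + 1)) K →ₐ[K] Polynomial Ω)

/-- the polynomials which, as functions on the zero set of `Q`, vanish to order at least `M` at
`q` (they are in the `M`-th power of the maximal ideal of the local ring) -/
noncomputable def ordIdeal {Ω : Type} [Field Ω] [Algebra K Ω]
    (Q : Ideal (MvPolynomial (Fin (s + 1)) K)) (q : Fin (s + 1) → Ω) (M : ℕ) :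
    Ideal (MvPolynomial (Fin (s + 1)) K) where
  carrier := {f | ∃ g, g ∉ Jid K q ∧ g * f ∈ Jid K q ^ M ⊔ Q}
  add_mem' := by
    rintro a b ⟨g, hg, hga⟩ ⟨g', hg', hgb⟩
    have hp : (Jid K q).IsPrime := RingHom.ker_isPrime _
    refine ⟨g * g', fun h => (hp.mem_or_mem h).elim hg hg', ?_⟩
    have h1 : g * g' * (a + b) = g' * (g * a) + g * (g' * b) := by ring
    rw [h1]
    exact add_mem (Ideal.mul_mem_left _ _ hga) (Ideal.mul_mem_left _ _ hgb)
  zero_mem' := by
    have hp : (Jid K q).IsPrime := RingHom.ker_isPrime _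
    refine ⟨1, fun h => hp.ne_top ((Ideal.eq_top_iff_one _).mpr h), ?_⟩
    rw [mul_zero]
    exact zero_mem _
  smul_mem' := by
    rintro c a ⟨g, hg, hga⟩
    refine ⟨g, hg, ?_⟩
    have h1 : g * (c • a) = c * (g * a) := by rw [smul_eq_mul]; ring
    rw [h1]
    exact Ideal.mul_mem_left _ _ hga

end cone

end Pool.Agent.Lib.MP_9ec2c5_av
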