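import Mathlib
import Pool.Agent.Lib.MP_9ec2c5_av.Defs
import Pool.Agent.Lib.MP_9ec2c5_bp.Homog

/-!
The homogeneous ideal of the projective closure of an affine variety.
-/

set_option autoImplicit false

namespace Pool.Agent.Lib.MP_9ec2c5_av

open MvPolynomial
open Pool.Agent.Lib.MP_9ec2c5_gen (iter)
open Pool.Agent.Lib.MP_9ec2c5_bp

section

variable {K : Type} [Field K] {s : ℕ}

/-- The coefficients of a polynomial along a line, over a ring. -/
theorem coeff_lineA {A : Type} [CommRing A] [Algebra K A] {M : ℕ} (t : Fin M → A)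
    (f : MvPolynomial (Fin M) K) (n : ℕ) :
    (aeval (fun i => Polynomial.C (t i) * Polynomial.X) f : Polynomial A).coeff n =
      aeval t (homogeneousComponent n f) := by
  induction f using MvPolynomial.induction_on' with
  | monomial s a =>
    rw [aeval_monomial]
    have e1 : (s.prod fun i k => (Polynomial.C (t i) * Polynomial.X : Polynomial A) ^ k) =
        Polynomial.C (s.prod fun i k => t i ^ k) * Polynomial.X ^ s.degree := by
      rw [Finsupp.prod, Finsupp.prod]
      simp only [mul_pow]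
      rw [Finset.prod_mul_distrib, map_prod, Finset.prod_pow_eq_pow_sum]
      congr 1
      exact Finset.prod_congr rfl fun i _ => by rw [map_pow]
    have e2 : (algebraMap K (Polynomial A)) a = Polynomial.C (algebraMap K A a) := rfl
    rw [e1, e2, ← mul_assoc, ← map_mul, Polynomial.coeff_C_mul_X_pow]
    have e3 : monomial s a ∈ homogeneousSubmodule (Fin M) K s.degree :=
      (mem_homogeneousSubmodule _ _).2 (isHomogeneous_monomial a rfl)
    rw [homogeneousComponent_of_mem e3]
    by_cases hs : n = s.degree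
    · rw [if_pos hs, if_pos hs, aeval_monomial]
    · rw [if_neg hs, if_neg hs, map_zero]
  | add p q hp hq =>
    rw [map_add, Polynomial.coeff_add, hp, hq, map_add, map_add]

theorem mk_dehom (p : Ideal (MvPolynomial (Fin s) K)) (f : MvPolynomial (Fin (s + 1)) K) :
    aeval (Fin.cons 1 (fun i => Ideal.Quotient.mk p (X i)) :
      Fin (s + 1) → MvPolynomial (Fin s) K ⧸ p) f = Ideal.Quotient.mk p (dehom f) := by
  have h := comp_aeval_apply (R := K) (Fin.cons 1 X : Fin (s + 1) → MvPolynomial (Fin s) K)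
    (Ideal.Quotient.mkₐ K p) f
  have h2 : (fun i => Ideal.Quotient.mkₐ K p
      ((Fin.cons 1 X : Fin (s + 1) → MvPolynomial (Fin s) K) i)) =
      (Fin.cons 1 (fun i => Ideal.Quotient.mk p (X i)) :
        Fin (s + 1) → MvPolynomial (Fin s) K ⧸ p) := by
    funext i
    refine Fin.cases ?_ (fun i => ?_) i
    · rw [Fin.cons_zero, Fin.cons_zero, map_one]
    · rw [Fin.cons_succ, Fin.cons_succ]; rfl
  rw [h2] at h
  exact h.symm

theorem cons_line (p : Ideal (MvPolynomial (Fin s) K)) :
    (Fin.cons Polynomial.X (fun i =>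
      Polynomial.C (Ideal.Quotient.mk p (X i)) * Polynomial.X) :
        Fin (s + 1) → Polynomial (MvPolynomial (Fin s) K ⧸ p)) =
    fun j => Polynomial.C ((Fin.cons 1 (fun i => Ideal.Quotient.mk p (X i)) :
      Fin (s + 1) → MvPolynomial (Fin s) K ⧸ p) j) * Polynomial.X := by
  funext i
  refine Fin.cases ?_ (fun i => ?_) i
  · rw [Fin.cons_zero, Fin.cons_zero, map_one, one_mul]
  · rw [Fin.cons_succ, Fin.cons_succ]

theorem mem_hid_iff (p : Ideal (MvPolynomial (Fin s) K)) (f : MvPolynomial (Fin (s + 1)) K) :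
    f ∈ hid p ↔ ∀ n, dehom (homogeneousComponent n f) ∈ p := by
  unfold hid
  rw [RingHom.mem_ker, cons_line, Polynomial.ext_iff]
  refine forall_congr' fun n => ?_
  rw [← Ideal.Quotient.eq_zero_iff_mem, ← mk_dehom, ← coeff_lineA, Polynomial.coeff_zero]

theorem mem_hid_hom (p : Ideal (MvPolynomial (Fin s) K)) (f : MvPolynomial (Fin (s + 1)) K)
    (n : ℕ) (hf : f.IsHomogeneous n) : f ∈ hid p ↔ dehom f ∈ p := by
  rw [mem_hid_iff]
  have e := fun m => homogeneousComponent_of_mem (m := m)
    ((mem_homogeneousSubmodule n f).2 hf)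
  constructor
  · intro h
    have h1 := h n
    rwa [e, if_pos rfl] at h1
  · intro h m
    rw [e]
    split_ifs
    · exact h
    · rw [map_zero]; exact p.zero_mem

theorem hid_prime (p : Ideal (MvPolynomial (Fin s) K)) (hp : p.IsPrime) : (hid p).IsPrime := by
  unfold hid
  exact RingHom.ker_isPrime _

theorem hid_isHom (p : Ideal (MvPolynomial (Fin s) K)) : IsHom (hid p) := by
  intro f hf n
  rw [mem_hid_hom p _ n (homogeneousComponent_isHomogeneous n f)]
  exact (mem_hid_iff p f).1 hf n

/-- evaluation of the dehomogenisation -/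
theorem eval_dehom (f : MvPolynomial (Fin (s + 1)) K) (x : Fin s → K) :
    eval x (dehom f) = eval (Fin.cons 1 x : Fin (s + 1) → K) f := by
  have h := comp_aeval_apply (R := K) (Fin.cons 1 X : Fin (s + 1) → MvPolynomial (Fin s) K)
    (aeval x) f
  have h2 : (fun i => aeval x
      ((Fin.cons 1 X : Fin (s + 1) → MvPolynomial (Fin s) K) i)) =
      (Fin.cons 1 x : Fin (s + 1) → K) := by
    funext i
    refine Fin.cases ?_ (fun i => ?_) i
    · rw [Fin.cons_zero, Fin.cons_zero, map_one]
    · rw [Fin.cons_succ, Fin.cons_succ, aeval_X]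
  rw [h2] at h
  exact h

theorem eval_hid (p : Ideal (MvPolynomial (Fin s) K)) (x : Fin s → K)
    (hx : ∀ f ∈ p, eval x f = 0) (g : MvPolynomial (Fin (s + 1)) K) (hg : g ∈ hid p) :
    eval (Fin.cons 1 x : Fin (s + 1) → K) g = 0 := by
  rw [← sum_homogeneousComponent g, map_sum]
  refine Finset.sum_eq_zero fun n _ => ?_
  rw [← eval_dehom]
  exact hx _ ((mem_hid_iff p g).1 hg n)

theorem dehom_monomial (m : Fin (s + 1) →₀ ℕ) (a : K) :
    dehom (monomial m a) = monomial (Finsupp.tail m) a := by
  unfold dehom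
  rw [aeval_monomial, monomial_eq (s := Finsupp.tail m),
    Finsupp.prod_fintype _ _ (fun _ => pow_zero _),
    Finsupp.prod_fintype _ _ (fun _ => pow_zero _), Fin.prod_univ_succ]
  simp only [Fin.cons_zero, Fin.cons_succ, one_pow, one_mul, Finsupp.tail_apply]
  rfl

theorem degree_tail (m : Fin (s + 1) →₀ ℕ) : m.degree = m 0 + (Finsupp.tail m).degree := by
  rw [Finsupp.degree_eq_sum, Finsupp.degree_eq_sum, Fin.sum_univ_succ]
  rfl

theorem dehom_hz (e : ℕ) (f : MvPolynomial (Fin s) K) : dehom (hz e f) = f := by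
  unfold hz
  rw [map_sum]
  conv_rhs => rw [f.as_sum]
  refine Finset.sum_congr rfl fun t _ => ?_
  rw [dehom_monomial, Finsupp.tail_cons]

theorem totalDegree_dehom_le (g : MvPolynomial (Fin (s + 1)) K) :
    (dehom g).totalDegree ≤ g.totalDegree := by
  conv_lhs => rw [g.as_sum]
  rw [map_sum]
  refine (totalDegree_finsetSum_le fun t ht => ?_)
  rw [dehom_monomial]
  refine (totalDegree_monomial_le _ _).trans ?_
  have h1 := degree_tail t
  have h2 := le_totalDegree ht
  change t.degree ≤ g.totalDegree at h2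
  change (Finsupp.tail t).degree ≤ g.totalDegree
  omega

theorem aeval_cons_zero {Ω : Type} [Field Ω] [Algebra K Ω] (v : Fin s → Ω) (n : ℕ)
    (g : MvPolynomial (Fin (s + 1)) K) :
    aeval (Fin.cons 0 v : Fin (s + 1) → Ω) (homogeneousComponent n g) =
      aeval v (homogeneousComponent n (dehom (homogeneousComponent n g))) := by
  induction g using MvPolynomial.induction_on' with
  | monomial m a =>
    have e3 : ∀ {M : ℕ} (m : Fin M →₀ ℕ), monomial m a ∈ homogeneousSubmodule (Fin M) K m.degree :=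
      fun m => (mem_homogeneousSubmodule _ _).2 (isHomogeneous_monomial a rfl)
    rw [homogeneousComponent_of_mem (e3 m)]
    split_ifs with h
    · rw [dehom_monomial, homogeneousComponent_of_mem (e3 (Finsupp.tail m)), aeval_monomial,
        Finsupp.prod_fintype _ _ (fun _ => pow_zero _), Fin.prod_univ_succ]
      simp only [Fin.cons_zero, Fin.cons_succ]
      have h1 := degree_tail m
      split_ifs with h2
      · have h3 : m 0 = 0 := by omega
        rw [aeval_monomial, Finsupp.prod_fintype _ _ (fun _ => pow_zero _), h3, pow_zero, one_mul]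
        rfl
      · have h3 : m 0 ≠ 0 := by omega
        rw [zero_pow h3, zero_mul, mul_zero, map_zero]
    · simp only [map_zero]
  | add p q hp hq =>
    simp only [map_add]
    rw [hp, hq]

/-- the points at infinity of the cone -/
theorem cons_zero_mem_cone {Ω : Type} [Field Ω] [Algebra K Ω]
    (p : Ideal (MvPolynomial (Fin s) K)) (v : Fin s → Ω) :
    (Fin.cons 0 v : Fin (s + 1) → Ω) ∈ Cone Ω (hid p) ↔
      ∀ f ∈ p, aeval v (homogeneousComponent f.totalDegree f) = 0 := by
  constructor
  · intro h f hf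
    rw [← hz_lead f.totalDegree f le_rfl v]
    refine h _ ?_
    rw [mem_hid_hom p _ f.totalDegree (hz_hom _ f le_rfl), dehom_hz]
    exact hf
  · intro h g hg
    rw [← sum_homogeneousComponent g, map_sum]
    refine Finset.sum_eq_zero fun n _ => ?_
    rw [aeval_cons_zero]
    have h1 := (mem_hid_iff p g).1 hg n
    rcases eq_or_ne (dehom (homogeneousComponent n g)).totalDegree n with h2 | h2
    · have h3 := h _ h1
      rwa [h2] at h3
    · have h3 : (dehom (homogeneousComponent n g)).totalDegree ≤ n :=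
        (totalDegree_dehom_le _).trans (homogeneousComponent_isHomogeneous n g).totalDegree_le
      rw [homogeneousComponent_eq_zero _ _ (lt_of_le_of_ne h3 h2), map_zero]

end

/-- the dimension of the cone -/
theorem trdeg_hid {K : Type} [Field K] {s : ℕ} (p : Ideal (MvPolynomial (Fin s) K))
    (hp : p.IsPrime) (N : ℕ) (hN : Algebra.trdeg K (MvPolynomial (Fin s) K ⧸ p) = N) :
    Algebra.trdeg K (MvPolynomial (Fin (s + 1)) K ⧸ hid p) = ((N + 1 : ℕ) : Cardinal) := by
  have hq : (hid p).IsPrime := hid_prime p hp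
  obtain ⟨φ, hφ⟩ : ∃ φ : MvPolynomial (Fin (s + 1)) K →ₐ[K] Polynomial (MvPolynomial (Fin s) K ⧸ p),
      φ = aeval (Fin.cons Polynomial.X (fun i =>
      Polynomial.C (Ideal.Quotient.mk p (X i)) * Polynomial.X) :
        Fin (s + 1) → Polynomial (MvPolynomial (Fin s) K ⧸ p)) := ⟨_, rfl⟩
  have hφ0 : φ (X 0) = Polynomial.X := by rw [hφ, aeval_X, Fin.cons_zero]
  have hφi : ∀ i : Fin s, φ (X i.succ) =
      Polynomial.C (Ideal.Quotient.mk p (X i)) * Polynomial.X := fun i => by
    rw [hφ, aeval_X, Fin.cons_succ]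
  have hker : ∀ f, f ∈ hid p → φ f = 0 := by
    intro f hf
    rw [hφ]
    exact hf
  have hker' : ∀ f, φ f = 0 → f ∈ hid p := by
    intro f hf
    rw [hφ] at hf
    exact hf
  obtain ⟨ψ, hψ⟩ : ∃ ψ : (MvPolynomial (Fin (s + 1)) K ⧸ hid p) →ₐ[K]
      Polynomial (MvPolynomial (Fin s) K ⧸ p), ψ = Ideal.Quotient.liftₐ (hid p) φ hker := ⟨_, rfl⟩
  have hψm : ∀ f, ψ (Ideal.Quotient.mk _ f) = φ f := fun f => by rw [hψ]; rfl
  have hψi : Function.Injective ψ := by
    rw [injective_iff_map_eq_zero]
    intro a ha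
    obtain ⟨f, rfl⟩ := Ideal.Quotient.mk_surjective a
    rw [hψm] at ha
    exact Ideal.Quotient.eq_zero_iff_mem.2 (hker' f ha)
  let _ : Algebra (MvPolynomial (Fin (s + 1)) K ⧸ hid p)
    (Polynomial (MvPolynomial (Fin s) K ⧸ p)) :=
    RingHom.toAlgebra (S := Polynomial (MvPolynomial (Fin s) K ⧸ p)) ψ.toRingHom
  have hsc : IsScalarTower K (MvPolynomial (Fin (s + 1)) K ⧸ hid p)
      (Polynomial (MvPolynomial (Fin s) K ⧸ p)) :=
    IsScalarTower.of_algebraMap_eq (R := K) (S := MvPolynomial (Fin (s + 1)) K ⧸ hid p)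
      (A := Polynomial (MvPolynomial (Fin s) K ⧸ p)) fun a => (ψ.commutes a).symm
  have hf1 : FaithfulSMul (MvPolynomial (Fin (s + 1)) K ⧸ hid p)
      (Polynomial (MvPolynomial (Fin s) K ⧸ p)) :=
    (faithfulSMul_iff_algebraMap_injective _ _).2 hψi
  have hdom : IsDomain (MvPolynomial (Fin (s + 1)) K ⧸ hid p) := inferInstance
  have hdomp : IsDomain (MvPolynomial (Fin s) K ⧸ p) := inferInstance
  have halg : Algebra.IsAlgebraic (MvPolynomial (Fin (s + 1)) K ⧸ hid p)
      (Polynomial (MvPolynomial (Fin s) K ⧸ p)) := by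
    have e0 : algebraMap (MvPolynomial (Fin (s + 1)) K ⧸ hid p)
        (Polynomial (MvPolynomial (Fin s) K ⧸ p)) (Ideal.Quotient.mk _ (X 0)) = Polynomial.X :=
      (hψm _).trans hφ0
    have ei : ∀ i : Fin s, algebraMap (MvPolynomial (Fin (s + 1)) K ⧸ hid p)
        (Polynomial (MvPolynomial (Fin s) K ⧸ p)) (Ideal.Quotient.mk _ (X i.succ)) =
        Polynomial.C (Ideal.Quotient.mk p (X i)) * Polynomial.X := fun i =>
      (hψm _).trans (hφi i)
    have hX : (Polynomial.X : Polynomial (MvPolynomial (Fin s) K ⧸ p)) ∈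
        Subalgebra.algebraicClosure (MvPolynomial (Fin (s + 1)) K ⧸ hid p)
          (Polynomial (MvPolynomial (Fin s) K ⧸ p)) := by
      rw [← e0]
      exact Subalgebra.algebraMap_mem _ _
    have hC1 : ∀ i : Fin s, Polynomial.C (Ideal.Quotient.mk p (X i)) ∈
        Subalgebra.algebraicClosure (MvPolynomial (Fin (s + 1)) K ⧸ hid p)
          (Polynomial (MvPolynomial (Fin s) K ⧸ p)) := by
      intro i
      rw [Subalgebra.mem_algebraicClosure]
      refine ⟨Polynomial.C (Ideal.Quotient.mk _ (X 0)) * Polynomial.X -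
        Polynomial.C (Ideal.Quotient.mk _ (X i.succ)), ?_, ?_⟩
      · intro h
        have h1 := congrArg (fun q => Polynomial.coeff q 1) h
        simp only [Polynomial.coeff_sub, Polynomial.coeff_C_mul, Polynomial.coeff_X_one, mul_one,
          Polynomial.coeff_C_succ, sub_zero, Polynomial.coeff_zero] at h1
        rw [h1, map_zero] at e0
        exact Polynomial.X_ne_zero e0.symm
      · rw [map_sub, map_mul, Polynomial.aeval_C, Polynomial.aeval_C, Polynomial.aeval_X, e0, ei]
        exact sub_eq_zero.2 Polynomial.X_mul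
    have hC : ∀ r : MvPolynomial (Fin s) K ⧸ p, Polynomial.C r ∈
        Subalgebra.algebraicClosure (MvPolynomial (Fin (s + 1)) K ⧸ hid p)
          (Polynomial (MvPolynomial (Fin s) K ⧸ p)) := by
      intro r
      obtain ⟨f, rfl⟩ := Ideal.Quotient.mk_surjective r
      induction f using MvPolynomial.induction_on with
      | C a =>
        have h3 := Subalgebra.algebraMap_mem
          (Subalgebra.algebraicClosure (MvPolynomial (Fin (s + 1)) K ⧸ hid p)
            (Polynomial (MvPolynomial (Fin s) K ⧸ p)))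
          (algebraMap K (MvPolynomial (Fin (s + 1)) K ⧸ hid p) a)
        rw [← IsScalarTower.algebraMap_apply] at h3
        exact h3
      | add a b ha hb =>
        rw [map_add, map_add]
        exact add_mem ha hb
      | mul_X a i ha =>
        rw [map_mul, map_mul]
        exact mul_mem ha (hC1 i)
    refine ⟨fun q => ?_⟩
    suffices h : q ∈ Subalgebra.algebraicClosure (MvPolynomial (Fin (s + 1)) K ⧸ hid p)
          (Polynomial (MvPolynomial (Fin s) K ⧸ p)) from h
    induction q using Polynomial.induction_on' with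
    | add a b ha hb => exact add_mem ha hb
    | monomial n a =>
      rw [← Polynomial.C_mul_X_pow_eq_monomial]
      exact mul_mem (hC a) (pow_mem hX n)
  have h1 := trdeg_add_eq K (MvPolynomial (Fin (s + 1)) K ⧸ hid p)
    (A := Polynomial (MvPolynomial (Fin s) K ⧸ p))
  have h0 : Algebra.trdeg (MvPolynomial (Fin (s + 1)) K ⧸ hid p)
      (Polynomial (MvPolynomial (Fin s) K ⧸ p)) = 0 := trdeg_eq_zero_iff.2 halg
  rw [h0, add_zero] at h1
  have h2 := trdeg_add_eq K (MvPolynomial (Fin s) K ⧸ p)
    (A := Polynomial (MvPolynomial (Fin s) K ⧸ p))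
  rw [Polynomial.trdeg_of_isDomain, hN] at h2
  rw [h1, ← h2]
  push_cast
  rfl

end Pool.Agent.Lib.MP_9ec2c5_av
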