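import Mathlib
import Pool.Agent.Lib.MP_9ec2c5_av.Defs
import Pool.Agent.Lib.MP_9ec2c5_bp.Homog
import Pool.Agent.Lib.MP_9ec2c5_bp.Avoid
import Pool.Agent.Lib.MP_9ec2c5_gen.NullBase

/-!
Noether normalisation of a projective variety with prescribed forms.
-/

set_option autoImplicit false

namespace Pool.Agent.Lib.MP_9ec2c5_av

open MvPolynomial
open Pool.Agent.Lib.MP_9ec2c5_gen (iter)
open Pool.Agent.Lib.MP_9ec2c5_bp

variable {K : Type} [Field K] {Ω : Type} [Field Ω] [Algebra K Ω] {s N : ℕ}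

namespace QNoetherAux

theorem dependentQ (Q : Ideal (MvPolynomial (Fin (s + 1)) K)) (hQ : Q.IsPrime)
    (hN : Algebra.trdeg K (MvPolynomial (Fin (s + 1)) K ⧸ Q) = ((N + 1 : ℕ) : Cardinal))
    (n : ℕ) (hn : N + 1 < n) (f : Fin n → MvPolynomial (Fin (s + 1)) K) :
    ∃ r : MvPolynomial (Fin n) K, r ≠ 0 ∧ aeval f r ∈ Q := by
  by_contra hcon
  push Not at hcon
  have hdom : IsDomain (MvPolynomial (Fin (s + 1)) K ⧸ Q) :=
    (Ideal.Quotient.isDomain_iff_prime Q).2 hQ
  have h1 : AlgebraicIndependent K (fun i => Ideal.Quotient.mkₐ K Q (f i)) := by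
    rw [algebraicIndependent_iff]
    intro p hp
    by_contra hne
    apply hcon p hne
    rw [← Ideal.Quotient.eq_zero_iff_mem]
    rw [← comp_aeval_apply] at hp
    exact hp
  have h2 := h1.cardinalMk_le_trdeg
  rw [hN, Cardinal.mk_fin] at h2
  have h3 : n ≤ N + 1 := by exact_mod_cast h2
  omega

end QNoetherAux

/-- More than `N + 1` forms of the same degree `δ` satisfy a homogeneous relation on a cone of
dimension `N + 1`. -/
theorem exists_relationQ (Q : Ideal (MvPolynomial (Fin (s + 1)) K)) (hQ : Q.IsPrime)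
    (hQh : IsHom Q)
    (hN : Algebra.trdeg K (MvPolynomial (Fin (s + 1)) K ⧸ Q) = ((N + 1 : ℕ) : Cardinal))
    (δ : ℕ) (hδ : 1 ≤ δ) (n : ℕ) (hn : N + 1 < n) (f : Fin n → MvPolynomial (Fin (s + 1)) K)
    (hf : ∀ i, (f i).IsHomogeneous δ) :
    ∃ (e : ℕ) (r : MvPolynomial (Fin n) K), r ≠ 0 ∧ r.IsHomogeneous e ∧ aeval f r ∈ Q := by
  obtain ⟨r, hr, hr0⟩ := QNoetherAux.dependentQ Q hQ hN n hn f
  obtain ⟨e, he⟩ : ∃ e, homogeneousComponent e r ≠ 0 := by
    by_contra hcon
    push Not at hcon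
    apply hr
    rw [← sum_homogeneousComponent r]
    exact Finset.sum_eq_zero fun i _ => hcon i
  refine ⟨e, homogeneousComponent e r, he, homogeneousComponent_isHomogeneous _ _, ?_⟩
  have h1 : aeval f r = ∑ i ∈ Finset.range (r.totalDegree + 1),
      aeval f (homogeneousComponent i r) := by
    rw [← map_sum, sum_homogeneousComponent]
  have h2 : homogeneousComponent (δ * e) (aeval f r) = aeval f (homogeneousComponent e r) := by
    rw [h1, map_sum]
    have h3 : ∀ i, homogeneousComponent (δ * e) (aeval f (homogeneousComponent i r)) =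
        if i = e then aeval f (homogeneousComponent e r) else 0 := by
      intro i
      have h4 : (aeval f (homogeneousComponent i r)).IsHomogeneous (δ * i) :=
        (homogeneousComponent_isHomogeneous i r).aeval f hf
      rw [homogeneousComponent_of_mem ((mem_homogeneousSubmodule _ _).2 h4)]
      by_cases hi : i = e
      · subst hi; simp
      · rw [if_neg hi, if_neg]
        intro h5
        exact hi (Nat.eq_of_mul_eq_mul_left (by omega) h5).symm
    rw [Finset.sum_congr rfl fun i _ => h3 i, Finset.sum_ite_eq']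
    split_ifs with h4
    · rfl
    · rw [Finset.mem_range, not_lt] at h4
      exact absurd (homogeneousComponent_eq_zero _ _ (by omega)) he
  rw [← h2]
  exact hQh _ hr0 _

namespace QNoetherAux

/-- a relation of smallest degree does not vanish on a hyperplane of coordinates -/
theorem exists_relQ (Q : Ideal (MvPolynomial (Fin (s + 1)) K)) (hQ : Q.IsPrime)
    (hQh : IsHom Q)
    (hN : Algebra.trdeg K (MvPolynomial (Fin (s + 1)) K ⧸ Q) = ((N + 1 : ℕ) : Cardinal))
    (δ : ℕ) (hδ : 1 ≤ δ) (n : ℕ) (hn : N < n)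
    (h : Fin n → MvPolynomial (Fin (s + 1)) K) (hh : ∀ i, (h i).IsHomogeneous δ)
    (l : MvPolynomial (Fin (s + 1)) K) (hl : l.IsHomogeneous δ) (hl0 : l ∉ Q) :
    ∃ (e : ℕ) (r : MvPolynomial (Fin (n + 1)) K), 1 ≤ e ∧ r.IsHomogeneous e ∧
      aeval (Fin.cons l h : Fin (n + 1) → MvPolynomial (Fin (s + 1)) K) r ∈ Q ∧
      (finSuccEquiv K n r).coeff 0 ≠ 0 := by
  classical
  have hex : ∃ e, ∃ r : MvPolynomial (Fin (n + 1)) K, r ≠ 0 ∧ r.IsHomogeneous e ∧
      aeval (Fin.cons l h : Fin (n + 1) → MvPolynomial (Fin (s + 1)) K) r ∈ Q :=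
    exists_relationQ Q hQ hQh hN δ hδ (n + 1) (by omega) _ (fun i => by
      refine Fin.cases ?_ (fun j => ?_) i
      · exact hl
      · exact hh j)
  obtain ⟨r, hr, hre, hr0⟩ := Nat.find_spec hex
  set e := Nat.find hex with he
  have he1 : 1 ≤ e := by
    by_contra hcon
    have h0 : e = 0 := by omega
    rw [h0] at hre
    have h1 : r = C (coeff 0 r) := by
      have := (totalDegree_eq_zero_iff_eq_C (p := r)).1 (Nat.le_zero.1 hre.totalDegree_le)
      exact this
    have hc0 : coeff 0 r ≠ 0 := fun h2 => by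
      rw [h2, map_zero] at h1
      exact hr h1
    rw [h1, aeval_C, algebraMap_eq] at hr0
    apply hQ.ne_top
    rw [Ideal.eq_top_iff_one]
    have h3 := Q.mul_mem_left (C (coeff 0 r)⁻¹) hr0
    rwa [← C_mul, inv_mul_cancel₀ hc0, C_1] at h3
  refine ⟨e, r, he1, hre, hr0, fun h2 => ?_⟩
  have h3 : Polynomial.X ∣ finSuccEquiv K n r := Polynomial.X_dvd_iff.2 h2
  obtain ⟨q, hq⟩ := h3
  set r' := (finSuccEquiv K n).symm q with hr'
  have h4 : r = X 0 * r' := by
    apply (finSuccEquiv K n).injective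
    rw [hq, map_mul, finSuccEquiv_X_zero, hr', AlgEquiv.apply_symm_apply]
  have h5 : homogeneousComponent (e - 1) r' ≠ 0 ∧
      aeval (Fin.cons l h : Fin (n + 1) → MvPolynomial (Fin (s + 1)) K)
        (homogeneousComponent (e - 1) r') ∈ Q := by
    have h6 : X 0 * homogeneousComponent (e - 1) r' = r := by
      have h7 : homogeneousComponent e r = r := by
        rw [homogeneousComponent_of_mem ((mem_homogeneousSubmodule _ _).2 hre), if_pos rfl]
      conv_rhs => rw [← h7, h4]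
      ext s
      rw [coeff_homogeneousComponent, coeff_X_mul', coeff_X_mul', coeff_homogeneousComponent]
      by_cases hs : (0 : Fin (n + 1)) ∈ s.support
      · rw [if_pos hs, if_pos hs]
        have h8 : s = (s - Finsupp.single 0 1) + Finsupp.single 0 1 := by
          ext j
          rw [Finsupp.add_apply, Finsupp.tsub_apply]
          by_cases hj : j = 0
          · subst hj
            rw [Finsupp.single_eq_same]
            have := Finsupp.mem_support_iff.1 hs
            omega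
          · rw [Finsupp.single_eq_of_ne hj]; omega
        have h9 : s.degree = (s - Finsupp.single 0 1).degree + 1 := by
          conv_lhs => rw [h8]
          rw [map_add, Finsupp.degree_single]
        have h10 : ((s - Finsupp.single 0 1).degree = e - 1) ↔ s.degree = e := by omega
        simp only [h10]
      · rw [if_neg hs, if_neg hs]
        simp
    have h6' := hr0
    rw [← h6, map_mul, aeval_X, Fin.cons_zero] at h6'
    refine ⟨fun h7 => hr ?_, (hQ.mem_or_mem h6').resolve_left hl0⟩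
    rw [← h6, h7, mul_zero]
  exact Nat.find_min hex (m := e - 1) (by omega) ⟨_, h5.1,
    homogeneousComponent_isHomogeneous _ _, h5.2⟩

/-- one step: one form less -/
theorem step [Infinite K]
    (Q : Ideal (MvPolynomial (Fin (s + 1)) K)) (hQ : Q.IsPrime) (hQh : IsHom Q)
    (hN : Algebra.trdeg K (MvPolynomial (Fin (s + 1)) K ⧸ Q) = ((N + 1 : ℕ) : Cardinal))
    (δ : ℕ) (hδ : 1 ≤ δ) (l : MvPolynomial (Fin (s + 1)) K) (hl : l.IsHomogeneous 1)
    (hl0 : l ∉ Q) (n : ℕ) (hn : N ≤ n) (h : Fin (n + 1) → MvPolynomial (Fin (s + 1)) K)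
    (hh : ∀ i, (h i).IsHomogeneous δ)
    (hz : ∀ t ∈ Cone Ω Q, (∀ i, aeval t (h i) = 0) → aeval t l = 0 → t = 0) :
    ∃ g : Fin n → MvPolynomial (Fin (s + 1)) K,
      (∀ i, g i ∈ Submodule.span K (Set.range h)) ∧ (∀ i, (g i).IsHomogeneous δ) ∧
      ∀ t ∈ Cone Ω Q, (∀ i, aeval t (g i) = 0) → aeval t l = 0 → t = 0 := by
  classical
  have hlδ : (l ^ δ).IsHomogeneous δ := by
    have := hl.pow δ
    rwa [one_mul] at this
  have hlδ0 : l ^ δ ∉ Q := fun h0 => hl0 (hQ.mem_of_pow_mem _ h0)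
  obtain ⟨e, r, he1, hre, hr0, hr1⟩ := exists_relQ Q hQ hQh hN δ hδ (n + 1) (by omega) h hh
    (l ^ δ) hlδ hlδ0
  obtain ⟨p, hp⟩ : ∃ p : Fin (n + 1) → K, eval (Fin.cons 0 p : Fin (n + 1 + 1) → K) r ≠ 0 := by
    by_contra hcon
    push Not at hcon
    apply hr1
    refine MvPolynomial.funext fun p => ?_
    have h1 := hcon p
    rw [eval_eq_eval_mv_eval', ← Polynomial.coeff_zero_eq_eval_zero, Polynomial.coeff_map] at h1
    rw [h1, map_zero]
  have hp0 : ∃ k, p k ≠ 0 := by
    by_contra hcon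
    push Not at hcon
    apply hp
    have h1 : (Fin.cons 0 p : Fin (n + 1 + 1) → K) =
        (0 : K) • (Fin.cons 0 p : Fin (n + 1 + 1) → K) := by
      funext i
      refine Fin.cases ?_ (fun j => ?_) i
      · simp
      · simp [hcon j]
    have h2 := aeval_smul_hom (Ω := K) r e hre 0 (Fin.cons 0 p : Fin (n + 1 + 1) → K)
    rw [zero_pow (by omega), zero_mul] at h2
    rw [h1]
    exact h2
  obtain ⟨k, hk⟩ := hp0
  refine ⟨fun i => h (k.succAbove i) - (p (k.succAbove i) / p k) • h k, fun i => ?_,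
    fun i => ?_, fun t ht htg hlt => ?_⟩
  · exact Submodule.sub_mem _ (Submodule.subset_span ⟨_, rfl⟩)
      (Submodule.smul_mem _ _ (Submodule.subset_span ⟨_, rfl⟩))
  · have h1 : h (k.succAbove i) ∈ homogeneousSubmodule (Fin (s + 1)) K δ := hh _
    have h2 : h k ∈ homogeneousSubmodule (Fin (s + 1)) K δ := hh _
    exact Submodule.sub_mem _ h1 (Submodule.smul_mem _ _ h2)
  · have hG : ∀ j, aeval t (h j) = (aeval t (h k) / algebraMap K Ω (p k)) *
        algebraMap K Ω (p j) := by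
      intro j
      have hk' : algebraMap K Ω (p k) ≠ 0 := by
        rw [Ne, map_eq_zero]
        exact hk
      by_cases hj : j = k
      · rw [hj, div_mul_cancel₀ _ hk']
      · obtain ⟨i, rfl⟩ := Fin.exists_succAbove_eq hj
        have h1 := htg i
        rw [map_sub, map_smul, sub_eq_zero, Algebra.smul_def, map_div₀] at h1
        rw [h1]
        ring
    set c := aeval t (h k) / algebraMap K Ω (p k) with hc
    have h1 : aeval t (aeval (Fin.cons (l ^ δ) h :
        Fin (n + 1 + 1) → MvPolynomial (Fin (s + 1)) K) r) = 0 := ht _ hr0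
    have h2 : aeval t (aeval (Fin.cons (l ^ δ) h :
        Fin (n + 1 + 1) → MvPolynomial (Fin (s + 1)) K) r) =
        aeval (c • (fun i => algebraMap K Ω ((Fin.cons 0 p : Fin (n + 1 + 1) → K) i))) r := by
      rw [comp_aeval_apply]
      congr 1
      congr 1
      funext i
      refine Fin.cases ?_ (fun j => ?_) i
      · simp only [Fin.cons_zero, map_pow, hlt, Pi.smul_apply, map_zero, smul_zero]
        exact zero_pow (by omega)
      · simp only [Fin.cons_succ, Pi.smul_apply, smul_eq_mul]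
        exact hG j
    rw [h2, aeval_smul_hom r e hre] at h1
    have h3 : aeval (fun i => algebraMap K Ω ((Fin.cons 0 p : Fin (n + 1 + 1) → K) i)) r ≠ 0 := by
      have e1 : aeval (fun i => algebraMap K Ω ((Fin.cons 0 p : Fin (n + 1 + 1) → K) i)) r =
          algebraMap K Ω (aeval (Fin.cons 0 p : Fin (n + 1 + 1) → K) r) :=
        aeval_algebraMap_apply (B := Ω) (Fin.cons 0 p : Fin (n + 1 + 1) → K) r
      rw [e1, Ne, map_eq_zero]
      exact hp
    have h4 : c = 0 := by
      rcases mul_eq_zero.1 h1 with h5 | h5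
      · exact pow_eq_zero_iff (by omega) |>.1 h5
      · exact absurd h5 h3
    exact hz t ht (fun j => by rw [hG j, h4, zero_mul]) hlt

theorem reduce [Infinite K]
    (Q : Ideal (MvPolynomial (Fin (s + 1)) K)) (hQ : Q.IsPrime) (hQh : IsHom Q)
    (hN : Algebra.trdeg K (MvPolynomial (Fin (s + 1)) K ⧸ Q) = ((N + 1 : ℕ) : Cardinal))
    (δ : ℕ) (hδ : 1 ≤ δ) (l : MvPolynomial (Fin (s + 1)) K) (hl : l.IsHomogeneous 1)
    (hl0 : l ∉ Q) (m : ℕ) (h : Fin (N + m) → MvPolynomial (Fin (s + 1)) K)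
    (hh : ∀ i, (h i).IsHomogeneous δ)
    (hz : ∀ t ∈ Cone Ω Q, (∀ i, aeval t (h i) = 0) → aeval t l = 0 → t = 0) :
    ∃ g : Fin N → MvPolynomial (Fin (s + 1)) K,
      (∀ i, g i ∈ Submodule.span K (Set.range h)) ∧
      ∀ t ∈ Cone Ω Q, (∀ i, aeval t (g i) = 0) → aeval t l = 0 → t = 0 := by
  induction m with
  | zero => exact ⟨h, fun i => Submodule.subset_span ⟨i, rfl⟩, hz⟩
  | succ m ih =>
    obtain ⟨g, hg1, hg2, hg3⟩ := step Q hQ hQh hN δ hδ l hl hl0 (N + m) (by omega) h hh hz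
    obtain ⟨g', hg1', hg2'⟩ := ih g hg2 hg3
    refine ⟨g', fun i => ?_, hg2'⟩
    have h1 : Submodule.span K (Set.range g) ≤ Submodule.span K (Set.range h) := by
      rw [Submodule.span_le]
      rintro _ ⟨j, rfl⟩
      exact hg1 j
    exact h1 (hg1' i)

/-- the cone contains a nonzero point -/
theorem exists_cone_ne_zero [IsAlgClosed Ω]
    (Q : Ideal (MvPolynomial (Fin (s + 1)) K)) (hQ : Q.IsPrime)
    (hN : Algebra.trdeg K (MvPolynomial (Fin (s + 1)) K ⧸ Q) = ((N + 1 : ℕ) : Cardinal)) :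
    ∃ t ∈ Cone Ω Q, t ≠ 0 := by
  by_contra hcon
  push Not at hcon
  have hX : ∀ i, (X i : MvPolynomial (Fin (s + 1)) K) ∈ Q := by
    intro i
    obtain ⟨A, hA⟩ := Pool.Agent.Lib.MP_9ec2c5_gen.NullBase.null (Ω := Ω)
      (Q : Set (MvPolynomial (Fin (s + 1)) K)) (X i) (fun t ht => by
        rw [hcon t ht, aeval_X]
        rfl)
    rw [Ideal.span_eq] at hA
    exact hQ.mem_of_pow_mem _ hA
  have hdom : IsDomain (MvPolynomial (Fin (s + 1)) K ⧸ Q) :=
    (Ideal.Quotient.isDomain_iff_prime Q).2 hQ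
  have hsurj : Function.Surjective (algebraMap K (MvPolynomial (Fin (s + 1)) K ⧸ Q)) := by
    intro x
    obtain ⟨f, rfl⟩ := Ideal.Quotient.mk_surjective x
    induction f using MvPolynomial.induction_on with
    | C a => exact ⟨a, rfl⟩
    | add p q hp hq =>
      obtain ⟨a, ha⟩ := hp
      obtain ⟨b, hb⟩ := hq
      exact ⟨a + b, by rw [map_add, map_add, ha, hb]⟩
    | mul_X p i _ =>
      refine ⟨0, ?_⟩
      rw [map_zero, eq_comm, Ideal.Quotient.eq_zero_iff_mem]
      exact Q.mul_mem_left _ (hX i)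
  have halg : Algebra.IsAlgebraic K (MvPolynomial (Fin (s + 1)) K ⧸ Q) := by
    refine ⟨fun x => ?_⟩
    obtain ⟨a, rfl⟩ := hsurj x
    exact isAlgebraic_algebraMap a
  have h0 := trdeg_eq_zero (R := K) (A := MvPolynomial (Fin (s + 1)) K ⧸ Q)
  rw [hN] at h0
  norm_cast at h0

end QNoetherAux

theorem exists_noetherQ [IsAlgClosed Ω] [Infinite K]
    (Q : Ideal (MvPolynomial (Fin (s + 1)) K)) (hQ : Q.IsPrime) (hQh : IsHom Q)
    (hN : Algebra.trdeg K (MvPolynomial (Fin (s + 1)) K ⧸ Q) = ((N + 1 : ℕ) : Cardinal))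
    (δ : ℕ) (hδ : 1 ≤ δ) (n : ℕ) (h : Fin n → MvPolynomial (Fin (s + 1)) K)
    (hh : ∀ i, (h i).IsHomogeneous δ) (hfin : FinLines (Zer Ω h ∩ Cone Ω Q)) :
    ∃ (G : Fin N → MvPolynomial (Fin (s + 1)) K) (l : MvPolynomial (Fin (s + 1)) K),
      (∀ i, G i ∈ Submodule.span K (Set.range h)) ∧ l.IsHomogeneous 1 ∧
      ∀ i, ∃ e : ℕ, (X i : MvPolynomial (Fin (s + 1)) K) ^ e ∈
        Ideal.span (Set.range G ∪ {l}) ⊔ Q := by
  classical
  obtain ⟨S, hS, hZ⟩ := hfin
  obtain ⟨c, hc, hc0⟩ := QNoetherAux.exists_cone_ne_zero (Ω := Ω) Q hQ hN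
  obtain ⟨l, hl, hlS⟩ := exists_linear (K := K) (insert c S) (hS.insert _)
  have hlQ : l ∉ Q := fun h0 => hlS c (Set.mem_insert _ _) hc0 (hc l h0)
  have hz : ∀ t ∈ Cone Ω Q, (∀ i, aeval t (h i) = 0) → aeval t l = 0 → t = 0 := by
    intro t ht hth hlt
    obtain ⟨u, hu, b, rfl⟩ := hZ t ⟨hth, ht⟩
    rw [aeval_smul_hom l 1 hl, pow_one] at hlt
    rcases mul_eq_zero.1 hlt with h6 | h6
    · rw [h6, zero_smul]
    · by_cases hu0 : u = 0
      · rw [hu0, smul_zero]
      · exact absurd h6 (hlS u (Set.mem_insert_of_mem _ hu) hu0)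
  -- pad the family by zeros
  obtain ⟨G, hG1, hG2⟩ : ∃ g : Fin N → MvPolynomial (Fin (s + 1)) K,
      (∀ i, g i ∈ Submodule.span K (Set.range h)) ∧
      ∀ t ∈ Cone Ω Q, (∀ i, aeval t (g i) = 0) → aeval t l = 0 → t = 0 := by
    set h' : Fin (N + n) → MvPolynomial (Fin (s + 1)) K := Fin.append (fun _ => 0) h with hh'
    have hh'' : ∀ i, (h' i).IsHomogeneous δ := by
      intro i
      refine Fin.addCases (fun j => ?_) (fun j => ?_) i
      · rw [hh', Fin.append_left]
        exact isHomogeneous_zero _ _ _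
      · rw [hh', Fin.append_right]
        exact hh j
    obtain ⟨g, hg1, hg2⟩ := QNoetherAux.reduce Q hQ hQh hN δ hδ l hl hlQ n h' hh''
      (fun t ht hth hlt => hz t ht (fun i => by
        have := hth (Fin.natAdd N i)
        rwa [hh', Fin.append_right] at this) hlt)
    refine ⟨g, fun i => ?_, hg2⟩
    have h1 : Submodule.span K (Set.range h') ≤ Submodule.span K (Set.range h) := by
      rw [Submodule.span_le]
      rintro _ ⟨j, rfl⟩
      refine Fin.addCases (fun j => ?_) (fun j => ?_) j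
      · rw [hh', Fin.append_left]
        exact zero_mem _
      · rw [hh', Fin.append_right]
        exact Submodule.subset_span ⟨j, rfl⟩
    exact h1 (hg1 i)
  refine ⟨G, l, hG1, hl, fun i => ?_⟩
  obtain ⟨A, hA⟩ := Pool.Agent.Lib.MP_9ec2c5_gen.NullBase.null (Ω := Ω)
    ((Set.range G ∪ {l}) ∪ (Q : Set (MvPolynomial (Fin (s + 1)) K))) (X i) (fun t ht => by
      have h1 : t = 0 := hG2 t (fun f hf => ht f (Or.inr hf))
        (fun j => ht _ (Or.inl (Or.inl ⟨j, rfl⟩))) (ht _ (Or.inl (Or.inr rfl)))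
      rw [h1, aeval_X]
      rfl)
  refine ⟨A, ?_⟩
  rwa [Ideal.span_union, Ideal.span_eq] at hA

end Pool.Agent.Lib.MP_9ec2c5_av
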