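import Mathlib
import Pool.Agent.Lib.MP_9ec2c5_av.Defs

/-!
The homogeneous coordinate ring is finite over the ring generated by forms without common zeros.
-/

set_option autoImplicit false

namespace Pool.Agent.Lib.MP_9ec2c5_av

open MvPolynomial
open Pool.Agent.Lib.MP_9ec2c5_gen (iter)
open Pool.Agent.Lib.MP_9ec2c5_bp

variable {K : Type} [Field K] {s N : ℕ}

/-- The component of a product with a form. -/
theorem QGen_hc_mul {σ : Type} (g : MvPolynomial σ K) (d : ℕ) (hg : g.IsHomogeneous d)
    (q : MvPolynomial σ K) (m : ℕ) :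
    homogeneousComponent m (q * g) = if d ≤ m then homogeneousComponent (m - d) q * g else 0 := by
  classical
  have h1 : q * g = ∑ k ∈ Finset.range (q.totalDegree + 1), homogeneousComponent k q * g := by
    rw [← Finset.sum_mul, sum_homogeneousComponent]
  have h2 : ∀ k, homogeneousComponent m (homogeneousComponent k q * g) =
      if k + d = m then homogeneousComponent k q * g else 0 := by
    intro k
    have h3 : (homogeneousComponent k q * g).IsHomogeneous (k + d) :=
      (homogeneousComponent_isHomogeneous k q).mul hg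
    rw [homogeneousComponent_of_mem h3]
    by_cases h : k + d = m
    · rw [if_pos h, if_pos h.symm]
    · rw [if_neg h, if_neg fun h' => h h'.symm]
  rw [h1, map_sum, Finset.sum_congr rfl fun k _ => h2 k]
  by_cases hd : d ≤ m
  · rw [if_pos hd]
    by_cases hk : m - d < q.totalDegree + 1
    · rw [Finset.sum_eq_single (m - d)]
      · rw [if_pos (by omega)]
      · intro b _ hb
        rw [if_neg (by omega)]
      · intro h
        exact absurd (Finset.mem_range.2 hk) h
    · rw [homogeneousComponent_eq_zero _ _ (by omega), zero_mul]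
      refine Finset.sum_eq_zero fun b hb => ?_
      rw [if_neg]
      have := Finset.mem_range.1 hb
      omega
  · rw [if_neg hd]
    refine Finset.sum_eq_zero fun b _ => ?_
    rw [if_neg (by omega)]

theorem genQ (Q : Ideal (MvPolynomial (Fin (s + 1)) K)) (hQh : IsHom Q)
    (δ : ℕ) (hδ : 1 ≤ δ) (G : Fin N → MvPolynomial (Fin (s + 1)) K)
    (hG : ∀ i, (G i).IsHomogeneous δ) (l : MvPolynomial (Fin (s + 1)) K) (hl : l.IsHomogeneous 1)
    (hX : ∀ i, ∃ e : ℕ, (X i : MvPolynomial (Fin (s + 1)) K) ^ e ∈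
      Ideal.span (Set.range G ∪ {l}) ⊔ Q) :
    ∃ E : ℕ, ∀ a : MvPolynomial (Fin (s + 1)) K,
      ∃ c : (Fin (s + 1) → Fin E) → MvPolynomial (Fin (N + 1)) K,
        a - ∑ β, aeval (Fin.cons l G : Fin (N + 1) → MvPolynomial (Fin (s + 1)) K) (c β) *
          ∏ i, X i ^ (β i : ℕ) ∈ Q := by
  classical
  set g : Fin (N + 1) → MvPolynomial (Fin (s + 1)) K := Fin.cons l G with hg
  choose e he using hX
  set E : ℕ := (Finset.univ.sup e) + 1 with hE
  have heE : ∀ i, e i < E := fun i => Nat.lt_succ_of_le (Finset.le_sup (Finset.mem_univ i))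
  -- the degrees of the generators
  obtain ⟨dg, hdg1, hdg⟩ : ∃ dg : Fin (N + 1) → ℕ, (∀ i, 1 ≤ dg i) ∧
      ∀ i, (g i).IsHomogeneous (dg i) := by
    refine ⟨Fin.cons 1 fun _ => δ, fun i => ?_, fun i => ?_⟩
    · refine Fin.cases ?_ (fun j => ?_) i
      · simp
      · simpa using hδ
    · refine Fin.cases ?_ (fun j => ?_) i
      · simpa [hg] using hl
      · simpa [hg] using hG j
  have hrange : Set.range G ∪ {l} = Set.range g := by
    rw [hg, Fin.range_cons, Set.union_comm]
    rfl
  -- the set of the combinations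
  let T : ((Fin (s + 1) → Fin E) → MvPolynomial (Fin (N + 1)) K) →ₗ[K]
      MvPolynomial (Fin (s + 1)) K :=
    { toFun := fun c => ∑ β, aeval g (c β) * ∏ i, X i ^ (β i : ℕ)
      map_add' := fun c c' => by
        simp only [Pi.add_apply, map_add, add_mul, Finset.sum_add_distrib]
      map_smul' := fun r c => by
        simp only [Pi.smul_apply, map_smul, smul_mul_assoc, Finset.smul_sum, RingHom.id_apply] }
  have hT : ∀ c, T c = ∑ β, aeval g (c β) * ∏ i, X i ^ (β i : ℕ) := fun _ => rfl
  let W : Submodule K (MvPolynomial (Fin (s + 1)) K) := LinearMap.range T ⊔ Q.restrictScalars K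
  have hQW : ∀ a ∈ Q, a ∈ W := fun a ha => Submodule.mem_sup_right ha
  have hTm : ∀ (q : MvPolynomial (Fin (N + 1)) K) (a : MvPolynomial (Fin (s + 1)) K), a ∈ W →
      a * aeval g q ∈ W := by
    intro q a ha
    obtain ⟨_, ⟨c, rfl⟩, b, hb, rfl⟩ := Submodule.mem_sup.1 ha
    rw [add_mul]
    refine Submodule.add_mem _ (Submodule.mem_sup_left ⟨fun β => c β * q, ?_⟩)
      (hQW _ (Ideal.mul_mem_right _ _ hb))
    rw [hT, hT, Finset.sum_mul]
    refine Finset.sum_congr rfl fun β _ => ?_
    rw [map_mul]
    ring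
  have hTg : ∀ (i : Fin (N + 1)) (a : MvPolynomial (Fin (s + 1)) K), a ∈ W →
      a * g i ∈ W := by
    intro i a ha
    have h := hTm (X i) a ha
    rwa [aeval_X] at h
  have hTmon : ∀ β : Fin (s + 1) → Fin E, (∏ i, X i ^ (β i : ℕ) :
      MvPolynomial (Fin (s + 1)) K) ∈ W := by
    intro β
    refine Submodule.mem_sup_left ⟨Pi.single β 1, ?_⟩
    rw [hT, Finset.sum_eq_single β]
    · rw [Pi.single_eq_same, map_one, one_mul]
    · intro b _ hb
      rw [Pi.single_eq_of_ne hb, map_zero, zero_mul]
    · intro h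
      exact absurd (Finset.mem_univ β) h
  -- the main induction
  have key : ∀ m : ℕ, ∀ a : MvPolynomial (Fin (s + 1)) K, a.IsHomogeneous m → a ∈ W := by
    intro m
    induction m using Nat.strong_induction_on with
    | _ m ih =>
      intro a ha
      have hmon : ∀ t : Fin (s + 1) →₀ ℕ, t.degree = m →
          (monomial t 1 : MvPolynomial (Fin (s + 1)) K) ∈ W := by
        intro t hs
        have hsp : (monomial t 1 : MvPolynomial (Fin (s + 1)) K) = ∏ i, X i ^ (t i) := by
          rw [monomial_eq, C_1, one_mul, Finsupp.prod_fintype]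
          intro i
          rw [pow_zero]
        by_cases hsE : ∀ i, t i < E
        · rw [hsp]
          exact hTmon fun i => ⟨t i, hsE i⟩
        · push Not at hsE
          obtain ⟨i, hi⟩ := hsE
          have hle : e i ≤ t i := by
            have := heE i
            omega
          have hI : (monomial t 1 : MvPolynomial (Fin (s + 1)) K) ∈
              Ideal.span (Set.range g) ⊔ Q := by
            rw [← hrange, hsp, ← Finset.mul_prod_erase _ _ (Finset.mem_univ i)]
            refine Ideal.mul_mem_right _ _ ?_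
            have h5 : (X i : MvPolynomial (Fin (s + 1)) K) ^ t i = X i ^ e i * X i ^ (t i - e i) := by
              rw [← pow_add]
              congr 1
              omega
            rw [h5]
            exact Ideal.mul_mem_right _ _ (he i)
          obtain ⟨y, hy, z, hz, hyz⟩ := Submodule.mem_sup.1 hI
          obtain ⟨c, hc⟩ := Ideal.mem_span_range_iff_exists_fun.1 hy
          have hhom : (monomial t 1 : MvPolynomial (Fin (s + 1)) K).IsHomogeneous m :=
            isHomogeneous_monomial _ hs
          have h6 : (monomial t 1 : MvPolynomial (Fin (s + 1)) K) =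
              ∑ j, homogeneousComponent m (c j * g j) + homogeneousComponent m z := by
            rw [← map_sum, hc, ← map_add, hyz, homogeneousComponent_of_mem hhom, if_pos rfl]
          rw [h6]
          refine Submodule.add_mem _ (Submodule.sum_mem _ fun j _ => ?_) (hQW _ (hQh z hz m))
          rw [QGen_hc_mul (g j) (dg j) (hdg j)]
          by_cases hj : dg j ≤ m
          · rw [if_pos hj]
            refine hTg j _ (ih (m - dg j) ?_ _ (homogeneousComponent_isHomogeneous _ _))
            have := hdg1 j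
            omega
          · rw [if_neg hj]
            exact Submodule.zero_mem _
      rw [a.as_sum]
      refine Submodule.sum_mem _ fun t hs => ?_
      have h7 : (monomial t (coeff t a) : MvPolynomial (Fin (s + 1)) K) =
          coeff t a • monomial t 1 := by
        rw [smul_monomial, smul_eq_mul, mul_one]
      rw [h7]
      refine Submodule.smul_mem _ _ (hmon t ?_)
      have h8 := ha (mem_support_iff.1 hs)
      rw [Finsupp.degree_eq_weight_one]
      exact h8
  refine ⟨E, fun a => ?_⟩
  have h9 : a ∈ W := by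
    rw [← sum_homogeneousComponent a]
    exact Submodule.sum_mem _ fun m _ => key m _ (homogeneousComponent_isHomogeneous m a)
  obtain ⟨_, ⟨c, rfl⟩, b, hb, hab⟩ := Submodule.mem_sup.1 h9
  refine ⟨c, ?_⟩
  rw [← hT, ← hab, add_sub_cancel_left]
  exact hb

/-- Algebraic independence. -/
theorem injQ (Q : Ideal (MvPolynomial (Fin (s + 1)) K)) (hQ : Q.IsPrime) (hQh : IsHom Q)
    (hN : Algebra.trdeg K (MvPolynomial (Fin (s + 1)) K ⧸ Q) = ((N + 1 : ℕ) : Cardinal))
    (δ : ℕ) (hδ : 1 ≤ δ) (G : Fin N → MvPolynomial (Fin (s + 1)) K)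
    (hG : ∀ i, (G i).IsHomogeneous δ) (l : MvPolynomial (Fin (s + 1)) K) (hl : l.IsHomogeneous 1)
    (hX : ∀ i, ∃ e : ℕ, (X i : MvPolynomial (Fin (s + 1)) K) ^ e ∈
      Ideal.span (Set.range G ∪ {l}) ⊔ Q) (c : MvPolynomial (Fin (N + 1)) K)
    (hc : aeval (Fin.cons l G : Fin (N + 1) → MvPolynomial (Fin (s + 1)) K) c ∈ Q) : c = 0 := by
  classical
  obtain ⟨E, hE⟩ := genQ Q hQh δ hδ G hG l hl hX
  set g : Fin (N + 1) → MvPolynomial (Fin (s + 1)) K := Fin.cons l G with hg
  let B := MvPolynomial (Fin (s + 1)) K ⧸ Q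
  let g' : Fin (N + 1) → B := fun i => Ideal.Quotient.mkₐ K Q (g i)
  have hg' : ∀ q : MvPolynomial (Fin (N + 1)) K, aeval g' q = Ideal.Quotient.mkₐ K Q (aeval g q) := by
    intro q
    have h1 : (aeval g' : MvPolynomial (Fin (N + 1)) K →ₐ[K] B) =
        (Ideal.Quotient.mkₐ K Q).comp (aeval g) := by
      apply MvPolynomial.algHom_ext
      intro i
      rw [aeval_X, AlgHom.comp_apply, aeval_X]
    rw [h1]
    rfl
  let A : Subalgebra K B := Algebra.adjoin K (Set.range g')
  have hA : ∀ q : MvPolynomial (Fin (N + 1)) K, aeval g' q ∈ A := by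
    intro q
    have h1 : A = (aeval g' : MvPolynomial (Fin (N + 1)) K →ₐ[K] _).range :=
      Algebra.adjoin_range_eq_range_aeval K g'
    rw [h1]
    exact ⟨q, rfl⟩
  have hfin : Module.Finite A B := by
    refine ⟨⟨Finset.univ.image fun β : Fin (s + 1) → Fin E =>
      Ideal.Quotient.mkₐ K Q (∏ i, X i ^ (β i : ℕ) : MvPolynomial (Fin (s + 1)) K), ?_⟩⟩
    rw [eq_top_iff]
    intro a _
    obtain ⟨a, rfl⟩ := Ideal.Quotient.mkₐ_surjective K Q a
    obtain ⟨c, hc⟩ := hE a
    have h3 : Ideal.Quotient.mkₐ K Q a = Ideal.Quotient.mkₐ K Q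
        (∑ β, aeval g (c β) * ∏ i, X i ^ (β i : ℕ)) := Ideal.Quotient.eq.2 hc
    rw [h3, map_sum]
    refine Submodule.sum_mem _ fun β _ => ?_
    rw [map_mul, ← hg']
    have h2 : aeval g' (c β) * Ideal.Quotient.mkₐ K Q
        (∏ i, (X i : MvPolynomial (Fin (s + 1)) K) ^ (β i : ℕ)) =
        (⟨aeval g' (c β), hA _⟩ : A) • Ideal.Quotient.mkₐ K Q
        (∏ i, (X i : MvPolynomial (Fin (s + 1)) K) ^ (β i : ℕ)) := rfl
    rw [h2]
    refine Submodule.smul_mem _ _ (Submodule.subset_span ?_)
    rw [Finset.coe_image, Finset.coe_univ, Set.image_univ]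
    exact ⟨β, rfl⟩
  have hint : Algebra.IsIntegral A B := Algebra.IsIntegral.of_finite _ _
  have halg : Algebra.IsAlgebraic (Algebra.adjoin K (Set.range g')) B :=
    hint.isAlgebraic
  have htr := Algebra.IsAlgebraic.isTranscendenceBasis_of_le_trdeg_of_finite K g' (by
    rw [hN]
    simp)
  have h4 : aeval g' c = 0 := by
    rw [hg']
    exact Ideal.Quotient.eq_zero_iff_mem.2 hc
  have h5 : Function.Injective (aeval g' : MvPolynomial (Fin (N + 1)) K →ₐ[K] B) := htr.1
  exact h5 (by rw [h4, map_zero])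

end Pool.Agent.Lib.MP_9ec2c5_av
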