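import Mathlib
import Pool.Agent.Lib.MP_9ec2c5_av.Defs
import Pool.Agent.Lib.MP_9ec2c5_av.QGen
import Pool.Agent.Lib.MP_9ec2c5_bp.HomDim

/-!
A free submodule of the homogeneous coordinate ring, and its rank.
-/

set_option autoImplicit false

namespace Pool.Agent.Lib.MP_9ec2c5_av

open MvPolynomial
open Pool.Agent.Lib.MP_9ec2c5_gen (iter)
open Pool.Agent.Lib.MP_9ec2c5_bp

/-- A maximal independent subfamily. -/
theorem qrank_exists_indep {R A ι : Type} [CommRing R] [IsDomain R] [CommRing A] [Fintype ι]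
    (φ : R →+* A) (x : ι → A) :
    ∃ S : Finset ι, (∀ c : ι → R, ∑ i ∈ S, φ (c i) * x i = 0 → ∀ i ∈ S, c i = 0) ∧
      ∃ v : R, v ≠ 0 ∧ ∀ i, ∃ c : ι → R, φ v * x i = ∑ j ∈ S, φ (c j) * x j := by
  classical
  set P : Finset ι → Prop := fun S =>
    ∀ c : ι → R, ∑ i ∈ S, φ (c i) * x i = 0 → ∀ i ∈ S, c i = 0 with hP
  obtain ⟨S, hS⟩ := ((Finset.univ : Finset (Finset ι)).filter P).exists_maximal
    ⟨∅, by simp [hP]⟩
  have hSP : P S := (Finset.mem_filter.1 hS.1).2
  have key : ∀ i, ∃ v : R, v ≠ 0 ∧ ∃ c : ι → R, φ v * x i = ∑ j ∈ S, φ (c j) * x j := by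
    intro i
    by_cases hi : i ∈ S
    · refine ⟨1, one_ne_zero, Pi.single i 1, ?_⟩
      rw [Finset.sum_eq_single i]
      · simp
      · intro j _ hj
        simp [Pi.single_eq_of_ne hj]
      · intro h
        exact absurd hi h
    · have h1 : ¬ P (insert i S) := by
        intro h
        have h2 := hS.2 (y := insert i S) (Finset.mem_filter.2 ⟨Finset.mem_univ _, h⟩)
          (Finset.subset_insert i S)
        exact hi (h2 (Finset.mem_insert_self i S))
      simp only [hP] at h1
      push Not at h1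
      obtain ⟨c, hc0, j, hj, hcj⟩ := h1
      rw [Finset.sum_insert hi] at hc0
      refine ⟨c i, ?_, fun k => - c k, ?_⟩
      · intro h0
        rw [h0, map_zero, zero_mul, zero_add] at hc0
        have h3 := hSP c hc0
        rcases Finset.mem_insert.1 hj with rfl | hj
        · exact hcj h0
        · exact hcj (h3 j hj)
      · simp only [map_neg, neg_mul, Finset.sum_neg_distrib]
        exact eq_neg_of_add_eq_zero_left hc0
  choose v hv c hc using key
  refine ⟨S, hSP, ∏ i, v i, Finset.prod_ne_zero_iff.2 fun i _ => hv i, fun i => ?_⟩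
  obtain ⟨w, hw⟩ := Finset.dvd_prod_of_mem v (Finset.mem_univ i)
  refine ⟨fun j => w * c i j, ?_⟩
  rw [hw, mul_comm (v i) w, map_mul, mul_assoc, hc, Finset.mul_sum]
  refine Finset.sum_congr rfl fun j _ => ?_
  rw [map_mul, mul_assoc]

/-- Comparison of the growth of two binomial coefficients. -/
theorem qrank_pow_le (δ C r N ρ : ℕ)
    (h : ∀ t : ℕ, r * (t + N).choose N ≤ ρ * (δ * t + C + N).choose N) : r ≤ ρ * δ ^ N := by
  have h1 : ∀ t : ℕ, r * t ^ N ≤ ρ * (δ * t + C + N) ^ N := by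
    intro t
    have h2 : (t + 1) ^ N ≤ (t + 1).ascFactorial N := Nat.pow_succ_le_ascFactorial _ _
    rw [Nat.ascFactorial_eq_factorial_mul_choose] at h2
    have h3 : (δ * t + C + N).descFactorial N ≤ (δ * t + C + N) ^ N := Nat.descFactorial_le_pow _ _
    rw [Nat.descFactorial_eq_factorial_mul_choose] at h3
    calc r * t ^ N ≤ r * (t + 1) ^ N :=
          Nat.mul_le_mul_left _ (Nat.pow_le_pow_left (Nat.le_succ t) _)
      _ ≤ r * (N.factorial * (t + N).choose N) := Nat.mul_le_mul_left _ h2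
      _ = N.factorial * (r * (t + N).choose N) := by ring
      _ ≤ N.factorial * (ρ * (δ * t + C + N).choose N) := Nat.mul_le_mul_left _ (h t)
      _ = ρ * (N.factorial * (δ * t + C + N).choose N) := by ring
      _ ≤ _ := Nat.mul_le_mul_left _ h3
  have h4 : ∀ t : ℕ, (r : ℝ) ≤ ρ * (δ + ((C + N : ℕ) : ℝ) / ((t : ℝ) + 1)) ^ N := by
    intro t
    have h5 : ((r * (t + 1) ^ N : ℕ) : ℝ) ≤ ((ρ * (δ * (t + 1) + C + N) ^ N : ℕ) : ℝ) := by
      exact_mod_cast h1 (t + 1)
    push_cast at h5
    have ht : (0 : ℝ) < (t : ℝ) + 1 := by positivity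
    have h6 : (δ : ℝ) + ((C + N : ℕ) : ℝ) / ((t : ℝ) + 1) =
        ((δ : ℝ) * (t + 1) + C + N) / (t + 1) := by
      push_cast
      field_simp
      ring
    rw [h6, div_pow, ← mul_div_assoc, le_div_iff₀ (by positivity)]
    exact h5
  have h7 : Filter.Tendsto (fun t : ℕ => (ρ : ℝ) * ((δ : ℝ) +
      ((C + N : ℕ) : ℝ) / ((t : ℝ) + 1)) ^ N)
      Filter.atTop (nhds ((ρ : ℝ) * ((δ : ℝ) + 0) ^ N)) := by
    refine Filter.Tendsto.const_mul _ (Filter.Tendsto.pow
      (Filter.Tendsto.add tendsto_const_nhds ?_) N)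
    exact Filter.Tendsto.div_atTop tendsto_const_nhds
      (Filter.tendsto_atTop_add_const_right _ _ tendsto_natCast_atTop_atTop)
  have h8 := ge_of_tendsto' h7 h4
  rw [add_zero] at h8
  exact_mod_cast h8

variable {K : Type} [Field K] {s N : ℕ}

/-- A subspace spanned by forms is graded. -/
theorem qrank_graded (T : Set (MvPolynomial (Fin (s + 1)) K))
    (hT : ∀ x ∈ T, ∃ n, x.IsHomogeneous n) (k : ℕ) {x : MvPolynomial (Fin (s + 1)) K}
    (hx : x ∈ Submodule.span K T) : homogeneousComponent k x ∈ Submodule.span K T := by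
  induction hx using Submodule.span_induction with
  | mem x h =>
    obtain ⟨n, hn⟩ := hT x h
    rw [homogeneousComponent_of_mem ((mem_homogeneousSubmodule n x).2 hn)]
    split_ifs
    · exact Submodule.subset_span h
    · exact Submodule.zero_mem _
  | zero => rw [map_zero]; exact Submodule.zero_mem _
  | add x y _ _ hx hy => rw [map_add]; exact Submodule.add_mem _ hx hy
  | smul a x _ hx => rw [map_smul]; exact Submodule.smul_mem _ a hx

theorem qrank_component_mul (p a : MvPolynomial (Fin (s + 1)) K) (D k : ℕ)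
    (ha : a.IsHomogeneous D) :
    homogeneousComponent (k + D) (p * a) = homogeneousComponent k p * a := by
  conv_lhs => rw [← sum_homogeneousComponent p, Finset.sum_mul, map_sum]
  have h1 : ∀ j, homogeneousComponent (k + D) (homogeneousComponent j p * a) =
      if j = k then homogeneousComponent k p * a else 0 := by
    intro j
    have h2 : (homogeneousComponent j p * a).IsHomogeneous (j + D) :=
      (homogeneousComponent_isHomogeneous j p).mul ha
    rw [homogeneousComponent_of_mem ((mem_homogeneousSubmodule _ _).2 h2)]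
    by_cases hj : j = k
    · subst hj
      simp
    · rw [if_neg (by omega), if_neg hj]
  simp only [h1]
  rw [Finset.sum_ite_eq']
  split_ifs with h
  · rfl
  · rw [homogeneousComponent_eq_zero, zero_mul]
    rw [Finset.mem_range] at h
    omega

theorem qrank_phi_monomial (δ : ℕ) (G : Fin N → MvPolynomial (Fin (s + 1)) K)
    (hG : ∀ i, (G i).IsHomogeneous δ) (l : MvPolynomial (Fin (s + 1)) K) (hl : l.IsHomogeneous 1)
    (t : Fin (N + 1) →₀ ℕ) :
    ∃ n, (aeval (Fin.cons l G : Fin (N + 1) → MvPolynomial (Fin (s + 1)) K)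
      (monomial t (1 : K))).IsHomogeneous n := by
  rw [aeval_monomial, map_one, one_mul, Finsupp.prod]
  refine ⟨∑ i ∈ t.support, (Fin.cons 1 (fun _ => δ) : Fin (N + 1) → ℕ) i * t i, ?_⟩
  refine IsHomogeneous.prod _ _ _ fun i _ => ?_
  refine IsHomogeneous.pow ?_ _
  refine Fin.cases ?_ (fun j => ?_) i
  · simpa using hl
  · simpa using hG j

theorem qrank_subst_injective (δ : ℕ) (hδ : 1 ≤ δ) :
    Function.Injective (aeval (Fin.cons (X 0 ^ δ) (fun i : Fin N => X i.succ) :
      Fin (N + 1) → MvPolynomial (Fin (N + 1)) K) :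
        MvPolynomial (Fin (N + 1)) K →ₐ[K] MvPolynomial (Fin (N + 1)) K) := by
  have h := (MvPolynomial.algebraicIndependent_X (Fin (N + 1)) K).polynomial_aeval_of_transcendental
    (f := (Fin.cons (Polynomial.X ^ δ) (fun _ => Polynomial.X) : Fin (N + 1) → Polynomial K))
    (by
      intro i
      refine Fin.cases ?_ (fun j => ?_) i
      · rw [Fin.cons_zero]
        exact (Polynomial.transcendental_X K).pow hδ
      · rw [Fin.cons_succ]
        exact Polynomial.transcendental_X K)
  have h2 : (fun i => Polynomial.aeval (X i : MvPolynomial (Fin (N + 1)) K)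
      ((Fin.cons (Polynomial.X ^ δ) (fun _ => Polynomial.X) : Fin (N + 1) → Polynomial K) i)) =
        (Fin.cons (X 0 ^ δ) (fun i : Fin N => X i.succ) :
          Fin (N + 1) → MvPolynomial (Fin (N + 1)) K) := by
    funext i
    refine Fin.cases ?_ (fun j => ?_) i
    · simp
    · simp
  rw [h2] at h
  exact h

theorem finite_part (Q a : Ideal (MvPolynomial (Fin (s + 1)) K)) (m : ℕ) :
    Module.Finite K (part Q a m) := by
  have := finite_homog (K := K) (s + 1) m
  have h1 : Module.Finite K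
      (a.restrictScalars K ⊓ homogeneousSubmodule (Fin (s + 1)) K m : Submodule K _) :=
    Submodule.finiteDimensional_inf_right _ _
  unfold part
  exact Module.Finite.map _ _

theorem denomQ (Q : Ideal (MvPolynomial (Fin (s + 1)) K)) (hQ : Q.IsPrime) (hQh : IsHom Q)
    (hN : Algebra.trdeg K (MvPolynomial (Fin (s + 1)) K ⧸ Q) = ((N + 1 : ℕ) : Cardinal))
    (δ : ℕ) (hδ : 1 ≤ δ) (G : Fin N → MvPolynomial (Fin (s + 1)) K)
    (hG : ∀ i, (G i).IsHomogeneous δ) (l : MvPolynomial (Fin (s + 1)) K) (hl : l.IsHomogeneous 1)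
    (hX : ∀ i, ∃ e : ℕ, (X i : MvPolynomial (Fin (s + 1)) K) ^ e ∈
      Ideal.span (Set.range G ∪ {l}) ⊔ Q) :
    ∃ (r : ℕ) (b : Fin r → MvPolynomial (Fin (s + 1)) K) (g : Fin r → ℕ)
      (p : MvPolynomial (Fin (s + 1)) K) (e0 : ℕ), 1 ≤ r ∧ (∀ i, (b i).IsHomogeneous (g i)) ∧
      (∀ c : Fin r → MvPolynomial (Fin (N + 1)) K,
        ∑ i, aeval (Fin.cons l G : Fin (N + 1) → MvPolynomial (Fin (s + 1)) K) (c i) * b i ∈ Q →
          c = 0) ∧
      p ∉ Q ∧ p.IsHomogeneous e0 ∧
      ∀ a : MvPolynomial (Fin (s + 1)) K, ∃ c : Fin r → MvPolynomial (Fin (N + 1)) K,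
        p * a - ∑ i, aeval (Fin.cons l G : Fin (N + 1) → MvPolynomial (Fin (s + 1)) K) (c i) *
          b i ∈ Q := by
  classical
  obtain ⟨E, hE⟩ := genQ Q hQh δ hδ G hG l hl hX
  have hinj := injQ Q hQ hQh hN δ hδ G hG l hl hX
  set φ : MvPolynomial (Fin (N + 1)) K →ₐ[K] MvPolynomial (Fin (s + 1)) K :=
    aeval (Fin.cons l G : Fin (N + 1) → MvPolynomial (Fin (s + 1)) K) with hφ
  set xx : (Fin (s + 1) → Fin E) → MvPolynomial (Fin (s + 1)) K :=
    fun β => ∏ i, (X i : MvPolynomial (Fin (s + 1)) K) ^ (β i : ℕ) with hxx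
  obtain ⟨S, hS, v, hv, hvS⟩ := qrank_exists_indep (ι := Fin (s + 1) → Fin E)
    ((Ideal.Quotient.mk Q).comp
      (φ : MvPolynomial (Fin (N + 1)) K →+* MvPolynomial (Fin (s + 1)) K))
    (fun β => Ideal.Quotient.mk Q (xx β))
  simp only [RingHom.comp_apply, RingHom.coe_coe, ← map_mul, ← map_sum] at hS hvS
  have hS' : ∀ c : (Fin (s + 1) → Fin E) → MvPolynomial (Fin (N + 1)) K,
      ∑ i ∈ S, φ (c i) * xx i ∈ Q → ∀ i ∈ S, c i = 0 := fun c hc =>
    hS c (Ideal.Quotient.eq_zero_iff_mem.2 hc)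
  have hvS' : ∀ i, ∃ c : (Fin (s + 1) → Fin E) → MvPolynomial (Fin (N + 1)) K,
      φ v * xx i - ∑ j ∈ S, φ (c j) * xx j ∈ Q := by
    intro i
    obtain ⟨c, hc⟩ := hvS i
    exact ⟨c, Ideal.Quotient.eq.1 hc⟩
  -- the index set
  have eqv : S ≃ Fin S.card := S.equivFin
  have hsum : ∀ f : (Fin (s + 1) → Fin E) → MvPolynomial (Fin (s + 1)) K,
      ∑ i : Fin S.card, f (eqv.symm i : (Fin (s + 1) → Fin E)) = ∑ β ∈ S, f β := by
    intro f
    rw [← Finset.sum_coe_sort S f]
    exact Equiv.sum_comp eqv.symm (fun β : S => f β)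
  set T : Set (MvPolynomial (Fin (s + 1)) K) :=
    {y | ∃ (t : Fin (N + 1) →₀ ℕ) (β : Fin (s + 1) → Fin E), β ∈ S ∧
      y = φ (monomial t 1) * xx β} with hT
  have hxxh : ∀ β, (xx β).IsHomogeneous (∑ i, (β i : ℕ)) := by
    intro β
    refine IsHomogeneous.prod _ _ _ fun i _ => ?_
    have := (isHomogeneous_X K i).pow (β i : ℕ)
    rwa [one_mul] at this
  have hTh : ∀ x ∈ T, ∃ n, x.IsHomogeneous n := by
    rintro x ⟨t, β, _, rfl⟩
    obtain ⟨n, hn⟩ := qrank_phi_monomial δ G hG l hl t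
    exact ⟨_, hn.mul (hxxh β)⟩
  have hTmem : ∀ (c : (Fin (s + 1) → Fin E) → MvPolynomial (Fin (N + 1)) K),
      ∑ β ∈ S, φ (c β) * xx β ∈ Submodule.span K T := by
    intro c
    refine Submodule.sum_mem _ fun β hβ => ?_
    have h1 : φ (c β) * xx β =
        ∑ t ∈ (c β).support, coeff t (c β) • (φ (monomial t 1) * xx β) := by
      conv_lhs => rw [(c β).as_sum, map_sum, Finset.sum_mul]
      refine Finset.sum_congr rfl fun t _ => ?_
      rw [← smul_mul_assoc, ← map_smul, smul_monomial, smul_eq_mul, mul_one]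
    rw [h1]
    refine Submodule.sum_mem _ fun t _ => Submodule.smul_mem _ _ (Submodule.subset_span ?_)
    exact ⟨t, β, hβ, rfl⟩
  have hTex : ∀ x ∈ Submodule.span K T, ∃ c : (Fin (s + 1) → Fin E) →
      MvPolynomial (Fin (N + 1)) K, x = ∑ β ∈ S, φ (c β) * xx β := by
    intro x hx
    induction hx using Submodule.span_induction with
    | mem x h =>
      obtain ⟨t, β, hβ, rfl⟩ := h
      refine ⟨Pi.single β (monomial t 1), ?_⟩
      rw [Finset.sum_eq_single β]
      · simp
      · intro j _ hj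
        simp [Pi.single_eq_of_ne hj]
      · intro h
        exact absurd hβ h
    | zero => exact ⟨0, by simp⟩
    | add x y _ _ hx hy =>
      obtain ⟨c, rfl⟩ := hx
      obtain ⟨c', rfl⟩ := hy
      exact ⟨c + c', by simp [add_mul, Finset.sum_add_distrib]⟩
    | smul a x _ hx =>
      obtain ⟨c, rfl⟩ := hx
      exact ⟨a • c, by simp [Finset.smul_sum]⟩
  -- every multiple of `φ v` lies in the span, modulo `Q`
  have hmul : ∀ a : MvPolynomial (Fin (s + 1)) K, ∃ y ∈ Submodule.span K T, φ v * a - y ∈ Q := by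
    intro a
    obtain ⟨c, hc⟩ := hE a
    choose w hw using hvS'
    refine ⟨∑ γ ∈ S, φ (∑ β, c β * w β γ) * xx γ, hTmem _, ?_⟩
    have h1 : φ v * a - ∑ γ ∈ S, φ (∑ β, c β * w β γ) * xx γ =
        φ v * (a - ∑ β, φ (c β) * xx β) +
          ∑ β, φ (c β) * (φ v * xx β - ∑ j ∈ S, φ (w β j) * xx j) := by
      have h2 : ∑ γ ∈ S, φ (∑ β, c β * w β γ) * xx γ =
          ∑ β, φ (c β) * ∑ j ∈ S, φ (w β j) * xx j := by
        simp only [map_sum, map_mul, Finset.sum_mul, Finset.mul_sum]
        rw [Finset.sum_comm]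
        exact Finset.sum_congr rfl fun β _ => Finset.sum_congr rfl fun j _ => by ring
      rw [h2]
      simp only [mul_sub, Finset.sum_sub_distrib, Finset.mul_sum]
      have h3 : ∑ β, φ v * (φ (c β) * xx β) = ∑ β, φ (c β) * (φ v * xx β) :=
        Finset.sum_congr rfl fun β _ => by ring
      rw [h3]
      ring
    rw [h1]
    exact Q.add_mem (Q.mul_mem_left _ hc) (Q.sum_mem fun β _ => Q.mul_mem_left _ (hw β))
  have hp0 : φ v ∉ Q := fun h => hv (hinj v h)
  obtain ⟨e0, he0⟩ : ∃ e0, homogeneousComponent e0 (φ v) ∉ Q := by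
    by_contra hcon
    push Not at hcon
    apply hp0
    rw [← sum_homogeneousComponent (φ v)]
    exact Q.sum_mem fun i _ => hcon i
  have hfin : ∀ a : MvPolynomial (Fin (s + 1)) K, ∃ y ∈ Submodule.span K T,
      homogeneousComponent e0 (φ v) * a - y ∈ Q := by
    intro a
    choose Y hY hYQ using hmul
    refine ⟨∑ D ∈ Finset.range (a.totalDegree + 1),
      homogeneousComponent (e0 + D) (Y (homogeneousComponent D a)),
      Submodule.sum_mem _ fun D _ => qrank_graded T hTh _ (hY _), ?_⟩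
    have h2 : homogeneousComponent e0 (φ v) * a - ∑ D ∈ Finset.range (a.totalDegree + 1),
        homogeneousComponent (e0 + D) (Y (homogeneousComponent D a)) =
          ∑ D ∈ Finset.range (a.totalDegree + 1), homogeneousComponent (e0 + D)
            (φ v * homogeneousComponent D a - Y (homogeneousComponent D a)) := by
      simp only [map_sub, Finset.sum_sub_distrib]
      congr 1
      conv_lhs => rw [← sum_homogeneousComponent a, Finset.mul_sum]
      refine Finset.sum_congr rfl fun D _ => ?_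
      rw [qrank_component_mul _ _ _ _ (homogeneousComponent_isHomogeneous D a)]
    rw [h2]
    exact Q.sum_mem fun D _ => hQh _ (hYQ _) _
  have hr : 1 ≤ S.card := by
    by_contra hcon
    have hS0 : S = ∅ := Finset.card_eq_zero.1 (by omega)
    obtain ⟨c, hc⟩ := hE 1
    have h3 : ∀ β, xx β ∈ Q := by
      intro β
      obtain ⟨w, hw⟩ := hvS' β
      rw [hS0, Finset.sum_empty, sub_zero] at hw
      exact (hQ.mem_or_mem hw).resolve_left hp0
    have h4 : (1 : MvPolynomial (Fin (s + 1)) K) ∈ Q := by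
      have h5 : (1 : MvPolynomial (Fin (s + 1)) K) = (1 - ∑ β, φ (c β) * xx β) +
          ∑ β, φ (c β) * xx β := by ring
      rw [h5]
      exact Q.add_mem hc (Q.sum_mem fun β _ => Q.mul_mem_left _ (h3 β))
    exact hQ.ne_top ((Ideal.eq_top_iff_one _).2 h4)
  refine ⟨S.card, fun i => xx (eqv.symm i),
    fun i => ∑ j, ((eqv.symm i : Fin (s + 1) → Fin E) j : ℕ),
    homogeneousComponent e0 (φ v), e0, hr, fun i => hxxh _, ?_, he0,
    homogeneousComponent_isHomogeneous _ _, ?_⟩
  · intro c hc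
    have h1 := hS' (fun β => if h : β ∈ S then c (eqv ⟨β, h⟩) else 0) (by
      have h2 : ∑ β ∈ S, φ (if h : β ∈ S then c (eqv ⟨β, h⟩) else 0) * xx β =
          ∑ i, φ (c i) * xx (eqv.symm i) := by
        rw [← hsum (fun β => φ (if h : β ∈ S then c (eqv ⟨β, h⟩) else 0) * xx β)]
        refine Finset.sum_congr rfl fun i _ => ?_
        rw [dif_pos (eqv.symm i).2]
        simp
      rw [h2]
      exact hc)
    funext i
    have h2 := h1 (eqv.symm i) (eqv.symm i).2
    rw [dif_pos (eqv.symm i).2] at h2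
    simpa using h2
  · intro a
    obtain ⟨y, hy, hyQ⟩ := hfin a
    obtain ⟨c, hc⟩ := hTex _ hy
    refine ⟨fun i => c (eqv.symm i), ?_⟩
    have h2 : ∑ i, φ (c (eqv.symm i)) * xx (eqv.symm i) = y := by
      rw [hc, ← hsum (fun β => φ (c β) * xx β)]
    rw [h2]
    exact hyQ

/-- Bound for the rank over the ring generated by a linear form and `N` forms of degree `δ`. -/
theorem rank_leQ (Q : Ideal (MvPolynomial (Fin (s + 1)) K)) (ρ C0 : ℕ)
    (hhilb : ∀ m, dimQ Q m ≤ ρ * (m + C0 + N).choose N)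
    (δ : ℕ) (hδ : 1 ≤ δ) (G : Fin N → MvPolynomial (Fin (s + 1)) K)
    (hG : ∀ i, (G i).IsHomogeneous δ) (l : MvPolynomial (Fin (s + 1)) K) (hl : l.IsHomogeneous 1)
    (r : ℕ) (b : Fin r → MvPolynomial (Fin (s + 1)) K) (g : Fin r → ℕ)
    (hb : ∀ i, (b i).IsHomogeneous (g i))
    (hind : ∀ c : Fin r → MvPolynomial (Fin (N + 1)) K,
      ∑ i, aeval (Fin.cons l G : Fin (N + 1) → MvPolynomial (Fin (s + 1)) K) (c i) * b i ∈ Q →
        c = 0) : r ≤ ρ * δ ^ N := by
  set φ : MvPolynomial (Fin (N + 1)) K →ₐ[K] MvPolynomial (Fin (s + 1)) K :=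
    aeval (Fin.cons l G : Fin (N + 1) → MvPolynomial (Fin (s + 1)) K) with hφ
  set σ : MvPolynomial (Fin (N + 1)) K →ₐ[K] MvPolynomial (Fin (N + 1)) K :=
    aeval (Fin.cons (X 0 ^ δ) (fun i : Fin N => X i.succ) :
      Fin (N + 1) → MvPolynomial (Fin (N + 1)) K) with hσ
  have hσi : Function.Injective σ := qrank_subst_injective δ hδ
  have hφσ : ∀ c, φ (σ c) = aeval (Fin.cons (l ^ δ) G :
      Fin (N + 1) → MvPolynomial (Fin (s + 1)) K) c := by
    intro c
    have : φ.comp σ = aeval (Fin.cons (l ^ δ) G :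
        Fin (N + 1) → MvPolynomial (Fin (s + 1)) K) := by
      refine MvPolynomial.algHom_ext fun i => ?_
      refine Fin.cases ?_ (fun j => ?_) i
      · simp [hφ, hσ]
      · simp [hφ, hσ]
    exact DFunLike.congr_fun this c
  have hφσh : ∀ (t : ℕ) (c : MvPolynomial (Fin (N + 1)) K), c.IsHomogeneous t →
      (φ (σ c)).IsHomogeneous (δ * t) := by
    intro t c hc
    rw [hφσ]
    refine hc.aeval _ fun i => ?_
    refine Fin.cases ?_ (fun j => ?_) i
    · rw [Fin.cons_zero]
      have := hl.pow δ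
      rwa [one_mul] at this
    · rw [Fin.cons_succ]
      exact hG j
  set M : ℕ := Finset.univ.sup g with hM
  have hgM : ∀ i, g i ≤ M := fun i => Finset.le_sup (Finset.mem_univ i)
  refine qrank_pow_le δ (M + C0) r N ρ fun t => ?_
  have := finite_homog (K := K) (N + 1) t
  have := finite_part Q ⊤ (δ * t + M)
  let L : (Fin r → homogeneousSubmodule (Fin (N + 1)) K t) →ₗ[K] part Q ⊤ (δ * t + M) :=
    { toFun := fun c => ⟨Ideal.Quotient.mkₐ K Q (∑ i, φ (σ (c i)) * l ^ (M - g i) * b i), by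
        refine Submodule.mem_map_of_mem (Submodule.mem_inf.2 ⟨trivial, ?_⟩)
        refine Submodule.sum_mem _ fun i _ => ?_
        rw [mem_homogeneousSubmodule]
        have h1 := ((hφσh t _ ((mem_homogeneousSubmodule _ _).1 (c i).2)).mul
          (hl.pow (M - g i))).mul (hb i)
        have h2 : δ * t + 1 * (M - g i) + g i = δ * t + M := by
          have := hgM i
          omega
        rwa [h2] at h1⟩
      map_add' := fun c c' => by
        apply Subtype.ext
        simp only [Pi.add_apply, Submodule.coe_add, map_add, add_mul, Finset.sum_add_distrib]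
      map_smul' := fun a c => by
        apply Subtype.ext
        simp only [Pi.smul_apply, Submodule.coe_smul, map_smul, smul_mul_assoc, RingHom.id_apply,
          ← Finset.smul_sum] }
  have hL : Function.Injective L := by
    rw [← LinearMap.ker_eq_bot, LinearMap.ker_eq_bot']
    intro c hc
    have h1 : Ideal.Quotient.mk Q (∑ i, φ (σ (c i)) * l ^ (M - g i) * b i) = 0 :=
      congrArg Subtype.val hc
    rw [Ideal.Quotient.eq_zero_iff_mem] at h1
    have h2 := hind (fun i => σ (c i) * X 0 ^ (M - g i)) (by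
      have h3 : ∑ i, φ (σ (c i) * X 0 ^ (M - g i)) * b i =
          ∑ i, φ (σ (c i)) * l ^ (M - g i) * b i := by
        refine Finset.sum_congr rfl fun i _ => ?_
        rw [map_mul, map_pow]
        congr 2
        rw [hφ, aeval_X, Fin.cons_zero]
      rw [h3]
      exact h1)
    funext i
    have h3 : σ (c i) * X 0 ^ (M - g i) = 0 := congrFun h2 i
    rcases mul_eq_zero.1 h3 with h4 | h4
    · apply Subtype.ext
      exact hσi (by rw [h4]; simp)
    · exact absurd h4 (pow_ne_zero _ (X_ne_zero _))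
  have h1 := LinearMap.finrank_le_finrank_of_injective hL
  rw [Module.finrank_pi_fintype, finrank_homog] at h1
  have h2 : r * (t + N).choose N ≤ dimQ Q (δ * t + M) := by simpa [dimQ] using h1
  refine h2.trans ((hhilb _).trans (le_of_eq ?_))
  congr 2
  ring

end Pool.Agent.Lib.MP_9ec2c5_av
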