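import Mathlib
import Pool.Agent.Lib.MP_9ec2c5_av.Defs
import Pool.Agent.Lib.MP_9ec2c5_av.QNoether
import Pool.Agent.Lib.MP_9ec2c5_av.QRank

/-!
Powers of ideals generated by forms with finitely many common zeros on a variety.
-/

set_option autoImplicit false

namespace Pool.Agent.Lib.MP_9ec2c5_av

open MvPolynomial
open Pool.Agent.Lib.MP_9ec2c5_gen (iter)
open Pool.Agent.Lib.MP_9ec2c5_bp

variable {K : Type} [Field K] {Ω : Type} [Field Ω] [Algebra K Ω] {s N : ℕ}

/-- The space spanned by the products with few factors `G j`. -/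
theorem QCount_space {R : Type} [CommRing R] [Algebra K R] (δ : ℕ) (G : Fin N → R)
    (l : R) {r : ℕ} (b : Fin r → R)
    (g : Fin r → ℕ) (k m : ℕ) :
    ∃ S : Submodule K R, Module.Finite K S ∧
      Module.finrank K S ≤ r * (k + N - 1).choose N ∧
      ∀ (i : Fin r) (s : Fin (N + 1) →₀ ℕ), s 0 + δ * (∑ j : Fin N, s j.succ) + g i = m →
        ∑ j : Fin N, s j.succ < k →
          (l ^ s 0 * ∏ j : Fin N, G j ^ s j.succ) * b i ∈ S := by
  classical
  rcases Nat.eq_zero_or_pos k with hk | hk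
  · subst hk
    exact ⟨⊥, inferInstance, by simp, fun i s _ h => absurd h (Nat.not_lt_zero _)⟩
  have hfin : Module.Finite K (homogeneousSubmodule (Fin (N + 1)) K (k - 1)) :=
    finite_homog (N + 1) (k - 1)
  let w : Fin r → (Fin (N + 1) →₀ ℕ) → R := fun i s =>
    (l ^ (m - g i - δ * (k - 1 - s 0)) * ∏ j : Fin N, G j ^ s j.succ) * b i
  let ψ : Fin r → MvPolynomial (Fin (N + 1)) K →ₗ[K] R := fun i =>
    (basisMonomials (Fin (N + 1)) K).constr K (w i)
  have hψ : ∀ i s, ψ i (monomial s 1) = w i s := by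
    intro i s
    have h := (basisMonomials (Fin (N + 1)) K).constr_basis K (w i) s
    rwa [coe_basisMonomials] at h
  let Ψ : (Fin r → homogeneousSubmodule (Fin (N + 1)) K (k - 1)) →ₗ[K] R :=
    ∑ i, (ψ i).comp ((homogeneousSubmodule (Fin (N + 1)) K (k - 1)).subtype.comp
      (LinearMap.proj i))
  have hΨ : ∀ q, Ψ q = ∑ i, ψ i (q i) := by
    intro q
    simp only [Ψ, LinearMap.sum_apply]
    rfl
  refine ⟨LinearMap.range Ψ, inferInstance, ?_, ?_⟩
  · refine (LinearMap.finrank_range_le Ψ).trans (le_of_eq ?_)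
    rw [Module.finrank_pi_fintype, Finset.sum_const, Finset.card_univ, Fintype.card_fin,
      finrank_homog, smul_eq_mul]
    congr 2
    omega
  · intro i s hs hlt
    set t : Fin (N + 1) →₀ ℕ := Finsupp.cons (k - 1 - ∑ j : Fin N, s j.succ)
      (Finsupp.tail s) with ht
    have ht0 : t 0 = k - 1 - ∑ j : Fin N, s j.succ := Finsupp.cons_zero _ _
    have hts : ∀ j : Fin N, t j.succ = s j.succ := by
      intro j
      rw [ht, Finsupp.cons_succ, Finsupp.tail_apply]
    have htd : t.degree = k - 1 := by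
      rw [Finsupp.degree_eq_sum, Fin.sum_univ_succ, ht0, Finset.sum_congr rfl fun j _ => hts j]
      omega
    refine ⟨Pi.single i ⟨monomial t 1, ?_⟩, ?_⟩
    · rw [mem_homogeneousSubmodule]
      exact isHomogeneous_monomial _ htd
    · rw [hΨ, Finset.sum_eq_single i]
      · rw [Pi.single_eq_same, hψ]
        change (l ^ (m - g i - δ * (k - 1 - t 0)) * ∏ j : Fin N, G j ^ t j.succ) * b i = _
        have h1 : m - g i - δ * (k - 1 - t 0) = s 0 := by
          have h2 : k - 1 - t 0 = ∑ j : Fin N, s j.succ := by omega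
          rw [h2]
          omega
        rw [h1, Finset.prod_congr rfl fun j _ => by rw [hts j]]
      · intro j _ hj
        rw [Pi.single_eq_of_ne hj, Submodule.coe_zero, map_zero]
      · intro h
        exact absurd (Finset.mem_univ i) h

theorem QCount_prod_mem (G : Fin N → MvPolynomial (Fin (s + 1)) K) (t : Fin N → ℕ) {k : ℕ}
    (hk : k ≤ ∑ j, t j) : ∏ j, G j ^ t j ∈ Ideal.span (Set.range G) ^ k := by
  refine Ideal.pow_le_pow_right hk ?_
  rw [← Finset.prod_pow_eq_pow_sum]
  exact Ideal.prod_mem_prod fun j _ =>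
    Ideal.pow_mem_pow (Ideal.subset_span (Set.mem_range_self j)) _

theorem QCount_prod_hom (δ : ℕ) (G : Fin N → MvPolynomial (Fin (s + 1)) K)
    (hG : ∀ i, (G i).IsHomogeneous δ) (t : Fin N → ℕ) :
    (∏ j, G j ^ t j).IsHomogeneous (δ * ∑ j, t j) := by
  rw [Finset.mul_sum]
  exact IsHomogeneous.prod _ _ _ fun j _ => (hG j).pow (t j)

theorem codimQ [IsAlgClosed Ω] [Infinite K] (Q : Ideal (MvPolynomial (Fin (s + 1)) K))
    (hQ : Q.IsPrime) (hQh : IsHom Q)
    (hN : Algebra.trdeg K (MvPolynomial (Fin (s + 1)) K ⧸ Q) = ((N + 1 : ℕ) : Cardinal))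
    (hN1 : 1 ≤ N) (ρ C0 : ℕ)
    (hhilb : ∀ m, dimQ Q m ≤ ρ * (m + C0 + N).choose N ∧ ρ * (m + N).choose N ≤ dimQ Q (m + C0))
    (δ : ℕ) (hδ : 1 ≤ δ) (n : ℕ) (h : Fin n → MvPolynomial (Fin (s + 1)) K)
    (hh : ∀ i, (h i).IsHomogeneous δ) (hfin : FinLines (Zer Ω h ∩ Cone Ω Q)) :
    ∃ e0 : ℕ, ∀ k m, e0 ≤ m →
      ρ * (m - e0 + N).choose N ≤
        Module.finrank K (part Q (Ideal.span (Set.range h) ^ k) m) +
          ρ * δ ^ N * (k + N - 1).choose N := by
  classical
  obtain ⟨G, l, hGs, hl, hX⟩ := exists_noetherQ Q hQ hQh hN δ hδ n h hh hfin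
  have hG : ∀ i, (G i).IsHomogeneous δ := by
    intro i
    have h1 : Submodule.span K (Set.range h) ≤ homogeneousSubmodule (Fin (s + 1)) K δ := by
      rw [Submodule.span_le]
      rintro _ ⟨j, rfl⟩
      exact hh j
    exact h1 (hGs i)
  obtain ⟨r, b, g, p, e0, -, hb, hind, hp0, hp, hgen⟩ := denomQ Q hQ hQh hN δ hδ G hG l hl hX
  have hr := rank_leQ Q ρ C0 (fun m => (hhilb m).1) δ hδ G hG l hl r b g hb hind
  have hle : Ideal.span (Set.range G) ≤ Ideal.span (Set.range h) := by
    rw [Ideal.span_le]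
    rintro _ ⟨i, rfl⟩
    have h2 : Submodule.span K (Set.range h) ≤
        (Ideal.span (Set.range h)).restrictScalars K := by
      rw [Submodule.span_le]
      exact Ideal.subset_span
    exact h2 (hGs i)
  refine ⟨e0 + C0, fun k m hm => ?_⟩
  obtain ⟨S, hSfin, hSr, hS⟩ := QCount_space (K := K) δ G l b g k m
  set π : MvPolynomial (Fin (s + 1)) K →ₗ[K] MvPolynomial (Fin (s + 1)) K ⧸ Q :=
    (Ideal.Quotient.mkₐ K Q).toLinearMap with hπ
  have hπQ : ∀ x ∈ Q, π x = 0 := fun x hx => Ideal.Quotient.eq_zero_iff_mem.mpr hx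
  set Pk := part Q (Ideal.span (Set.range h) ^ k) m with hPk
  have hPfin : Module.Finite K Pk := finite_part Q _ m
  -- the main inclusion
  have key : ∀ a ∈ homogeneousSubmodule (Fin (s + 1)) K (m - e0),
      π (p * a) ∈ Pk ⊔ S.map π := by
    intro a ha
    have hpa : (p * a).IsHomogeneous m := by
      have h := hp.mul ((mem_homogeneousSubmodule _ _).1 ha)
      rwa [Nat.add_sub_cancel' (by omega : e0 ≤ m)] at h
    obtain ⟨c, hc⟩ := hgen a
    have h0 := hπQ _ (hQh _ hc m)
    rw [map_sub, map_sub, homogeneousComponent_of_mem hpa, if_pos rfl, sub_eq_zero] at h0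
    rw [h0, map_sum, map_sum]
    refine Submodule.sum_mem _ fun i _ => ?_
    rw [(c i).as_sum, map_sum, Finset.sum_mul, map_sum, map_sum]
    refine Submodule.sum_mem _ fun t _ => ?_
    have h2 : aeval (Fin.cons l G : Fin (N + 1) → MvPolynomial (Fin (s + 1)) K)
        (monomial t (coeff t (c i))) * b i =
        coeff t (c i) • ((l ^ t 0 * ∏ j : Fin N, G j ^ t j.succ) * b i) := by
      rw [aeval_monomial, Finsupp.prod_fintype _ _ (fun _ => pow_zero _), Fin.prod_univ_succ,
        Fin.cons_zero, Algebra.smul_def, mul_assoc]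
      simp only [Fin.cons_succ]
    rw [h2, map_smul, map_smul]
    refine Submodule.smul_mem _ _ ?_
    have h3 : ((l ^ t 0 * ∏ j : Fin N, G j ^ t j.succ) * b i).IsHomogeneous
        (t 0 + δ * (∑ j : Fin N, t j.succ) + g i) := by
      have h4 := hl.pow (t 0)
      rw [one_mul] at h4
      exact (h4.mul (QCount_prod_hom δ G hG fun j => t j.succ)).mul (hb i)
    rw [homogeneousComponent_of_mem h3]
    by_cases hD : m = t 0 + δ * (∑ j : Fin N, t j.succ) + g i
    · rw [if_pos hD]
      by_cases hlt : ∑ j : Fin N, t j.succ < k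
      · exact Submodule.mem_sup_right (Submodule.mem_map_of_mem (hS i t hD.symm hlt))
      · refine Submodule.mem_sup_left (Submodule.mem_map_of_mem ⟨?_, ?_⟩)
        · change _ ∈ Ideal.span (Set.range h) ^ k
          refine Ideal.mul_mem_right _ _ (Ideal.mul_mem_left _ _ ?_)
          exact Ideal.pow_right_mono hle k
            (QCount_prod_mem G (fun j => t j.succ) (not_lt.1 hlt))
        · rw [← hD] at h3
          exact h3
    · rw [if_neg hD, map_zero]
      exact Submodule.zero_mem _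
  have hdom : IsDomain (MvPolynomial (Fin (s + 1)) K ⧸ Q) := Ideal.Quotient.isDomain Q
  have hπp : π p ≠ 0 := fun h => hp0 (Ideal.Quotient.eq_zero_iff_mem.mp h)
  have hinj : Function.Injective (LinearMap.mulLeft K (π p)) := by
    intro x y hxy
    exact mul_left_cancel₀ hπp hxy
  have h5 : Module.finrank K ((part Q ⊤ (m - e0)).map (LinearMap.mulLeft K (π p)))
      = dimQ Q (m - e0) :=
    ((part Q ⊤ (m - e0)).equivMapOfInjective _ hinj).finrank_eq.symm
  have h6 : (part Q ⊤ (m - e0)).map (LinearMap.mulLeft K (π p)) ≤ Pk ⊔ S.map π := by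
    rintro _ ⟨_, ⟨a, ha, rfl⟩, rfl⟩
    exact key a ha.2
  have hSm : Module.Finite K (S.map π) := inferInstance
  have h7 := Submodule.finrank_mono h6
  have h8 := Submodule.finrank_add_le_finrank_add_finrank Pk (S.map π)
  have h9 : Module.finrank K (S.map π) ≤ Module.finrank K S := Submodule.finrank_map_le π S
  rw [h5] at h7
  have h10 := (hhilb (m - (e0 + C0))).2
  have h11 : m - (e0 + C0) + C0 = m - e0 := by omega
  rw [h11] at h10
  calc ρ * (m - (e0 + C0) + N).choose N ≤ dimQ Q (m - e0) := h10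
    _ ≤ Module.finrank K Pk + Module.finrank K (S.map π) := h7.trans h8
    _ ≤ Module.finrank K Pk + r * (k + N - 1).choose N :=
        Nat.add_le_add_left (h9.trans hSr) _
    _ ≤ Module.finrank K Pk + ρ * δ ^ N * (k + N - 1).choose N :=
        Nat.add_le_add_left (Nat.mul_le_mul_right _ hr) _

end Pool.Agent.Lib.MP_9ec2c5_av
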