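import Mathlib
import Pool.Agent.Lib.MP_9ec2c5_av.Defs
import Pool.Agent.Lib.MP_9ec2c5_av.QNoether
import Pool.Agent.Lib.MP_9ec2c5_av.QRank

/-!
The Hilbert function of a projective variety.
-/

set_option autoImplicit false

namespace Pool.Agent.Lib.MP_9ec2c5_av

open MvPolynomial
open Pool.Agent.Lib.MP_9ec2c5_gen (iter)
open Pool.Agent.Lib.MP_9ec2c5_bp

variable {K : Type} [Field K] {s N : ℕ}

namespace QHilbAux

theorem phi_hom {l : MvPolynomial (Fin (s + 1)) K} {G : Fin N → MvPolynomial (Fin (s + 1)) K}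
    (hG : ∀ i, (G i).IsHomogeneous 1) (hl : l.IsHomogeneous 1)
    {c : MvPolynomial (Fin (N + 1)) K} {t : ℕ} (hc : c.IsHomogeneous t) :
    (aeval (Fin.cons l G : Fin (N + 1) → MvPolynomial (Fin (s + 1)) K) c).IsHomogeneous t := by
  have h := hc.aeval (Fin.cons l G : Fin (N + 1) → MvPolynomial (Fin (s + 1)) K) (n := 1)
    (by
      intro i
      refine Fin.cases ?_ (fun j => ?_) i
      · rw [Fin.cons_zero]
        exact hl
      · rw [Fin.cons_succ]
        exact hG j)
  rwa [one_mul] at h

/-- The component of a product. -/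
theorem comp_phi {l : MvPolynomial (Fin (s + 1)) K} {G : Fin N → MvPolynomial (Fin (s + 1)) K}
    (hG : ∀ i, (G i).IsHomogeneous 1) (hl : l.IsHomogeneous 1)
    {b : MvPolynomial (Fin (s + 1)) K} {g : ℕ} (hb : b.IsHomogeneous g)
    (c : MvPolynomial (Fin (N + 1)) K) (M : ℕ) :
    ∃ c' : homogeneousSubmodule (Fin (N + 1)) K (M - g),
      homogeneousComponent M
        (aeval (Fin.cons l G : Fin (N + 1) → MvPolynomial (Fin (s + 1)) K) c * b) =
      aeval (Fin.cons l G : Fin (N + 1) → MvPolynomial (Fin (s + 1)) K)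
        (c' : MvPolynomial (Fin (N + 1)) K) * b := by
  have h1 : ∀ j, homogeneousComponent M
      (aeval (Fin.cons l G : Fin (N + 1) → MvPolynomial (Fin (s + 1)) K)
        (homogeneousComponent j c) * b) =
      if j + g = M then aeval (Fin.cons l G : Fin (N + 1) → MvPolynomial (Fin (s + 1)) K)
        (homogeneousComponent j c) * b else 0 := by
    intro j
    have h2 := (phi_hom hG hl (homogeneousComponent_isHomogeneous j c)).mul hb
    rw [homogeneousComponent_of_mem ((mem_homogeneousSubmodule _ _).2 h2)]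
    by_cases hj : j + g = M
    · rw [if_pos hj, if_pos hj.symm]
    · rw [if_neg hj, if_neg (fun h => hj h.symm)]
  have h3 : homogeneousComponent M
      (aeval (Fin.cons l G : Fin (N + 1) → MvPolynomial (Fin (s + 1)) K) c * b) =
      ∑ j ∈ Finset.range (c.totalDegree + 1), if j + g = M then
        aeval (Fin.cons l G : Fin (N + 1) → MvPolynomial (Fin (s + 1)) K)
          (homogeneousComponent j c) * b else 0 := by
    conv_lhs => rw [← sum_homogeneousComponent c, map_sum, Finset.sum_mul, map_sum]
    exact Finset.sum_congr rfl (fun j _ => h1 j)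
  by_cases hg : g ≤ M
  · refine ⟨⟨homogeneousComponent (M - g) c, (mem_homogeneousSubmodule _ _).2
      (homogeneousComponent_isHomogeneous _ c)⟩, ?_⟩
    rw [h3]
    have h4 : ∀ j, (if j + g = M then
        aeval (Fin.cons l G : Fin (N + 1) → MvPolynomial (Fin (s + 1)) K)
          (homogeneousComponent j c) * b else 0) = if M - g = j then
        aeval (Fin.cons l G : Fin (N + 1) → MvPolynomial (Fin (s + 1)) K)
          (homogeneousComponent j c) * b else 0 := by
      intro j
      by_cases hj : j + g = M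
      · rw [if_pos hj, if_pos (by omega)]
      · rw [if_neg hj, if_neg (by omega)]
    simp only [h4]
    rw [Finset.sum_ite_eq]
    split_ifs with h
    · rfl
    · rw [Finset.mem_range] at h
      show _ = aeval (Fin.cons l G : Fin (N + 1) → MvPolynomial (Fin (s + 1)) K)
        (homogeneousComponent (M - g) c) * b
      rw [homogeneousComponent_eq_zero _ _ (by omega), map_zero, zero_mul]
  · refine ⟨0, ?_⟩
    rw [h3, Finset.sum_eq_zero, Submodule.coe_zero, map_zero, zero_mul]
    intro j _
    rw [if_neg (by omega)]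

/-- The combination map. -/
noncomputable def Psi (Q : Ideal (MvPolynomial (Fin (s + 1)) K)) (l : MvPolynomial (Fin (s + 1)) K)
    (G : Fin N → MvPolynomial (Fin (s + 1)) K) {r : ℕ} (b : Fin r → MvPolynomial (Fin (s + 1)) K)
    (t : Fin r → ℕ) : (∀ i, homogeneousSubmodule (Fin (N + 1)) K (t i)) →ₗ[K]
      MvPolynomial (Fin (s + 1)) K ⧸ Q where
  toFun c := Ideal.Quotient.mkₐ K Q (∑ i, aeval (Fin.cons l G :
    Fin (N + 1) → MvPolynomial (Fin (s + 1)) K) (c i : MvPolynomial (Fin (N + 1)) K) * b i)
  map_add' c c' := by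
    rw [← map_add]
    simp only [Pi.add_apply, Submodule.coe_add, map_add, add_mul, Finset.sum_add_distrib]
  map_smul' a c := by
    simp only [Pi.smul_apply, Submodule.coe_smul, map_smul, smul_mul_assoc, RingHom.id_apply]
    rw [← Finset.smul_sum, map_smul]

theorem finrank_pi (r : ℕ) (t : Fin r → ℕ) :
    Module.finrank K (∀ i, homogeneousSubmodule (Fin (N + 1)) K (t i)) =
      ∑ i, (t i + N).choose N := by
  have : ∀ i, Module.Finite K (homogeneousSubmodule (Fin (N + 1)) K (t i)) :=
    fun i => finite_homog (N + 1) (t i)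
  rw [Module.finrank_pi_fintype]
  exact Finset.sum_congr rfl (fun i _ => finrank_homog N (t i))

end QHilbAux

open QHilbAux in
theorem hilbQ [Infinite K] (Q : Ideal (MvPolynomial (Fin (s + 1)) K)) (hQ : Q.IsPrime)
    (hQh : IsHom Q)
    (hN : Algebra.trdeg K (MvPolynomial (Fin (s + 1)) K ⧸ Q) = ((N + 1 : ℕ) : Cardinal)) :
    ∃ ρ C0 : ℕ, 1 ≤ ρ ∧ ∀ m, dimQ Q m ≤ ρ * (m + C0 + N).choose N ∧
      ρ * (m + N).choose N ≤ dimQ Q (m + C0) := by
  obtain ⟨G, l, hG, hl, hX⟩ := exists_noetherQ (Ω := AlgebraicClosure K) Q hQ hQh hN 1 le_rfl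
    (s + 1) X (fun i => isHomogeneous_X K i) (by
      refine ⟨{0}, Set.finite_singleton _, ?_⟩
      rintro x ⟨hx, -⟩
      refine ⟨0, rfl, 1, ?_⟩
      rw [smul_zero]
      funext j
      have := hx j
      rwa [aeval_X] at this)
  have hG1 : ∀ i, (G i).IsHomogeneous 1 := by
    intro i
    have h1 : Submodule.span K (Set.range (X : Fin (s + 1) → MvPolynomial (Fin (s + 1)) K)) ≤
        homogeneousSubmodule (Fin (s + 1)) K 1 := by
      rw [Submodule.span_le]
      rintro _ ⟨j, rfl⟩
      exact (mem_homogeneousSubmodule _ _).2 (isHomogeneous_X K j)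
    exact (mem_homogeneousSubmodule _ _).1 (h1 (hG i))
  obtain ⟨r, b, g, p, e0, hr, hb, hind, hp, hph, hden⟩ :=
    denomQ Q hQ hQh hN 1 le_rfl G hG1 l hl hX
  have hfin : ∀ t : Fin r → ℕ,
      Module.Finite K (∀ i, homogeneousSubmodule (Fin (N + 1)) K (t i)) := by
    intro t
    have : ∀ i, Module.Finite K (homogeneousSubmodule (Fin (N + 1)) K (t i)) :=
      fun i => finite_homog (N + 1) (t i)
    infer_instance
  have hgs : ∀ i, g i ≤ ∑ j, g j := fun i =>
    Finset.single_le_sum (f := g) (fun _ _ => Nat.zero_le _) (Finset.mem_univ i)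
  refine ⟨r, e0 + ∑ i, g i, hr, fun m => ⟨?_, ?_⟩⟩
  · -- upper bound
    set M := m + e0 with hM
    have := hfin (fun i => M - g i)
    have hmem : ∀ x ∈ part Q ⊤ m, LinearMap.mulLeft K (Ideal.Quotient.mk Q p) x ∈
        LinearMap.range (Psi Q l G b (fun i => M - g i)) := by
      rintro _ ⟨a, ⟨-, ha⟩, rfl⟩
      have ha1 : a.IsHomogeneous m := (mem_homogeneousSubmodule _ _).1 ha
      obtain ⟨c, hc⟩ := hden a
      choose c' hc' using fun i => comp_phi hG1 hl (hb i) (c i) M
      refine ⟨c', ?_⟩
      have h1 := hQh _ hc M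
      rw [map_sub, map_sum] at h1
      have h2 : homogeneousComponent M (p * a) = p * a := by
        have h3 := hph.mul ha1
        rw [homogeneousComponent_of_mem ((mem_homogeneousSubmodule _ _).2 h3), if_pos (by omega)]
      rw [h2] at h1
      simp only [hc'] at h1
      have h4 := Ideal.Quotient.eq.2 h1
      show Ideal.Quotient.mk Q _ = Ideal.Quotient.mk Q p * Ideal.Quotient.mk Q a
      rw [← map_mul]
      exact h4.symm
    have hinj : Function.Injective ((LinearMap.mulLeft K (Ideal.Quotient.mk Q p)).restrict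
        hmem) := by
      rintro ⟨x, hx⟩ ⟨y, hy⟩ hxy
      apply Subtype.ext
      have h1 : Ideal.Quotient.mk Q p * x = Ideal.Quotient.mk Q p * y := congrArg Subtype.val hxy
      have h2 : Ideal.Quotient.mk Q p ≠ 0 := fun h => hp (Ideal.Quotient.eq_zero_iff_mem.1 h)
      exact mul_left_cancel₀ h2 h1
    have h1 := LinearMap.finrank_le_finrank_of_injective hinj
    have h2 := LinearMap.finrank_range_le (Psi Q l G b (fun i => M - g i))
    rw [finrank_pi] at h2
    have h3 : ∑ i : Fin r, (M - g i + N).choose N ≤ r * (m + (e0 + ∑ i, g i) + N).choose N := by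
      have h4 : ∀ i ∈ (Finset.univ : Finset (Fin r)), (M - g i + N).choose N ≤
          (m + (e0 + ∑ i, g i) + N).choose N :=
        fun i _ => Nat.choose_le_choose N (by omega)
      have h5 := Finset.sum_le_card_nsmul _ _ _ h4
      rwa [Finset.card_univ, Fintype.card_fin, smul_eq_mul] at h5
    exact h1.trans (h2.trans h3)
  · -- lower bound
    set M := m + (e0 + ∑ i, g i) with hM
    have hmem : ∀ c, Psi Q l G b (fun i => M - g i) c ∈ part Q ⊤ M := by
      intro c
      refine ⟨_, ⟨Submodule.mem_top, ?_⟩, rfl⟩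
      refine Submodule.sum_mem _ fun i _ => ?_
      rw [mem_homogeneousSubmodule]
      have h1 := (phi_hom hG1 hl ((mem_homogeneousSubmodule _ _).1 (c i).2)).mul (hb i)
      have h2 : M - g i + g i = M := by
        have := hgs i
        omega
      rwa [h2] at h1
    have hinj : Function.Injective ((Psi Q l G b (fun i => M - g i)).codRestrict
        (part Q ⊤ M) hmem) := by
      rw [← LinearMap.ker_eq_bot, LinearMap.ker_eq_bot']
      intro c hc
      have h1 : Ideal.Quotient.mk Q (∑ i, aeval (Fin.cons l G :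
        Fin (N + 1) → MvPolynomial (Fin (s + 1)) K) (c i : MvPolynomial (Fin (N + 1)) K) * b i) =
          0 := congrArg Subtype.val hc
      have h2 := hind _ (Ideal.Quotient.eq_zero_iff_mem.1 h1)
      funext i
      apply Subtype.ext
      exact congrFun h2 i
    have := finite_part Q ⊤ M
    have h1 := LinearMap.finrank_le_finrank_of_injective hinj
    rw [finrank_pi] at h1
    refine le_trans ?_ h1
    have h4 : ∀ i ∈ (Finset.univ : Finset (Fin r)), (m + N).choose N ≤
        (M - g i + N).choose N := by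
      intro i _
      refine Nat.choose_le_choose N ?_
      have := hgs i
      omega
    have h5 := Finset.card_nsmul_le_sum _ _ _ h4
    rwa [Finset.card_univ, Fintype.card_fin, smul_eq_mul] at h5

end Pool.Agent.Lib.MP_9ec2c5_av
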