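import Mathlib
import Pool.Agent.Lib.MP_9ec2c5_av.Defs

/-!
A valuation centred at a given prime over the origin of a polynomial ring.
-/

set_option autoImplicit false

namespace Pool.Agent.Lib.MP_9ec2c5_av

open MvPolynomial
open Pool.Agent.Lib.MP_9ec2c5_gen (iter)
open Pool.Agent.Lib.MP_9ec2c5_bp

namespace QValAux

variable {K : Type} [Field K] {N : ℕ}

/-- The ideal of the variables with positive index. -/
noncomputable def yid (K : Type) [Field K] (N : ℕ) : Ideal (MvPolynomial (Fin (N + 1)) K) :=
  Ideal.span (Set.range fun i : Fin N => X i.succ)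

/-- The substitution `X 0 ↦ X 0`, `X i.succ ↦ u * X i.succ`. -/
noncomputable def rho (K : Type) [Field K] (N : ℕ) :
    MvPolynomial (Fin (N + 1)) K →ₐ[K] Polynomial (MvPolynomial (Fin (N + 1)) K) :=
  aeval (Fin.cons (Polynomial.C (X 0)) fun i => Polynomial.C (X i.succ) * Polynomial.X)

/-- The weight. -/
def wt (m : Fin (N + 1) →₀ ℕ) : ℕ := ∑ i : Fin N, m i.succ

theorem rho_monomial (m : Fin (N + 1) →₀ ℕ) (c : K) :
    rho K N (monomial m c) = Polynomial.C (monomial m c) * Polynomial.X ^ wt m := by
  unfold rho wt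
  rw [aeval_monomial, Finsupp.prod_fintype _ _ (fun i => by simp), Fin.prod_univ_succ,
    monomial_eq, Finsupp.prod_fintype _ _ (fun i => by simp), Fin.prod_univ_succ]
  simp only [Fin.cons_zero, Fin.cons_succ, mul_pow, Finset.prod_mul_distrib, map_mul, map_pow,
    map_prod, Finset.prod_pow_eq_pow_sum]
  rw [show (algebraMap K (Polynomial (MvPolynomial (Fin (N + 1)) K))) c =
    Polynomial.C (C c) from rfl]
  ring

theorem mem_yid_pow (m : Fin (N + 1) →₀ ℕ) (c : K) {n : ℕ} (hn : n ≤ wt m) :
    (monomial m c : MvPolynomial (Fin (N + 1)) K) ∈ yid K N ^ n := by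
  rw [monomial_eq, Finsupp.prod_fintype _ _ (fun i => by simp), Fin.prod_univ_succ]
  refine Ideal.mul_mem_left _ _ (Ideal.mul_mem_left _ _ (Ideal.pow_le_pow_right hn ?_))
  unfold wt
  rw [← Finset.prod_pow_eq_pow_sum]
  have h1 : ∀ i : Fin N, (X i.succ : MvPolynomial (Fin (N + 1)) K) ∈ yid K N :=
    fun i => Ideal.subset_span ⟨i, rfl⟩
  exact Ideal.prod_mem_prod fun i _ => Ideal.pow_mem_pow (h1 i) _

theorem mem_of_dvd {h : MvPolynomial (Fin (N + 1)) K} {n : ℕ}
    (hd : (Polynomial.X : Polynomial (MvPolynomial (Fin (N + 1)) K)) ^ n ∣ rho K N h) :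
    h ∈ yid K N ^ n := by
  have hk := Polynomial.X_pow_dvd_iff.mp hd
  have hw : ∀ m ∈ h.support, n ≤ wt m := by
    intro m0 hm0
    by_contra hlt
    have h1 := hk (wt m0) (not_le.mp hlt)
    have h2 : (rho K N h).coeff (wt m0) = ∑ m ∈ h.support,
        if wt m = wt m0 then (monomial m (coeff m h) : MvPolynomial (Fin (N + 1)) K) else 0 := by
      conv_lhs => rw [h.as_sum]
      rw [map_sum, Polynomial.finsetSum_coeff]
      refine Finset.sum_congr rfl fun m _ => ?_
      rw [rho_monomial, Polynomial.coeff_C_mul_X_pow]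
      by_cases hc : wt m = wt m0
      · rw [if_pos hc, if_pos hc.symm]
      · rw [if_neg hc, if_neg (Ne.symm hc)]
    have h3 : coeff m0 ((rho K N h).coeff (wt m0)) = coeff m0 h := by
      rw [h2, coeff_sum, Finset.sum_eq_single m0]
      · rw [if_pos rfl, coeff_monomial, if_pos rfl]
      · intro m _ hm
        split_ifs
        · rw [coeff_monomial, if_neg hm]
        · exact coeff_zero _
      · intro hc
        exact absurd hm0 hc
    rw [h1, coeff_zero] at h3
    exact (mem_support_iff.mp hm0) h3.symm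
  rw [h.as_sum]
  exact Ideal.sum_mem _ fun m hm => mem_yid_pow m _ (hw m hm)

theorem rho_mem_span {h : MvPolynomial (Fin (N + 1)) K} (hh : h ∈ yid K N) :
    rho K N h ∈ Ideal.span {(Polynomial.X : Polynomial (MvPolynomial (Fin (N + 1)) K))} := by
  have h1 : yid K N ≤ (Ideal.span {(Polynomial.X : Polynomial (MvPolynomial (Fin (N + 1)) K))}).comap
      (rho K N) := by
    unfold yid
    rw [Ideal.span_le]
    rintro _ ⟨i, rfl⟩
    rw [SetLike.mem_coe, Ideal.mem_comap, Ideal.mem_span_singleton]
    simp [rho]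
  exact h1 hh

theorem span_isPrime :
    (Ideal.span {(Polynomial.X : Polynomial (MvPolynomial (Fin (N + 1)) K))}).IsPrime :=
  (Ideal.span_singleton_prime Polynomial.X_ne_zero).mpr Polynomial.prime_X

theorem incomp {R S : Type} [CommRing R] [CommRing S] [Algebra R S] [Algebra.IsIntegral R S]
    {Q M : Ideal S} (hQ : Q.IsPrime) (h : Q ≤ M)
    (he : M.comap (algebraMap R S) ≤ Q.comap (algebraMap R S)) : Q = M := by
  by_contra hne
  exact absurd he (not_le_of_gt (Ideal.IsIntegral.comap_lt_comap (lt_of_le_of_ne h hne)))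

theorem core {A : Type} [CommRing A] [IsDomain A]
    [IsNoetherianRing A] (φ : MvPolynomial (Fin (N + 1)) K →+* A)
    (hint : φ.IsIntegral) (J : Ideal A)
    (hJc : J.comap φ = yid K N) {S : Type} [CommRing S] [IsDomain S]
    [Algebra (Polynomial (MvPolynomial (Fin (N + 1)) K)) S]
    [FaithfulSMul (Polynomial (MvPolynomial (Fin (N + 1)) K)) S]
    [Algebra.IsIntegral (Polynomial (MvPolynomial (Fin (N + 1)) K)) S]
    (j : A →+* S) (hj : ∀ h, j (φ h) = algebraMap _ S (rho K N h))
    (M1 : Ideal S) (hM1 : M1.IsPrime)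
    (hu : algebraMap (Polynomial (MvPolynomial (Fin (N + 1)) K)) S Polynomial.X ∈ M1)
    (hM1J : M1.comap j ≤ J) :
    ∃ c : ℕ, 1 ≤ c ∧ ∀ (n : ℕ) (h : MvPolynomial (Fin (N + 1)) K) (g : A), g ∉ J →
      g * φ h ∈ J ^ (c * n) → h ∈ yid K N ^ n := by
  have hXp : (Ideal.span {(Polynomial.X : Polynomial (MvPolynomial (Fin (N + 1)) K))}).IsPrime :=
    span_isPrime
  have hle : Ideal.span {(Polynomial.X : Polynomial (MvPolynomial (Fin (N + 1)) K))} ≤
      M1.under (Polynomial (MvPolynomial (Fin (N + 1)) K)) := by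
    rw [Ideal.span_le, Set.singleton_subset_iff]
    exact hu
  obtain ⟨M, hMM1, hMp, hMo⟩ := Ideal.exists_ideal_le_liesOver_of_le
    (q := M1.under (Polynomial (MvPolynomial (Fin (N + 1)) K))) M1 hle
  have hMc : M.comap (algebraMap (Polynomial (MvPolynomial (Fin (N + 1)) K)) S) =
      Ideal.span {Polynomial.X} := hMo.over.symm
  have huM : algebraMap (Polynomial (MvPolynomial (Fin (N + 1)) K)) S Polynomial.X ∈ M := by
    have : (Polynomial.X : Polynomial (MvPolynomial (Fin (N + 1)) K)) ∈
        M.comap (algebraMap _ S) := by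
      rw [hMc]; exact Ideal.mem_span_singleton_self _
    exact this
  -- `M` contracts to `J`
  have hMJ : M.comap j = J := by
    let _ : Algebra (MvPolynomial (Fin (N + 1)) K) A := φ.toAlgebra
    have : Algebra.IsIntegral (MvPolynomial (Fin (N + 1)) K) A := ⟨hint⟩
    refine incomp (R := MvPolynomial (Fin (N + 1)) K) (hMp.comap j)
      ((Ideal.comap_mono hMM1).trans hM1J) ?_
    change J.comap φ ≤ (M.comap j).comap φ
    rw [hJc]
    intro h hh
    rw [Ideal.mem_comap, Ideal.mem_comap, hj]
    have h1 := rho_mem_span hh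
    rw [← hMc] at h1
    exact h1
  -- the local ring
  let O := Localization.AtPrime M
  let f : A →+* O := (algebraMap S O).comp j
  let I : Ideal O := Ideal.span {algebraMap S O (algebraMap (Polynomial (MvPolynomial
    (Fin (N + 1)) K)) S Polynomial.X)}
  have hcm : (IsLocalRing.maximalIdeal O).comap (algebraMap S O) = M :=
    Localization.AtPrime.under_maximalIdeal
  have hrad : J ≤ (I.comap f).radical := by
    rw [← Ideal.comap_radical, Ideal.radical_eq_sInf]
    intro x hx
    rw [Ideal.mem_comap, Ideal.mem_sInf]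
    rintro Q' ⟨hIQ, hQ'⟩
    have hQM : Q'.comap (algebraMap S O) = M := by
      refine incomp (R := Polynomial (MvPolynomial (Fin (N + 1)) K)) (hQ'.comap _) ?_ ?_
      · have h1 : Q' ≤ IsLocalRing.maximalIdeal O := IsLocalRing.le_maximalIdeal hQ'.ne_top
        exact (Ideal.comap_mono h1).trans_eq hcm
      · rw [hMc, Ideal.span_le, Set.singleton_subset_iff]
        exact hIQ (Ideal.mem_span_singleton_self _)
    have hxM : j x ∈ M := by
      have : x ∈ M.comap j := by rw [hMJ]; exact hx
      exact this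
    rw [← hQM] at hxM
    exact hxM
  obtain ⟨c, hc⟩ := Ideal.exists_pow_le_of_le_radical_of_fg hrad (IsNoetherian.noetherian J)
  refine ⟨c + 1, by omega, ?_⟩
  intro n h g hg hgh
  have h1 : J ^ ((c + 1) * n) ≤ (I ^ n).comap f := by
    rw [pow_mul]
    refine (Ideal.pow_right_mono ((Ideal.pow_le_pow_right (Nat.le_succ c)).trans hc) n).trans ?_
    exact Ideal.le_comap_pow f n
  have h2 : f (g * φ h) ∈ I ^ n := h1 hgh
  have hgu : IsUnit (f g) := by
    refine IsLocalization.map_units (M := M.primeCompl) O ⟨j g, fun hh => hg ?_⟩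
    rw [← hMJ]
    exact hh
  have h3 : algebraMap S O (algebraMap _ S (rho K N h)) ∈ I ^ n := by
    rw [map_mul] at h2
    have h4 := (Ideal.unit_mul_mem_iff_mem _ hgu).mp h2
    rw [← hj]
    exact h4
  rw [Ideal.span_singleton_pow, Ideal.mem_span_singleton, ← map_pow, ← map_pow] at h3
  -- divisibility in the polynomial ring
  refine mem_of_dvd ?_
  by_contra hnd
  have hinj : Function.Injective (algebraMap (Polynomial (MvPolynomial (Fin (N + 1)) K)) S) :=
    FaithfulSMul.algebraMap_injective _ _
  have hinjO : Function.Injective (algebraMap S O) :=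
    IsLocalization.injective O M.primeCompl_le_nonZeroDivisors
  have hne : rho K N h ≠ 0 := fun h0 => hnd (h0 ▸ dvd_zero _)
  obtain ⟨q, hk, hq⟩ := FiniteMultiplicity.exists_eq_pow_mul_and_not_dvd
    (FiniteMultiplicity.of_prime_left Polynomial.prime_X hne)
  set k := multiplicity (Polynomial.X : Polynomial (MvPolynomial (Fin (N + 1)) K)) (rho K N h)
  have hkn : k < n := by
    by_contra hh
    exact hnd ((pow_dvd_pow _ (not_lt.mp hh)).trans ⟨q, hk⟩)
  have e1 : algebraMap S O (algebraMap _ S (rho K N h)) =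
      algebraMap S O (algebraMap (Polynomial (MvPolynomial (Fin (N + 1)) K)) S Polynomial.X) ^ k *
        algebraMap S O (algebraMap _ S q) := by
    conv_lhs => rw [hk]
    simp only [map_mul, map_pow]
  obtain ⟨a, ha⟩ := h3
  rw [e1, map_pow, map_pow, show n = k + (n - k) by omega, pow_add, mul_assoc] at ha
  have hu0 : algebraMap S O (algebraMap (Polynomial (MvPolynomial (Fin (N + 1)) K)) S
      Polynomial.X) ≠ 0 := by
    rw [Ne, map_eq_zero_iff _ hinjO, map_eq_zero_iff _ hinj]
    exact Polynomial.X_ne_zero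
  have h5 := mul_left_cancel₀ (pow_ne_zero k hu0) ha
  have h6 : algebraMap S O (algebraMap _ S q) ∈ IsLocalRing.maximalIdeal O := by
    rw [h5]
    refine Ideal.mul_mem_right _ _ (Ideal.pow_mem_of_mem _ ?_ _ (by omega))
    have h7 : algebraMap (Polynomial (MvPolynomial (Fin (N + 1)) K)) S Polynomial.X ∈
        (IsLocalRing.maximalIdeal O).comap (algebraMap S O) := by
      rw [hcm]
      exact huM
    exact h7
  have h8 : algebraMap (Polynomial (MvPolynomial (Fin (N + 1)) K)) S q ∈ M := by
    have h7 : algebraMap (Polynomial (MvPolynomial (Fin (N + 1)) K)) S q ∈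
        (IsLocalRing.maximalIdeal O).comap (algebraMap S O) := h6
    rwa [hcm] at h7
  have h9 : q ∈ M.comap (algebraMap (Polynomial (MvPolynomial (Fin (N + 1)) K)) S) := h8
  rw [hMc, Ideal.mem_span_singleton] at h9
  exact hq h9

section laurent

variable {A : Type} [CommRing A]

/-- `X 0 ↦ X 0`, `X i.succ ↦ X i.succ * T⁻¹`. -/
noncomputable def iota0 (φ : MvPolynomial (Fin (N + 1)) K →+* A) :
    MvPolynomial (Fin (N + 1)) K →+* LaurentPolynomial A :=
  eval₂Hom (LaurentPolynomial.C.comp (φ.comp C))
    (Fin.cons (LaurentPolynomial.C (φ (X 0)))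
      fun i => LaurentPolynomial.C (φ (X i.succ)) * LaurentPolynomial.T (-1))

/-- The same, and `u ↦ T`. -/
noncomputable def iota (φ : MvPolynomial (Fin (N + 1)) K →+* A) :
    Polynomial (MvPolynomial (Fin (N + 1)) K) →+* LaurentPolynomial A :=
  Polynomial.eval₂RingHom (iota0 φ) (LaurentPolynomial.T 1)

theorem iota_C (φ : MvPolynomial (Fin (N + 1)) K →+* A) (p : MvPolynomial (Fin (N + 1)) K) :
    iota φ (Polynomial.C p) = iota0 φ p := by
  simp [iota]

theorem iota_X (φ : MvPolynomial (Fin (N + 1)) K →+* A) :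
    iota φ Polynomial.X = LaurentPolynomial.T 1 := by
  simp [iota]

theorem iota0_C (φ : MvPolynomial (Fin (N + 1)) K →+* A) (c : K) :
    iota0 φ (C c) = LaurentPolynomial.C (φ (C c)) := by
  simp [iota0]

theorem iota0_X0 (φ : MvPolynomial (Fin (N + 1)) K →+* A) :
    iota0 φ (X 0) = LaurentPolynomial.C (φ (X 0)) := by
  simp [iota0]

theorem iota0_Xs (φ : MvPolynomial (Fin (N + 1)) K →+* A) (i : Fin N) :
    iota0 φ (X i.succ) = LaurentPolynomial.C (φ (X i.succ)) * LaurentPolynomial.T (-1) := by
  simp [iota0]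

theorem rho_C (c : K) : rho K N (C c) = Polynomial.C (C c) := by
  simp only [rho, MvPolynomial.aeval_C]
  rfl

theorem rho_X0 : rho K N (X 0) = Polynomial.C (X 0) := by
  simp [rho]

theorem rho_Xs (i : Fin N) : rho K N (X i.succ) = Polynomial.C (X i.succ) * Polynomial.X := by
  simp [rho]

theorem iota_rho (φ : MvPolynomial (Fin (N + 1)) K →+* A) (h : MvPolynomial (Fin (N + 1)) K) :
    iota φ (rho K N h) = LaurentPolynomial.C (φ h) := by
  have h1 : (iota φ).comp (rho K N).toRingHom = LaurentPolynomial.C.comp φ := by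
    refine MvPolynomial.ringHom_ext (fun c => ?_) fun i => ?_
    · change iota φ (rho K N (C c)) = LaurentPolynomial.C (φ (C c))
      rw [rho_C, iota_C, iota0_C]
    · refine Fin.cases ?_ (fun i => ?_) i
      · change iota φ (rho K N (X 0)) = LaurentPolynomial.C (φ (X 0))
        rw [rho_X0, iota_C, iota0_X0]
      · change iota φ (rho K N (X i.succ)) = LaurentPolynomial.C (φ (X i.succ))
        rw [rho_Xs, map_mul, iota_C, iota0_Xs, iota_X, mul_assoc, ← LaurentPolynomial.T_add]
        simp
  exact RingHom.congr_fun h1 h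

theorem iota_id_injective :
    Function.Injective (iota (RingHom.id (MvPolynomial (Fin (N + 1)) K))) := by
  let E := FractionRing (Polynomial (MvPolynomial (Fin (N + 1)) K))
  have hinj : Function.Injective (algebraMap (Polynomial (MvPolynomial (Fin (N + 1)) K)) E) :=
    IsFractionRing.injective _ _
  have hu : algebraMap (Polynomial (MvPolynomial (Fin (N + 1)) K)) E Polynomial.X ≠ 0 := by
    rw [Ne, map_eq_zero_iff _ hinj]
    exact Polynomial.X_ne_zero
  let ψ : LaurentPolynomial (MvPolynomial (Fin (N + 1)) K) →+* E :=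
    LaurentPolynomial.eval₂ ((algebraMap (Polynomial (MvPolynomial (Fin (N + 1)) K)) E).comp
      (rho K N).toRingHom) (Units.mk0 _ hu)
  have hψC : ∀ p, ψ (LaurentPolynomial.C p) = algebraMap _ E (rho K N p) := fun p =>
    LaurentPolynomial.eval₂_C _ _ p
  have hψT : ψ (LaurentPolynomial.T 1) =
      algebraMap (Polynomial (MvPolynomial (Fin (N + 1)) K)) E Polynomial.X := by
    have := LaurentPolynomial.eval₂_T ((algebraMap (Polynomial (MvPolynomial (Fin (N + 1)) K))
      E).comp (rho K N).toRingHom) (Units.mk0 _ hu) 1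
    refine this.trans ?_
    rw [zpow_one, Units.val_mk0]
  have hψT' : ψ (LaurentPolynomial.T (-1)) =
      (algebraMap (Polynomial (MvPolynomial (Fin (N + 1)) K)) E Polynomial.X)⁻¹ := by
    have := LaurentPolynomial.eval₂_T ((algebraMap (Polynomial (MvPolynomial (Fin (N + 1)) K))
      E).comp (rho K N).toRingHom) (Units.mk0 _ hu) (-1)
    refine this.trans ?_
    rw [zpow_neg_one, Units.val_inv_eq_inv_val, Units.val_mk0]
  have h1 : ψ.comp (iota (RingHom.id _)) =
      algebraMap (Polynomial (MvPolynomial (Fin (N + 1)) K)) E := by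
    refine Polynomial.ringHom_ext' (MvPolynomial.ringHom_ext (fun c => ?_) fun i => ?_) ?_
    · change ψ (iota (RingHom.id (MvPolynomial (Fin (N + 1)) K)) (Polynomial.C (C c))) =
        algebraMap (Polynomial (MvPolynomial (Fin (N + 1)) K)) E (Polynomial.C (C c))
      rw [iota_C, iota0_C, hψC, RingHom.id_apply, rho_C]
    · refine Fin.cases ?_ (fun i => ?_) i
      · change ψ (iota (RingHom.id (MvPolynomial (Fin (N + 1)) K)) (Polynomial.C (X 0))) =
          algebraMap (Polynomial (MvPolynomial (Fin (N + 1)) K)) E (Polynomial.C (X 0))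
        rw [iota_C, iota0_X0, hψC, RingHom.id_apply, rho_X0]
      · change ψ (iota (RingHom.id (MvPolynomial (Fin (N + 1)) K)) (Polynomial.C (X i.succ))) =
          algebraMap (Polynomial (MvPolynomial (Fin (N + 1)) K)) E (Polynomial.C (X i.succ))
        rw [iota_C, iota0_Xs, map_mul, hψC, RingHom.id_apply, rho_Xs, hψT', map_mul, mul_assoc,
          mul_inv_cancel₀ hu, mul_one]
    · change ψ (iota _ Polynomial.X) =
        algebraMap (Polynomial (MvPolynomial (Fin (N + 1)) K)) E Polynomial.X
      rw [iota_X, hψT]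
  have h2 : Function.Injective (ψ ∘ iota (RingHom.id (MvPolynomial (Fin (N + 1)) K))) := by
    rw [← RingHom.coe_comp, h1]
    exact hinj
  exact h2.of_comp

theorem iota_injective (φ : MvPolynomial (Fin (N + 1)) K →+* A) (hφ : Function.Injective φ) :
    Function.Injective (iota φ) := by
  have h1 : iota φ = (AddMonoidAlgebra.mapRingHom ℤ φ).comp
      (iota (RingHom.id (MvPolynomial (Fin (N + 1)) K))) := by
    have hC : ∀ p, AddMonoidAlgebra.mapRingHom ℤ φ (LaurentPolynomial.C p) =
        LaurentPolynomial.C (φ p) := fun p => AddMonoidAlgebra.mapRingHom_single φ 0 p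
    have hT : ∀ n : ℤ, AddMonoidAlgebra.mapRingHom ℤ φ
        (LaurentPolynomial.T n : LaurentPolynomial (MvPolynomial (Fin (N + 1)) K)) =
        LaurentPolynomial.T n := fun n =>
      (AddMonoidAlgebra.mapRingHom_single φ n 1).trans (by rw [map_one]; rfl)
    refine Polynomial.ringHom_ext' (MvPolynomial.ringHom_ext (fun c => ?_) fun i => ?_) ?_
    · change iota φ (Polynomial.C (C c)) =
        AddMonoidAlgebra.mapRingHom ℤ φ (iota _ (Polynomial.C (C c)))
      rw [iota_C, iota0_C, iota_C, iota0_C, hC, RingHom.id_apply]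
    · refine Fin.cases ?_ (fun i => ?_) i
      · change iota φ (Polynomial.C (X 0)) =
          AddMonoidAlgebra.mapRingHom ℤ φ (iota _ (Polynomial.C (X 0)))
        rw [iota_C, iota0_X0, iota_C, iota0_X0, hC, RingHom.id_apply]
      · change iota φ (Polynomial.C (X i.succ)) =
          AddMonoidAlgebra.mapRingHom ℤ φ (iota _ (Polynomial.C (X i.succ)))
        rw [iota_C, iota0_Xs, iota_C, iota0_Xs, map_mul, hC, hT, RingHom.id_apply]
    · change iota φ Polynomial.X = AddMonoidAlgebra.mapRingHom ℤ φ (iota _ Polynomial.X)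
      rw [iota_X, iota_X, hT]
  rw [h1, RingHom.coe_comp]
  refine Function.Injective.comp ?_ iota_id_injective
  intro a b hab
  refine LaurentPolynomial.ext fun n => hφ ?_
  rw [← AddMonoidAlgebra.coeff_mapRingHom, ← AddMonoidAlgebra.coeff_mapRingHom, hab]

/-- The reduction modulo `J` of a Laurent polynomial. -/
noncomputable def red (J : Ideal A) : LaurentPolynomial A →+* LaurentPolynomial (A ⧸ J) :=
  AddMonoidAlgebra.mapRingHom ℤ (Ideal.Quotient.mk J)

theorem red_C (J : Ideal A) (a : A) :
    red J (LaurentPolynomial.C a) = LaurentPolynomial.C (Ideal.Quotient.mk J a) :=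
  AddMonoidAlgebra.mapRingHom_single _ 0 a

theorem red_T (J : Ideal A) (n : ℤ) :
    red J (LaurentPolynomial.T n : LaurentPolynomial A) = LaurentPolynomial.T n :=
  (AddMonoidAlgebra.mapRingHom_single (Ideal.Quotient.mk J) n 1).trans (by rw [map_one]; rfl)

/-- The Laurent polynomials which are polynomials modulo `J`. -/
noncomputable def dd (J : Ideal A) : Subring (LaurentPolynomial A) :=
  (Polynomial.toLaurent (R := A ⧸ J)).range.comap (red J)

theorem iota_mem (φ : MvPolynomial (Fin (N + 1)) K →+* A) (J : Ideal A)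
    (hJ : yid K N ≤ J.comap φ) (r : Polynomial (MvPolynomial (Fin (N + 1)) K)) :
    iota φ r ∈ dd J := by
  have hC : ∀ a : A, LaurentPolynomial.C a ∈ dd J := fun a => by
    refine ⟨Polynomial.C (Ideal.Quotient.mk J a), ?_⟩
    rw [red_C]
    exact Polynomial.toLaurent_C _
  have hT : LaurentPolynomial.T 1 ∈ dd J := by
    refine ⟨Polynomial.X, ?_⟩
    rw [red_T]
    exact Polynomial.toLaurent_X
  have h0 : ∀ p, iota0 φ p ∈ dd J := by
    intro p
    induction p using MvPolynomial.induction_on with
    | C c => rw [iota0_C]; exact hC _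
    | add p q hp hq => rw [map_add]; exact add_mem hp hq
    | mul_X p i hp =>
      rw [map_mul]
      refine mul_mem hp ?_
      refine Fin.cases ?_ (fun i => ?_) i
      · rw [iota0_X0]; exact hC _
      · rw [iota0_Xs]
        refine ⟨0, ?_⟩
        rw [map_zero, map_mul, red_C]
        have h1 : (X i.succ : MvPolynomial (Fin (N + 1)) K) ∈ J.comap φ :=
          hJ (Ideal.subset_span ⟨i, rfl⟩)
        rw [Ideal.Quotient.eq_zero_iff_mem.mpr (show φ (X i.succ) ∈ J from h1), map_zero,
          zero_mul]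
  induction r using Polynomial.induction_on' with
  | add p q hp hq => rw [map_add]; exact add_mem hp hq
  | monomial n a =>
    rw [← Polynomial.C_mul_X_pow_eq_monomial, map_mul, map_pow, iota_C, iota_X]
    exact mul_mem (h0 a) (pow_mem hT n)

theorem exists_kappa {S : Type} [CommRing S] (v : S →+* LaurentPolynomial A) (J : Ideal A)
    (hSD : ∀ s, red J (v s) ∈ (Polynomial.toLaurent (R := A ⧸ J)).range) :
    ∃ κ : S →+* A ⧸ J, ∀ (s : S) (p : Polynomial (A ⧸ J)),
      red J (v s) = Polynomial.toLaurent p → κ s = p.coeff 0 := by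
  let e : Polynomial (A ⧸ J) ≃+* (Polynomial.toLaurent (R := A ⧸ J)).range :=
    RingEquiv.ofBijective (Polynomial.toLaurent (R := A ⧸ J)).rangeRestrict
      ⟨fun a b hab => Polynomial.toLaurent_injective (congrArg Subtype.val hab),
        RingHom.rangeRestrict_surjective _⟩
  refine ⟨(Polynomial.constantCoeff).comp (e.symm.toRingHom.comp
    (((red J).comp v).codRestrict (Polynomial.toLaurent (R := A ⧸ J)).range hSD)), ?_⟩
  intro s p hs
  have h1 : e.symm ⟨red J (v s), hSD s⟩ = p := by
    rw [RingEquiv.symm_apply_eq]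
    exact Subtype.ext hs
  change Polynomial.constantCoeff (e.symm ⟨red J (v s), hSD s⟩) = _
  rw [h1]
  rfl

end laurent

end QValAux

open QValAux in
/-- Let `A` be a noetherian domain which is integral over the polynomial ring in the variables
`X 0` and `X i.succ`, and `J` a prime of `A` over the ideal `(X i.succ)`. If an element `h` of the
polynomial ring is in the `c * n`-th power of `J` locally at `J`, where `c` depends only on `J`,
then `h` is in the `n`-th power of `(X i.succ)`. -/
theorem qval {K : Type} [Field K] {N : ℕ} {A : Type} [CommRing A] [IsDomain A]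
    [IsNoetherianRing A] (φ : MvPolynomial (Fin (N + 1)) K →+* A) (hφ : Function.Injective φ)
    (hint : φ.IsIntegral) (J : Ideal A) (hJ : J.IsPrime)
    (hJc : J.comap φ = Ideal.span (Set.range fun i : Fin N => X i.succ)) :
    ∃ c : ℕ, 1 ≤ c ∧ ∀ (n : ℕ) (h : MvPolynomial (Fin (N + 1)) K) (g : A), g ∉ J →
      g * φ h ∈ J ^ (c * n) → h ∈ Ideal.span (Set.range fun i : Fin N => X i.succ) ^ n := by
  have hJc' : J.comap φ = yid K N := hJc
  let _ : Algebra (Polynomial (MvPolynomial (Fin (N + 1)) K)) (LaurentPolynomial A) :=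
    (iota φ).toAlgebra
  have halg : ∀ r, algebraMap (Polynomial (MvPolynomial (Fin (N + 1)) K)) (LaurentPolynomial A) r =
    iota φ r := fun r => rfl
  let D : Subalgebra (Polynomial (MvPolynomial (Fin (N + 1)) K)) (LaurentPolynomial A) :=
    { dd J with algebraMap_mem' := fun r => iota_mem φ J hJc'.ge r }
  have hD : ∀ x, x ∈ D ↔ x ∈ dd J := fun x => Iff.rfl
  let S : Subalgebra (Polynomial (MvPolynomial (Fin (N + 1)) K)) (LaurentPolynomial A) :=
    integralClosure _ (LaurentPolynomial A) ⊓ D
  have hSD : ∀ s : S, red J s.1 ∈ (Polynomial.toLaurent (R := A ⧸ J)).range := fun s => s.2.2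
  have hinj : Function.Injective (algebraMap (Polynomial (MvPolynomial (Fin (N + 1)) K)) S) := by
    intro a b hab
    exact iota_injective φ hφ (congrArg (fun s : S => s.1) hab)
  have : FaithfulSMul (Polynomial (MvPolynomial (Fin (N + 1)) K)) S :=
    (faithfulSMul_iff_algebraMap_injective _ _).mpr hinj
  have : Algebra.IsIntegral (Polynomial (MvPolynomial (Fin (N + 1)) K)) S := by
    refine ⟨fun s => ?_⟩
    have h1 : IsIntegral (Polynomial (MvPolynomial (Fin (N + 1)) K)) (S.val s) := s.2.1
    exact (isIntegral_algHom_iff S.val Subtype.val_injective).mp h1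
  -- the embedding of `A`
  have hAmem : ∀ a : A, LaurentPolynomial.C a ∈ S := by
    intro a
    refine ⟨?_, ?_⟩
    · obtain ⟨p, hp, hpa⟩ := hint a
      refine ⟨p.map (rho K N).toRingHom, hp.map _, ?_⟩
      rw [Polynomial.eval₂_map]
      have h1 : (algebraMap (Polynomial (MvPolynomial (Fin (N + 1)) K))
          (LaurentPolynomial A)).comp (rho K N).toRingHom = LaurentPolynomial.C.comp φ :=
        RingHom.ext fun h => iota_rho φ h
      rw [h1, ← Polynomial.hom_eval₂, hpa, map_zero]
    · refine ⟨Polynomial.C (Ideal.Quotient.mk J a), ?_⟩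
      rw [red_C]
      exact Polynomial.toLaurent_C _
  let j : A →+* S := LaurentPolynomial.C.codRestrict S hAmem
  have hj : ∀ h, j (φ h) = algebraMap _ S (rho K N h) := fun h =>
    Subtype.ext (iota_rho φ h).symm
  -- the prime ideal
  have hBd : IsDomain (A ⧸ J) := Ideal.Quotient.isDomain J
  obtain ⟨κ, hκ⟩ := exists_kappa (S := S) S.val.toRingHom J hSD
  refine core φ hint J hJc' j hj (RingHom.ker κ) (RingHom.ker_isPrime κ) ?_ ?_
  · rw [RingHom.mem_ker, hκ _ Polynomial.X]
    · simp
    · change red J (iota φ Polynomial.X) = _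
      rw [iota_X, red_T]
      exact Polynomial.toLaurent_X.symm
  · intro a ha
    rw [Ideal.mem_comap, RingHom.mem_ker, hκ _ (Polynomial.C (Ideal.Quotient.mk J a))] at ha
    · rw [Polynomial.coeff_C_zero] at ha
      exact Ideal.Quotient.eq_zero_iff_mem.mp ha
    · change red J (LaurentPolynomial.C a) = _
      rw [red_C]
      exact (Polynomial.toLaurent_C _).symm

end Pool.Agent.Lib.MP_9ec2c5_av
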