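import Mathlib
import Pool.Agent.Lib.MP_9ec2c5_av.Defs
import Pool.Agent.Lib.MP_9ec2c5_av.QNoether
import Pool.Agent.Lib.MP_9ec2c5_av.QGen
import Pool.Agent.Lib.MP_9ec2c5_av.QRank
import Pool.Agent.Lib.MP_9ec2c5_av.QVal
import Pool.Agent.Lib.MP_9ec2c5_bp.ConjL
import Pool.Agent.Lib.MP_9ec2c5_bp.HomDim

/-!
The number of conditions imposed by vanishing to a high order at a point of a variety.
-/

set_option autoImplicit false

namespace Pool.Agent.Lib.MP_9ec2c5_av

open MvPolynomial
open Pool.Agent.Lib.MP_9ec2c5_gen (iter)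
open Pool.Agent.Lib.MP_9ec2c5_bp

variable {K : Type} [Field K] {Ω : Type} [Field Ω] [Algebra K Ω] {s N : ℕ}

theorem mem_Jid_hom (q : Fin (s + 1) → Ω) (f : MvPolynomial (Fin (s + 1)) K) (e : ℕ)
    (hf : f.IsHomogeneous e) : f ∈ Jid K q ↔ aeval q f = 0 := by
  unfold Jid
  rw [RingHom.mem_ker, Pool.Agent.Lib.MP_9ec2c5_gen.NullBase.aeval_line q hf, mul_eq_zero, Polynomial.C_eq_zero,
    or_iff_left (pow_ne_zero _ Polynomial.X_ne_zero)]

theorem mem_Jid_comp (q : Fin (s + 1) → Ω) (f : MvPolynomial (Fin (s + 1)) K) :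
    f ∈ Jid K q ↔ ∀ n, aeval q (homogeneousComponent n f) = 0 := by
  unfold Jid
  rw [RingHom.mem_ker, Polynomial.ext_iff]
  refine forall_congr' fun n => ?_
  rw [Pool.Agent.Lib.MP_9ec2c5_gen.NullBase.coeff_line, Polynomial.coeff_zero]

theorem Jid_isHom (q : Fin (s + 1) → Ω) : IsHom (Jid K q) := by
  intro f hf n
  rw [mem_Jid_hom q _ n (homogeneousComponent_isHomogeneous n f)]
  exact (mem_Jid_comp q f).mp hf n

theorem Jid_prime (q : Fin (s + 1) → Ω) : (Jid K q).IsPrime := RingHom.ker_isPrime _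

theorem le_Jid (Q : Ideal (MvPolynomial (Fin (s + 1)) K)) (hQh : IsHom Q) (q : Fin (s + 1) → Ω)
    (hq : q ∈ Cone Ω Q) : Q ≤ Jid K q := fun f hf =>
  (mem_Jid_comp q f).mpr fun n => hq _ (hQh f hf n)

theorem pow_le_ordIdeal (Q : Ideal (MvPolynomial (Fin (s + 1)) K)) (q : Fin (s + 1) → Ω)
    (M : ℕ) : Jid K q ^ M ≤ ordIdeal Q q M := by
  intro f hf
  refine ⟨1, fun h => (Jid_prime q).ne_top ((Ideal.eq_top_iff_one _).mpr h), ?_⟩
  rw [one_mul]
  exact Ideal.mem_sup_left hf

theorem ordIdeal_anti (Q : Ideal (MvPolynomial (Fin (s + 1)) K)) (q : Fin (s + 1) → Ω)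
    (M M' : ℕ) (h : M ≤ M') : ordIdeal Q q M' ≤ ordIdeal Q q M := by
  rintro f ⟨g, hg, hgf⟩
  exact ⟨g, hg, sup_le_sup_right (Ideal.pow_le_pow_right h) Q hgf⟩

open Pool.Agent.Lib.MP_9ec2c5_bp.ConjLAux in
/-- a point with algebraic coordinates has finitely many conjugates -/
theorem finLines_below [Algebra.IsAlgebraic K Ω] (q : Fin (s + 1) → Ω) (hq : q ≠ 0) :
    FinLines {x : Fin (s + 1) → Ω | Below K q x} := by
  classical
  obtain ⟨k, hk⟩ := Function.ne_iff.1 hq
  simp only [Pi.zero_apply] at hk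
  let P : Fin (s + 1) → Polynomial K := fun l => minpoly K (q l / q k)
  have hint : ∀ l, IsIntegral K (q l / q k) := fun l => Algebra.IsIntegral.isIntegral _
  have hroot : ∀ l, {x : Ω | Polynomial.aeval x (P l) = 0}.Finite := by
    intro l
    have h1 : (P l).map (algebraMap K Ω) ≠ 0 := by
      rw [Ne, Polynomial.map_eq_zero]
      exact minpoly.ne_zero (hint l)
    refine (Finset.finite_toSet ((P l).map (algebraMap K Ω)).roots.toFinset).subset ?_
    intro x hx
    rw [Finset.mem_coe, Multiset.mem_toFinset, Polynomial.mem_roots h1, Polynomial.IsRoot.def,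
      Polynomial.eval_map_algebraMap]
    exact hx
  refine ⟨{x | ∀ l, Polynomial.aeval (x l) (P l) = 0}, Set.Finite.pi' hroot, ?_⟩
  intro x hx
  have key : ∀ l, ∑ j ∈ Finset.range ((P l).natDegree + 1),
      algebraMap K Ω ((P l).coeff j) * (x l) ^ j * (x k) ^ ((P l).natDegree - j) = 0 := by
    intro l
    have h1 := fm_zero (X l) (X k) q (by rwa [aeval_X] : aeval q (X k : MvPolynomial _ K) ≠ 0)
    have h2 := hx _ _ (fm_hom _ (isHomogeneous_X K l) (isHomogeneous_X K k)) h1
    rw [fm_aeval] at h2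
    simp only [aeval_X] at h2
    exact h2
  by_cases hxk : x k = 0
  · have hx0 : x = 0 := by
      funext l
      have h1 := key l
      rw [Finset.sum_eq_single (P l).natDegree] at h1
      · rw [Nat.sub_self, pow_zero, mul_one, (minpoly.monic (hint l)).coeff_natDegree, map_one,
          one_mul] at h1
        exact pow_eq_zero_iff (minpoly.natDegree_pos (hint l)).ne' |>.1 h1
      · intro j hj hj'
        have : (P l).natDegree - j ≠ 0 := by
          have := Finset.mem_range.1 hj
          omega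
        rw [hxk, zero_pow this, mul_zero]
      · intro hn
        exact absurd (Finset.mem_range.2 (Nat.lt_succ_self _)) hn
    exact ⟨fun l => q l / q k, fun l => minpoly.aeval _ _, 0, by rw [hx0, zero_smul]⟩
  · refine ⟨fun l => x l / x k, fun l => ?_, x k, ?_⟩
    · rw [Polynomial.aeval_eq_sum_range]
      have h1 := key l
      have h2 : ∑ j ∈ Finset.range ((P l).natDegree + 1),
          algebraMap K Ω ((P l).coeff j) * (x l) ^ j * (x k) ^ ((P l).natDegree - j) =
          (x k) ^ (P l).natDegree * ∑ j ∈ Finset.range ((P l).natDegree + 1),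
            (P l).coeff j • (x l / x k) ^ j := by
        rw [Finset.mul_sum]
        refine Finset.sum_congr rfl fun j hj => ?_
        have hj' : j ≤ (P l).natDegree := by
          have := Finset.mem_range.1 hj
          omega
        rw [Algebra.smul_def, div_pow]
        have : (x k) ^ (P l).natDegree = (x k) ^ ((P l).natDegree - j) * (x k) ^ j := by
          rw [← pow_add]
          congr 1
          omega
        rw [this]
        field_simp
      rw [h2] at h1
      exact (mul_eq_zero.mp h1).resolve_left (pow_ne_zero _ hxk)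
    · funext l
      rw [Pi.smul_apply, smul_eq_mul]
      field_simp

namespace QTaylorAux

/-- Forms of the same degree with the common zeros being the points below `q`. -/
theorem exists_forms (q : Fin (s + 1) → Ω) :
    ∃ (b n : ℕ) (h : Fin n → MvPolynomial (Fin (s + 1)) K), 1 ≤ b ∧
      (∀ i, (h i).IsHomogeneous b) ∧ (∀ i, h i ∈ Jid K q) ∧
      ∀ x ∈ Zer Ω h, x = 0 ∨ Below K q x := by
  classical
  obtain ⟨F, hF⟩ := IsNoetherian.noetherian (Jid K q)
  let D := F.sup totalDegree
  let h0 : F × Fin (D + 1) × Fin (s + 1) → MvPolynomial (Fin (s + 1)) K := fun a =>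
    homogeneousComponent a.2.1 a.1.1 * X a.2.2 ^ (D + 1 - a.2.1)
  let e := (Fintype.equivFin (F × Fin (D + 1) × Fin (s + 1))).symm
  have hFm : ∀ f ∈ F, f ∈ Jid K q := fun f hf => by
    rw [← hF]
    exact Submodule.subset_span hf
  refine ⟨D + 1, _, fun i => h0 (e i), by omega, fun i => ?_, fun i => ?_, ?_⟩
  · have h1 := (homogeneousComponent_isHomogeneous ((e i).2.1 : ℕ) ((e i).1.1)).mul
      ((isHomogeneous_X K (e i).2.2).pow (D + 1 - (e i).2.1))
    have h2 : ((e i).2.1 : ℕ) + 1 * (D + 1 - (e i).2.1) = D + 1 := by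
      have := (e i).2.1.2
      omega
    rwa [h2] at h1
  · exact Ideal.mul_mem_right _ _ (Jid_isHom q _ (hFm _ (e i).1.2) _)
  · intro x hx
    by_cases hx0 : x = 0
    · exact Or.inl hx0
    refine Or.inr ?_
    obtain ⟨l, hl⟩ := Function.ne_iff.1 hx0
    simp only [Pi.zero_apply] at hl
    have h1 : Jid K q ≤ Jid K x := by
      rw [← hF]
      refine Submodule.span_le.mpr fun f hf => ?_
      rw [SetLike.mem_coe, mem_Jid_comp]
      intro n
      by_cases hn : n < D + 1
      · have h2 := hx (e.symm (⟨f, hf⟩, ⟨n, hn⟩, l))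
        simp only [Equiv.apply_symm_apply, h0, map_mul, map_pow, aeval_X] at h2
        exact (mul_eq_zero.mp h2).resolve_right (pow_ne_zero _ hl)
      · rw [homogeneousComponent_eq_zero, map_zero]
        have h3 : f.totalDegree ≤ D := Finset.le_sup (f := totalDegree) hf
        omega
    intro d f hf hfq
    exact (mem_Jid_hom x f d hf).mp (h1 ((mem_Jid_hom q f d hf).mpr hfq))

section count

open QValAux

theorem coeff_rho (h : MvPolynomial (Fin (N + 1)) K) (m0 : Fin (N + 1) →₀ ℕ) :
    coeff m0 ((rho K N h).coeff (wt m0)) = coeff m0 h := by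
  classical
  have h2 : (rho K N h).coeff (wt m0) = ∑ m ∈ h.support,
      if wt m = wt m0 then (monomial m (coeff m h) : MvPolynomial (Fin (N + 1)) K) else 0 := by
    conv_lhs => rw [h.as_sum]
    rw [map_sum, Polynomial.finsetSum_coeff]
    refine Finset.sum_congr rfl fun m _ => ?_
    rw [rho_monomial, Polynomial.coeff_C_mul_X_pow]
    by_cases hc : wt m = wt m0
    · rw [if_pos hc, if_pos hc.symm]
    · rw [if_neg hc, if_neg (Ne.symm hc)]
  rw [h2, coeff_sum, Finset.sum_eq_single m0]
  · rw [if_pos rfl, coeff_monomial, if_pos rfl]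
  · intro m _ hm
    split_ifs
    · rw [coeff_monomial, if_neg hm]
    · exact coeff_zero _
  · intro hc
    rw [if_pos rfl, coeff_monomial, if_pos rfl]
    exact notMem_support_iff.mp hc

theorem coeff_of_mem_pow {p : MvPolynomial (Fin (N + 1)) K} {n : ℕ} (hp : p ∈ yid K N ^ n)
    {m0 : Fin (N + 1) →₀ ℕ} (hm : wt m0 < n) : coeff m0 p = 0 := by
  have h1 : yid K N ^ n ≤ (Ideal.span {(Polynomial.X : Polynomial (MvPolynomial (Fin (N + 1)) K))
      ^ n}).comap (rho K N) := by
    rw [← Ideal.span_singleton_pow]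
    refine (Ideal.pow_right_mono (fun h hh => ?_) n).trans (Ideal.le_comap_pow _ n)
    exact rho_mem_span hh
  have h2 := h1 hp
  rw [Ideal.mem_comap, Ideal.mem_span_singleton, Polynomial.X_pow_dvd_iff] at h2
  rw [← coeff_rho, h2 _ hm, coeff_zero]

/-- Changing the exponent of `X 0`. -/
noncomputable def dp (b m : ℕ) (d : Fin (N + 1) →₀ ℕ) : Fin (N + 1) →₀ ℕ :=
  Finsupp.cons (m - b * wt d) (Finsupp.tail d)

theorem wt_dp (b m : ℕ) (d : Fin (N + 1) →₀ ℕ) : wt (dp b m d) = wt d := by
  unfold wt dp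
  simp only [Finsupp.cons_succ]
  rfl

theorem dp_zero (b m : ℕ) (d : Fin (N + 1) →₀ ℕ) : dp b m d 0 = m - b * wt d := by
  simp [dp]

theorem dp_succ (b m : ℕ) (d : Fin (N + 1) →₀ ℕ) (i : Fin N) : dp b m d i.succ = d i.succ := by
  unfold dp
  rw [Finsupp.cons_succ]
  rfl

theorem degree_wt (d : Fin (N + 1) →₀ ℕ) : d.degree = d 0 + wt d := by
  rw [Finsupp.degree_eq_sum, Fin.sum_univ_succ]
  rfl

/-- The linear extension of `dp`. -/
noncomputable def tau (K : Type) [Field K] (N b m : ℕ) :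
    MvPolynomial (Fin (N + 1)) K →ₗ[K] MvPolynomial (Fin (N + 1)) K :=
  (basisMonomials (Fin (N + 1)) K).constr K fun d => monomial (dp b m d) 1

theorem tau_monomial (b m : ℕ) (d : Fin (N + 1) →₀ ℕ) (c : K) :
    tau K N b m (monomial d c) = monomial (dp b m d) c := by
  have h1 : (monomial d c : MvPolynomial (Fin (N + 1)) K) = c • basisMonomials (Fin (N + 1)) K d := by
    simp [smul_monomial]
  rw [h1, map_smul, tau, Module.Basis.constr_basis, smul_monomial, smul_eq_mul, mul_one]

theorem coeff_tau (b m k : ℕ) {p : MvPolynomial (Fin (N + 1)) K} (hp : p.IsHomogeneous k)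
    {d : Fin (N + 1) →₀ ℕ} (hd : d.degree = k) : coeff (dp b m d) (tau K N b m p) = coeff d p := by
  classical
  conv_lhs => rw [p.as_sum]
  rw [map_sum, coeff_sum, Finset.sum_eq_single d]
  · rw [tau_monomial, coeff_monomial, if_pos rfl]
  · intro d' hd' hne
    rw [tau_monomial, coeff_monomial, if_neg]
    intro heq
    apply hne
    have hk : d'.degree = k := by
      have := hp (mem_support_iff.mp hd')
      rwa [Finsupp.degree_eq_weight_one]
    have hs : ∀ i : Fin N, d' i.succ = d i.succ := fun i => by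
      rw [← dp_succ b m d' i, heq, dp_succ]
    have hw : wt d' = wt d := Finset.sum_congr rfl fun i _ => hs i
    ext i
    refine Fin.cases ?_ hs i
    have h1 := degree_wt d'
    have h2 := degree_wt d
    omega
  · intro hc
    rw [tau_monomial, coeff_monomial, if_pos rfl]
    exact notMem_support_iff.mp hc

theorem count {A : Type} [CommRing A] [Algebra K A] (φ : MvPolynomial (Fin (N + 1)) K →ₐ[K] A)
    (n m b : ℕ) (hn : 1 ≤ n) (U V : Submodule K A) [Module.Finite K U] (hV : V ≤ U)
    (hU : ∀ d : Fin (N + 1) →₀ ℕ, d.degree = n - 1 → φ (monomial (dp b m d) 1) ∈ U)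
    (hVn : ∀ p : MvPolynomial (Fin (N + 1)) K, φ p ∈ V → p ∈ yid K N ^ n) :
    Module.finrank K V + (n - 1 + N).choose N ≤ Module.finrank K U := by
  let Ψ : homogeneousSubmodule (Fin (N + 1)) K (n - 1) →ₗ[K] A :=
    (φ.toLinearMap ∘ₗ tau K N b m).domRestrict _
  have hΨ : ∀ p, Ψ p = φ (tau K N b m p.1) := fun p => rfl
  have hrange : LinearMap.range Ψ ≤ U := by
    rintro _ ⟨p, rfl⟩
    rw [hΨ]
    have h1 : tau K N b m p.1 = ∑ d ∈ p.1.support, coeff d p.1 • monomial (dp b m d) 1 := by
      conv_lhs => rw [p.1.as_sum]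
      rw [map_sum]
      refine Finset.sum_congr rfl fun d _ => ?_
      rw [tau_monomial, smul_monomial, smul_eq_mul, mul_one]
    rw [h1, map_sum]
    refine Submodule.sum_mem _ fun d hd => ?_
    rw [map_smul]
    refine Submodule.smul_mem _ _ (hU d ?_)
    have h2 : p.1.IsHomogeneous (n - 1) := p.2
    have := h2 (mem_support_iff.mp hd)
    rwa [Finsupp.degree_eq_weight_one]
  have hzero : ∀ p, Ψ p ∈ V → p = 0 := by
    intro p hp
    rw [hΨ] at hp
    have h1 := hVn _ hp
    have h2 : p.1.IsHomogeneous (n - 1) := p.2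
    refine Subtype.ext ?_
    ext d
    rw [ZeroMemClass.coe_zero, coeff_zero]
    by_cases hd : d.degree = n - 1
    · rw [← coeff_tau b m (n - 1) h2 hd]
      refine coeff_of_mem_pow h1 ?_
      rw [wt_dp]
      have := degree_wt d
      omega
    · by_contra hc
      apply hd
      have := h2 hc
      rwa [Finsupp.degree_eq_weight_one]
  have hinj : Function.Injective Ψ := by
    rw [← LinearMap.ker_eq_bot, LinearMap.ker_eq_bot']
    intro p hp
    exact hzero p (by rw [hp]; exact V.zero_mem)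
  have hfr : Module.finrank K (LinearMap.range Ψ) = (n - 1 + N).choose N := by
    rw [LinearMap.finrank_range_of_inj hinj, finrank_homog]
  have hVf : Module.Finite K V := Submodule.finiteDimensional_of_le hV
  have hRf : Module.Finite K (LinearMap.range Ψ) := Submodule.finiteDimensional_of_le hrange
  have h3 := Submodule.finrank_sup_add_finrank_inf_eq V (LinearMap.range Ψ)
  have h4 : V ⊓ LinearMap.range Ψ = ⊥ := by
    rw [eq_bot_iff]
    rintro _ ⟨hx, p, rfl⟩
    rw [hzero p hx, map_zero]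
    exact Submodule.zero_mem _
  rw [h4, finrank_bot, add_zero, hfr] at h3
  rw [← h3]
  exact Submodule.finrank_mono (sup_le hV hrange)

end count

section alg

open QValAux

theorem coeff_line0 (a : Ω) (p : MvPolynomial (Fin (N + 1)) K) (k : ℕ) :
    (aeval (Fin.cons (Polynomial.C a * Polynomial.X) fun _ => 0 :
      Fin (N + 1) → Polynomial Ω) p).coeff k =
      algebraMap K Ω (coeff (Finsupp.single 0 k) p) * a ^ k := by
  classical
  induction p using MvPolynomial.induction_on' with
  | add p q hp hq =>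
    rw [map_add, Polynomial.coeff_add, hp, hq, coeff_add, map_add, add_mul]
  | monomial m c =>
    rw [aeval_monomial, Finsupp.prod_fintype _ _ (fun i => by simp), Fin.prod_univ_succ,
      coeff_monomial]
    simp only [Fin.cons_zero, Fin.cons_succ]
    rw [show (algebraMap K (Polynomial Ω)) c = Polynomial.C (algebraMap K Ω c) from rfl]
    by_cases hw : ∀ i : Fin N, m i.succ = 0
    · have h1 : ∏ i : Fin N, (0 : Polynomial Ω) ^ m i.succ = 1 :=
        Finset.prod_eq_one fun i _ => by rw [hw i, pow_zero]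
      rw [h1, mul_one, mul_pow, ← map_pow, ← mul_assoc, ← map_mul, Polynomial.coeff_C_mul_X_pow]
      by_cases hk : k = m 0
      · have h2 : m = Finsupp.single 0 k := by
          ext i
          refine Fin.cases ?_ (fun i => ?_) i
          · rw [hk, Finsupp.single_eq_same]
          · rw [hw i, Finsupp.single_eq_of_ne (Fin.succ_ne_zero i)]
        rw [if_pos hk, if_pos h2, hk]
      · rw [if_neg hk, if_neg, map_zero, zero_mul]
        intro h2
        apply hk
        rw [h2, Finsupp.single_eq_same]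
    · obtain ⟨i, hi⟩ := not_forall.mp hw
      have h1 : ∏ i : Fin N, (0 : Polynomial Ω) ^ m i.succ = 0 :=
        Finset.prod_eq_zero (Finset.mem_univ i) (zero_pow hi)
      rw [h1, mul_zero, mul_zero, Polynomial.coeff_zero, if_neg, map_zero, zero_mul]
      intro h2
      apply hi
      rw [h2, Finsupp.single_eq_of_ne (Fin.succ_ne_zero i)]

theorem comap_eq (q : Fin (s + 1) → Ω) (G : Fin N → MvPolynomial (Fin (s + 1)) K)
    (hGJ : ∀ i, G i ∈ Jid K q)
    (l : MvPolynomial (Fin (s + 1)) K) (hl : l.IsHomogeneous 1) (hlJ : l ∉ Jid K q)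
    (p : MvPolynomial (Fin (N + 1)) K) :
    aeval (Fin.cons l G : Fin (N + 1) → MvPolynomial (Fin (s + 1)) K) p ∈ Jid K q ↔
      p ∈ yid K N := by
  constructor
  · intro hp
    have ha : aeval q l ≠ 0 := fun h => hlJ ((mem_Jid_hom q l 1 hl).mpr h)
    have h1 : aeval (Fin.cons (Polynomial.C (aeval q l) * Polynomial.X) fun _ => 0 :
        Fin (N + 1) → Polynomial Ω) p = 0 := by
      have h2 : (aeval (fun i => Polynomial.C (q i) * Polynomial.X) :
          MvPolynomial (Fin (s + 1)) K →ₐ[K] Polynomial Ω)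
          (aeval (Fin.cons l G : Fin (N + 1) → MvPolynomial (Fin (s + 1)) K) p) = 0 := hp
      rw [comp_aeval_apply] at h2
      have e1 : (fun j => (aeval (fun i => Polynomial.C (q i) * Polynomial.X) :
          MvPolynomial (Fin (s + 1)) K →ₐ[K] Polynomial Ω)
          ((Fin.cons l G : Fin (N + 1) → MvPolynomial (Fin (s + 1)) K) j)) =
          Fin.cons (Polynomial.C (aeval q l) * Polynomial.X) fun _ => 0 := by
        funext j
        refine Fin.cases ?_ (fun i => ?_) j
        · rw [Fin.cons_zero, Fin.cons_zero,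
            Pool.Agent.Lib.MP_9ec2c5_gen.NullBase.aeval_line q hl, pow_one]
        · rw [Fin.cons_succ, Fin.cons_succ]
          exact hGJ i
      rwa [e1] at h2
    rw [← pow_one (yid K N), p.as_sum]
    refine Ideal.sum_mem _ fun m hm => mem_yid_pow m _ ?_
    by_contra hlt
    have hw : wt m = 0 := by omega
    have hm0 : m = Finsupp.single 0 (m 0) := by
      ext i
      refine Fin.cases (by rw [Finsupp.single_eq_same]) (fun i => ?_) i
      rw [Finsupp.single_eq_of_ne (Fin.succ_ne_zero i)]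
      exact Finset.sum_eq_zero_iff.mp hw i (Finset.mem_univ i)
    have h3 := coeff_line0 (aeval q l) p (m 0)
    rw [h1, Polynomial.coeff_zero, ← hm0] at h3
    rcases mul_eq_zero.mp h3.symm with h4 | h4
    · exact (mem_support_iff.mp hm) ((map_eq_zero _).mp h4)
    · exact pow_ne_zero _ ha h4
  · intro hp
    have h1 : yid K N ≤ (Jid K q).comap
        (aeval (Fin.cons l G : Fin (N + 1) → MvPolynomial (Fin (s + 1)) K)) := by
      unfold yid
      rw [Ideal.span_le]
      rintro _ ⟨i, rfl⟩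
      rw [SetLike.mem_coe, Ideal.mem_comap, aeval_X, Fin.cons_succ]
      exact hGJ i
    exact h1 hp

theorem integral_of_gen {B : Type} [CommRing B] (π : MvPolynomial (Fin (s + 1)) K →+* B)
    (hπ : Function.Surjective π)
    (F : Fin (N + 1) → MvPolynomial (Fin (s + 1)) K)
    (φ : MvPolynomial (Fin (N + 1)) K →+* B)
    (hφ : ∀ p, φ p = π (aeval F p)) {E : ℕ}
    (hE : ∀ a : MvPolynomial (Fin (s + 1)) K,
      ∃ c : (Fin (s + 1) → Fin E) → MvPolynomial (Fin (N + 1)) K,
        π (a - ∑ β, aeval F (c β) * ∏ i, X i ^ (β i : ℕ)) = 0) : φ.IsIntegral := by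
  classical
  let _ : Algebra (MvPolynomial (Fin (N + 1)) K) B := φ.toAlgebra
  have hfin : Module.Finite (MvPolynomial (Fin (N + 1)) K) B := by
    refine ⟨⟨Finset.univ.image fun β : Fin (s + 1) → Fin E =>
      π (∏ i, X i ^ (β i : ℕ)), ?_⟩⟩
    rw [eq_top_iff]
    rintro y -
    obtain ⟨a, rfl⟩ := hπ y
    obtain ⟨c, hc⟩ := hE a
    rw [map_sub, sub_eq_zero] at hc
    rw [hc, map_sum]
    refine Submodule.sum_mem _ fun β _ => ?_
    rw [map_mul, ← hφ]
    exact Submodule.smul_mem _ (c β) (Submodule.subset_span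
      (Finset.mem_coe.mpr (Finset.mem_image_of_mem _ (Finset.mem_univ β))))
  exact fun x => Algebra.IsIntegral.isIntegral (R := MvPolynomial (Fin (N + 1)) K) x

theorem mk_mem_map (Q I : Ideal (MvPolynomial (Fin (s + 1)) K)) (h : Q ≤ I)
    (f : MvPolynomial (Fin (s + 1)) K) :
    Ideal.Quotient.mk Q f ∈ I.map (Ideal.Quotient.mk Q) ↔ f ∈ I := by
  rw [← Ideal.mem_comap, Ideal.comap_map_mk h]

theorem hom_dp (b m : ℕ) (G : Fin N → MvPolynomial (Fin (s + 1)) K)
    (hG : ∀ i, (G i).IsHomogeneous b) (l : MvPolynomial (Fin (s + 1)) K) (hl : l.IsHomogeneous 1)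
    (d : Fin (N + 1) →₀ ℕ) (hd : b * wt d ≤ m) :
    (aeval (Fin.cons l G : Fin (N + 1) → MvPolynomial (Fin (s + 1)) K)
      (monomial (dp b m d) 1 : MvPolynomial (Fin (N + 1)) K)).IsHomogeneous m := by
  rw [aeval_monomial, map_one, one_mul, Finsupp.prod_fintype _ _ (fun i => by simp),
    Fin.prod_univ_succ]
  simp only [Fin.cons_zero, Fin.cons_succ, dp_zero, dp_succ]
  have h1 := (hl.pow (m - b * wt d)).mul
    (IsHomogeneous.prod Finset.univ (fun i => G i ^ d i.succ) (fun i => b * d i.succ)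
      fun i _ => (hG i).pow _)
  have h2 : 1 * (m - b * wt d) + ∑ i : Fin N, b * d i.succ = m := by
    rw [← Finset.mul_sum]
    change 1 * (m - b * wt d) + b * wt d = m
    omega
  rwa [h2] at h1

end alg

end QTaylorAux

open QTaylorAux QValAux in
/-- Vanishing to order `c * n` at a point `q` of a projective variety of dimension `N` imposes at
least `(n + N - 1).choose N` conditions on forms of degree at least `b * n`. -/
theorem taylorQ [IsAlgClosed Ω] [Algebra.IsAlgebraic K Ω] [Infinite K]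
    (Q : Ideal (MvPolynomial (Fin (s + 1)) K)) (hQ : Q.IsPrime) (hQh : IsHom Q)
    (hN : Algebra.trdeg K (MvPolynomial (Fin (s + 1)) K ⧸ Q) = ((N + 1 : ℕ) : Cardinal))
    (hN1 : 1 ≤ N) (q : Fin (s + 1) → Ω) (hq : q ≠ 0) (hqQ : q ∈ Cone Ω Q) :
    ∃ c b : ℕ, 1 ≤ c ∧ 1 ≤ b ∧ ∀ n m, b * n ≤ m →
      Module.finrank K (part Q (ordIdeal Q q (c * n)) m) + (n + N - 1).choose N ≤
        dimQ Q m := by
  obtain ⟨b, nn, h, hb, hh, hhJ, hz⟩ := exists_forms (K := K) q
  have hfin : FinLines (Zer Ω h ∩ Cone Ω Q) := by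
    obtain ⟨S, hS, hSx⟩ := finLines_below (K := K) q hq
    refine ⟨S, hS, fun x hx => ?_⟩
    rcases hz x hx.1 with h0 | h0
    · obtain ⟨t, ht, -⟩ := hSx q (fun e f _ hf => hf)
      exact ⟨t, ht, 0, by rw [h0, zero_smul]⟩
    · exact hSx x h0
  obtain ⟨G, l, hGs, hl, hX⟩ := exists_noetherQ (Ω := Ω) Q hQ hQh hN b hb nn h hh hfin
  have hG : ∀ i, (G i).IsHomogeneous b := fun i => by
    have h1 : Submodule.span K (Set.range h) ≤ homogeneousSubmodule (Fin (s + 1)) K b :=
      Submodule.span_le.mpr (by rintro _ ⟨j, rfl⟩; exact hh j)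
    exact h1 (hGs i)
  have hGJ : ∀ i, G i ∈ Jid K q := fun i => by
    have h1 : Submodule.span K (Set.range h) ≤ (Jid K q).restrictScalars K :=
      Submodule.span_le.mpr (by rintro _ ⟨j, rfl⟩; exact hhJ j)
    exact h1 (hGs i)
  have hJp := Jid_prime (K := K) q
  have hQJ : Q ≤ Jid K q := le_Jid Q hQh q hqQ
  have hlJ : l ∉ Jid K q := by
    intro hlJ
    apply hq
    funext i
    obtain ⟨e, he⟩ := hX i
    have h1 : Ideal.span (Set.range G ∪ {l}) ⊔ Q ≤ Jid K q := by
      refine sup_le (Ideal.span_le.mpr ?_) hQJ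
      rintro _ (⟨j, rfl⟩ | hx)
      · exact hGJ j
      · rw [Set.mem_singleton_iff.mp hx]; exact hlJ
    have h2 := hJp.mem_of_pow_mem _ (h1 he)
    have h3 := (mem_Jid_hom q (X i) 1 (isHomogeneous_X K i)).mp h2
    rwa [aeval_X] at h3
  let F : Fin (N + 1) → MvPolynomial (Fin (s + 1)) K := Fin.cons l G
  let φ : MvPolynomial (Fin (N + 1)) K →ₐ[K] MvPolynomial (Fin (s + 1)) K ⧸ Q :=
    (Ideal.Quotient.mkₐ K Q).comp (aeval F)
  have hφ : ∀ p, φ p = Ideal.Quotient.mk Q (aeval F p) := fun p => rfl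
  have hdom : IsDomain (MvPolynomial (Fin (s + 1)) K ⧸ Q) := Ideal.Quotient.isDomain Q
  have hinj : Function.Injective φ := by
    rw [injective_iff_map_eq_zero]
    intro p hp
    rw [hφ, Ideal.Quotient.eq_zero_iff_mem] at hp
    exact injQ Q hQ hQh hN b hb G hG l hl hX p hp
  obtain ⟨E, hE⟩ := genQ Q hQh b hb G hG l hl hX
  have hint : φ.toRingHom.IsIntegral := by
    refine integral_of_gen (Ideal.Quotient.mk Q) Ideal.Quotient.mk_surjective F φ.toRingHom hφ
      (E := E) fun a => ?_
    obtain ⟨c, hc⟩ := hE a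
    exact ⟨c, Ideal.Quotient.eq_zero_iff_mem.mpr hc⟩
  let J : Ideal (MvPolynomial (Fin (s + 1)) K ⧸ Q) := (Jid K q).map (Ideal.Quotient.mk Q)
  have hJ : J.IsPrime := Ideal.map_isPrime_of_surjective Ideal.Quotient.mk_surjective
    (by rw [Ideal.mk_ker]; exact hQJ)
  have hJc : J.comap φ.toRingHom = yid K N := by
    ext p
    rw [Ideal.mem_comap]
    change Ideal.Quotient.mk Q (aeval F p) ∈ J ↔ _
    rw [mk_mem_map Q _ hQJ]
    exact comap_eq q G hGJ l hl hlJ p
  obtain ⟨c, hc, hcn⟩ := qval φ.toRingHom hinj hint J hJ hJc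
  refine ⟨c, b, hc, hb, fun n m hnm => ?_⟩
  have hfinU : Module.Finite K (part Q ⊤ m) := finite_part Q ⊤ m
  have hmono : part Q (ordIdeal Q q (c * n)) m ≤ part Q ⊤ m :=
    Submodule.map_mono (inf_le_inf_right _ (fun x _ => Submodule.mem_top))
  rcases Nat.eq_zero_or_pos n with hn | hn
  · rw [Nat.choose_eq_zero_of_lt (by omega : n + N - 1 < N), add_zero]
    exact Submodule.finrank_mono hmono
  · rw [show n + N - 1 = n - 1 + N by omega]
    refine count φ n m b hn (part Q ⊤ m) (part Q (ordIdeal Q q (c * n)) m) hmono ?_ ?_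
    · intro d hd
      refine ⟨aeval F (monomial (dp b m d) 1), ⟨Submodule.mem_top, ?_⟩, rfl⟩
      refine hom_dp b m G hG l hl d ?_
      have h1 := degree_wt d
      have h2 : b * wt d ≤ b * n := Nat.mul_le_mul_left b (by omega)
      omega
    · rintro p ⟨f, ⟨hf1, -⟩, hf2⟩
      obtain ⟨g, hg, hgf⟩ := (show f ∈ ordIdeal Q q (c * n) from hf1)
      refine hcn n p (Ideal.Quotient.mk Q g) (fun hh => hg ((mk_mem_map Q _ hQJ g).mp hh)) ?_
      have h1 : Ideal.Quotient.mk Q f = φ p := hf2
      change Ideal.Quotient.mk Q g * φ p ∈ _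
      rw [← h1, ← map_mul]
      have h2 : (Jid K q ^ (c * n) ⊔ Q).map (Ideal.Quotient.mk Q) ≤ J ^ (c * n) := by
        rw [Ideal.map_sup, Ideal.map_quotient_self, sup_bot_eq, Ideal.map_pow]
      exact h2 (Ideal.mem_map_of_mem _ hgf)

end Pool.Agent.Lib.MP_9ec2c5_av
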