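import Mathlib
import Pool.Agent.Lib.MP_9ec2c5_av.Defs
import Pool.Agent.Lib.MP_9ec2c5_bp.Homog
import Pool.Agent.Lib.MP_9ec2c5_bp.Avoid
import Pool.Agent.Lib.MP_9ec2c5_bp.ConjL
import Pool.Agent.Lib.MP_9ec2c5_av.QHilb
import Pool.Agent.Lib.MP_9ec2c5_av.QCount
import Pool.Agent.Lib.MP_9ec2c5_av.QTaylor
import Pool.Agent.Lib.MP_9ec2c5_av.QArith
import Pool.Agent.Lib.MP_9ec2c5_gen.NullBase

/-!
The auxiliary forms.
-/

set_option autoImplicit false

namespace Pool.Agent.Lib.MP_9ec2c5_av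

open MvPolynomial
open Pool.Agent.Lib.MP_9ec2c5_gen (iter)
open Pool.Agent.Lib.MP_9ec2c5_bp

variable {K : Type} [Field K] {Ω : Type} [Field Ω] [Algebra K Ω] {s N : ℕ}

lemma part_mono (Q a b : Ideal (MvPolynomial (Fin (s + 1)) K)) (hab : a ≤ b) (m : ℕ) :
    part Q a m ≤ part Q b m :=
  Submodule.map_mono (inf_le_inf_right _ fun _ h => hab h)

lemma mem_part (Q a : Ideal (MvPolynomial (Fin (s + 1)) K)) (m : ℕ)
    (y : MvPolynomial (Fin (s + 1)) K ⧸ Q) :
    y ∈ part Q a m ↔ ∃ f ∈ a, f.IsHomogeneous m ∧ Ideal.Quotient.mk Q f = y := by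
  rw [part, Submodule.mem_map]
  constructor
  · rintro ⟨f, hf, rfl⟩
    rw [Submodule.mem_inf] at hf
    exact ⟨f, hf.1, (mem_homogeneousSubmodule _ _).1 hf.2, rfl⟩
  · rintro ⟨f, hf, hfm, rfl⟩
    exact ⟨f, Submodule.mem_inf.2 ⟨hf, (mem_homogeneousSubmodule _ _).2 hfm⟩, rfl⟩

/-- Dimension count: a form `R` of degree `D` with `B ^ n * R` in the ideal. -/
lemma qaux_exists (Q : Ideal (MvPolynomial (Fin (s + 1)) K)) (hQ : Q.IsPrime)
    (I U : Ideal (MvPolynomial (Fin (s + 1)) K)) (hIU : I ≤ U)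
    (B : MvPolynomial (Fin (s + 1)) K) (w D m : ℕ) (hB : B.IsHomogeneous w) (hm : w + D = m)
    (hBU : B ∈ U) (hBQ : B ∉ Q)
    (hdim : Module.finrank K (part Q U m) < dimQ Q D + Module.finrank K (part Q I m)) :
    ∃ R : MvPolynomial (Fin (s + 1)) K, R ∉ Q ∧ R.IsHomogeneous D ∧ B * R ∈ I ⊔ Q := by
  classical
  have hfin : ∀ (a : Ideal (MvPolynomial (Fin (s + 1)) K)) (k : ℕ),
      Module.Finite K (part Q a k) := fun a k => finite_part Q a k
  have hdom : IsDomain (MvPolynomial (Fin (s + 1)) K ⧸ Q) := Ideal.Quotient.isDomain Q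
  set β : MvPolynomial (Fin (s + 1)) K ⧸ Q := Ideal.Quotient.mk Q B with hβ
  have hβ0 : β ≠ 0 := fun h => hBQ (Ideal.Quotient.eq_zero_iff_mem.mp h)
  set φ : part Q ⊤ D →ₗ[K] MvPolynomial (Fin (s + 1)) K ⧸ Q :=
    (LinearMap.mulLeft K β).comp (Submodule.subtype _) with hφ
  have hφa : ∀ x, φ x = β * (x : MvPolynomial (Fin (s + 1)) K ⧸ Q) := fun x => rfl
  have hφi : Function.Injective φ := by
    intro x y hxy
    rw [hφa, hφa] at hxy
    exact Subtype.ext (mul_left_cancel₀ hβ0 hxy)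
  set V1 := LinearMap.range φ with hV1
  have hV1U : V1 ≤ part Q U m := by
    rintro _ ⟨x, rfl⟩
    obtain ⟨f, -, hf, hfx⟩ := (mem_part Q ⊤ D _).1 x.2
    rw [hφa, mem_part]
    refine ⟨B * f, Ideal.mul_mem_right _ _ hBU, hm ▸ hB.mul hf, ?_⟩
    rw [map_mul, hfx]
  have hV2U : part Q I m ≤ part Q U m := part_mono Q I U hIU m
  have hfV1 : Module.Finite K V1 := Submodule.finiteDimensional_of_le hV1U
  have h1 : Module.finrank K V1 = dimQ Q D := by
    rw [hV1, LinearMap.finrank_range_of_inj hφi, dimQ]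
  have h3 := Submodule.finrank_sup_add_finrank_inf_eq V1 (part Q I m)
  have h4 : Module.finrank K (V1 ⊔ part Q I m : Submodule K _) ≤
      Module.finrank K (part Q U m) := Submodule.finrank_mono (sup_le hV1U hV2U)
  have h5 : 0 < Module.finrank K (V1 ⊓ part Q I m : Submodule K _) := by
    rw [h1] at h3
    omega
  have h6 : (V1 ⊓ part Q I m : Submodule K _) ≠ ⊥ := by
    intro hcon
    rw [hcon, finrank_bot] at h5
    exact lt_irrefl _ h5
  obtain ⟨y, hy, hy0⟩ := Submodule.exists_mem_ne_zero_of_ne_bot h6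
  rw [Submodule.mem_inf] at hy
  obtain ⟨x, hx⟩ := hy.1
  obtain ⟨R, -, hR, hRx⟩ := (mem_part Q ⊤ D _).1 x.2
  obtain ⟨f, hf, -, hfy⟩ := (mem_part Q I m _).1 hy.2
  refine ⟨R, ?_, hR, ?_⟩
  · intro hcon
    apply hy0
    rw [← hx, hφa, ← hRx, Ideal.Quotient.eq_zero_iff_mem.mpr hcon, mul_zero]
  · have h7 : Ideal.Quotient.mk Q (B * R) = Ideal.Quotient.mk Q f := by
      rw [map_mul, hRx, hfy, ← hx, hφa]
    rw [Ideal.Quotient.mk_eq_mk_iff_sub_mem] at h7
    have h8 : B * R = f + (B * R - f) := by ring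
    rw [h8]
    exact add_mem (Ideal.mem_sup_left hf) (Ideal.mem_sup_right h7)

/-- the cone of a positive dimensional variety is not contained in finitely many lines -/
lemma not_finLines_cone [IsAlgClosed Ω] [Infinite K]
    (Q : Ideal (MvPolynomial (Fin (s + 1)) K)) (hQ : Q.IsPrime) (hQh : IsHom Q)
    (hN : Algebra.trdeg K (MvPolynomial (Fin (s + 1)) K ⧸ Q) = ((N + 1 : ℕ) : Cardinal))
    (hN1 : 1 ≤ N) : ¬ FinLines (Cone Ω Q) := by
  intro hcon
  -- a Noether normalisation with no forms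
  have h1 : FinLines (Zer Ω (fun i : Fin 0 => (0 : MvPolynomial (Fin (s + 1)) K)) ∩ Cone Ω Q) := by
    obtain ⟨S, hS, h⟩ := hcon
    exact ⟨S, hS, fun x hx => h x hx.2⟩
  obtain ⟨G, l, hG, hl, hX⟩ := exists_noetherQ Q hQ hQh hN 1 le_rfl 0 (fun _ => 0)
    (fun i => Fin.elim0 i) h1
  have hG0 : ∀ i, G i = 0 := by
    intro i
    have h2 := hG i
    have h3 : Set.range (fun _ : Fin 0 => (0 : MvPolynomial (Fin (s + 1)) K)) = ∅ :=
      Set.range_eq_empty _
    rw [h3, Submodule.span_empty, Submodule.mem_bot] at h2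
    exact h2
  have h4 := injQ Q hQ hQh hN 1 le_rfl G (fun i => by rw [hG0 i]; exact isHomogeneous_zero _ _ _)
    l hl hX (X (Fin.succ ⟨0, hN1⟩)) (by
      rw [aeval_X, Fin.cons_succ, hG0]
      exact zero_mem _)
  exact X_ne_zero _ h4

theorem exists_auxQ [IsAlgClosed Ω] [Algebra.IsAlgebraic K Ω] [Infinite K]
    (Q : Ideal (MvPolynomial (Fin (s + 1)) K)) (hQ : Q.IsPrime) (hQh : IsHom Q)
    (hN : Algebra.trdeg K (MvPolynomial (Fin (s + 1)) K ⧸ Q) = ((N + 1 : ℕ) : Cardinal))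
    (hN1 : 1 ≤ N) (d : ℕ) (hd : 2 ≤ d) (H : Fin (s + 1) → MvPolynomial (Fin (s + 1)) K)
    (hH : ∀ i, (H i).IsHomogeneous d)
    (hfin : ∀ n, FinLines (Zer Ω (iter H n) ∩ Cone Ω Q)) (q : Fin (s + 1) → Ω) (hq : q ≠ 0)
    (hqQ : q ∈ Cone Ω Q) (j : ℕ) (hqj : q ∈ Zer Ω (iter H j)) :
    ∃ a : ℕ, 2 ≤ a ∧ ∀ L, j ≤ L → ∃ (k D : ℕ) (R : MvPolynomial (Fin (s + 1)) K), 1 ≤ k ∧
      a * D = (a - 1) * (k * d ^ L) ∧ R ∉ Q ∧ R.IsHomogeneous D ∧
      ∀ (e : ℕ) (g : MvPolynomial (Fin (s + 1)) K), g.IsHomogeneous e → aeval q g = 0 →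
        ∃ E : ℕ, g ^ E * R ∈ Ideal.span (Set.range (iter H L)) ^ k ⊔ Q := by
  classical
  obtain ⟨ρ, C0, hρ, hhilb⟩ := hilbQ Q hQ hQh hN
  obtain ⟨c, b, hc, hb, htay⟩ := taylorQ Q hQ hQh hN hN1 q hq hqQ
  have hcd : 1 ≤ (c * d ^ j) ^ N := Nat.one_le_pow _ _
    (Nat.mul_pos hc (Nat.pow_pos (by omega)))
  have ha2 : 2 ≤ 2 * ρ * N * (c * d ^ j) ^ N := by
    have h1 : 1 ≤ ρ * N := Nat.mul_pos hρ hN1
    calc 2 = 2 * 1 * 1 := rfl
      _ ≤ 2 * (ρ * N) * (c * d ^ j) ^ N := by gcongr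
      _ = 2 * ρ * N * (c * d ^ j) ^ N := by ring
  refine ⟨2 * ρ * N * (c * d ^ j) ^ N, ha2, fun L hjL => ?_⟩
  have hmain := arith2Q N ρ c d j L hN1 hρ hc hd hjL
  generalize 2 * ρ * N * (c * d ^ j) ^ N = a at ha2 hmain ⊢
  have hδ : 1 ≤ d ^ L := Nat.one_le_pow _ _ (by omega)
  have hM : 1 ≤ d ^ (L - j) := Nat.one_le_pow _ _ (by omega)
  have hhom : ∀ i, (iter H L i).IsHomogeneous (d ^ L) := iter_hom H d hH L
  obtain ⟨S, hS, hSZ⟩ := hfin L
  -- a point of the cone which is not in the closure of `q`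
  obtain ⟨x0, hx0, hx0q⟩ : ∃ x0 ∈ Cone Ω Q, ¬ Below K q x0 := by
    by_contra hcon
    push Not at hcon
    apply not_finLines_cone (Ω := Ω) Q hQ hQh hN hN1
    obtain ⟨S', hS', h⟩ := finLines_below (K := K) q hq
    exact ⟨S', hS', fun x hx => h x (hcon x hx)⟩
  have hne : ∃ (e : ℕ) (f : MvPolynomial (Fin (s + 1)) K), 1 ≤ e ∧
      f.IsHomogeneous e ∧ f ≠ 0 ∧ aeval q f = 0 := by
    have h1 := hx0q
    rw [Below] at h1
    push Not at h1
    obtain ⟨e, f, hf, hfq, hfx⟩ := h1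
    have hf0 : f ≠ 0 := by
      rintro rfl
      exact hfx (map_zero _)
    refine ⟨e, f, ?_, hf, hf0, hfq⟩
    rcases Nat.eq_zero_or_pos e with he | he
    · subst he
      have h6 : f = C (coeff 0 f) :=
        totalDegree_eq_zero_iff_eq_C.mp (Nat.le_zero.mp hf.totalDegree_le)
      exfalso
      apply hfx
      rw [h6, aeval_C] at hfq ⊢
      exact hfq
    · exact he
  obtain ⟨b1, B1, hb1, hB1, -, hB1q, hB1S⟩ := exists_form q (insert x0 S) (hS.insert x0) hne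
  have hB1Q : B1 ∉ Q := fun h => hB1S x0 (Set.mem_insert _ _) hx0q (hx0 B1 h)
  -- a power of the form
  set bB := b1 * b with hbB
  have hbB1 : b ≤ bB := Nat.le_mul_of_pos_left _ hb1
  have hB : (B1 ^ b).IsHomogeneous bB := by
    rw [hbB]
    exact hB1.pow b
  obtain ⟨e0, he0⟩ := codimQ Q hQ hQh hN hN1 ρ C0 hhilb (d ^ L) hδ (s + 1) (iter H L) hhom
    (hfin L)
  obtain ⟨t, n, ht, hcn, hC0, het, hbn, har⟩ := arithQ N ρ C0 c b a (d ^ L) (d ^ (L - j)) bB e0
    hN1 hρ hc hδ hM ha2 hb hbB1 hmain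
  set k := a * t with hk
  set D := (a - 1) * t * d ^ L with hD
  set m := D + d ^ (L - j) * k * bB with hm
  have hk1 : 1 ≤ k := Nat.mul_pos (by omega) ht
  have hJ := Jid_prime (K := K) q
  have hord : ∀ i, iter H L i ∈ Jid K q ^ d ^ (L - j) := by
    intro i
    have h1 : iter H L i = bind₁ (iter H j) (iter H (L - j) i) := by
      rw [← iter_add, Nat.sub_add_cancel hjL]
    rw [h1, (iter H (L - j) i).as_sum, map_sum]
    refine Ideal.sum_mem _ fun u hu => ?_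
    rw [bind₁_monomial]
    refine Ideal.mul_mem_left _ _ ?_
    have h2 : ∑ i ∈ u.support, u i = d ^ (L - j) := by
      have h3 := iter_hom H d hH (L - j) i
      have h4 := h3.degree_eq_sum_deg_support hu
      exact h4.symm
    rw [← h2, ← Finset.prod_pow_eq_pow_sum]
    refine Ideal.prod_mem_prod fun l _ => ?_
    refine Ideal.pow_mem_pow ?_ _
    rw [mem_Jid_hom q _ _ (iter_hom H d hH j l)]
    exact hqj l
  have hI : Ideal.span (Set.range (iter H L)) ^ k ≤ ordIdeal Q q (c * n) := by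
    have h1 : Ideal.span (Set.range (iter H L)) ≤ Jid K q ^ d ^ (L - j) := by
      rw [Ideal.span_le]
      rintro _ ⟨i, rfl⟩
      exact hord i
    refine (Ideal.pow_right_mono h1 k).trans ?_
    rw [← pow_mul]
    exact (pow_le_ordIdeal Q q _).trans (ordIdeal_anti Q q _ _ hcn)
  have hBU : (B1 ^ b) ^ (d ^ (L - j) * k) ∈ ordIdeal Q q (c * n) := by
    have h1 : B1 ^ b ∈ Jid K q :=
      Ideal.pow_mem_of_mem _ ((mem_Jid_hom q B1 b1 hB1).mpr hB1q) _ hb
    exact ((pow_le_ordIdeal Q q _).trans (ordIdeal_anti Q q _ _ hcn)) (Ideal.pow_mem_pow h1 _)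
  have hBQ : (B1 ^ b) ^ (d ^ (L - j) * k) ∉ Q := fun h =>
    hB1Q (hQ.mem_of_pow_mem _ (hQ.mem_of_pow_mem _ h))
  have hBhom : ((B1 ^ b) ^ (d ^ (L - j) * k)).IsHomogeneous (bB * (d ^ (L - j) * k)) := hB.pow _
  have hdim : Module.finrank K (part Q (ordIdeal Q q (c * n)) m) <
      dimQ Q D + Module.finrank K (part Q (Ideal.span (Set.range (iter H L)) ^ k) m) := by
    have h1 := htay n m hbn
    have h2 := he0 k m het
    have h3 := (hhilb m).1
    have h4 := (hhilb (D - C0)).2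
    rw [Nat.sub_add_cancel hC0] at h4
    omega
  obtain ⟨R, hRQ, hR, hBR⟩ := qaux_exists Q hQ _ _ hI _ _ D m hBhom (by rw [hm]; ring) hBU hBQ
    hdim
  refine ⟨k, D, R, hk1, by rw [hD, hk]; ring, hRQ, hR, fun e g hg hgq => ?_⟩
  -- the quotient ideal
  set I := Ideal.span (Set.range (iter H L)) ^ k ⊔ Q with hIdef
  have hnull : ∃ A : ℕ, g ^ A ∈ Ideal.span {f | f * R ∈ I} := by
    refine Pool.Agent.Lib.MP_9ec2c5_gen.NullBase.null (Ω := Ω) _ g fun x hx => ?_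
    have h1 : aeval x B1 = 0 := by
      have h2 := hx _ hBR
      rw [map_pow, map_pow] at h2
      exact eq_zero_of_pow_eq_zero (eq_zero_of_pow_eq_zero h2)
    have hxQ : x ∈ Cone Ω Q := by
      intro f hf
      exact hx f (Ideal.mul_mem_right _ _ (Ideal.mem_sup_right hf))
    have h3 : x ∈ Zer Ω (iter H L) := by
      intro i
      have h4 : iter H L i ^ k * R ∈ I :=
        Ideal.mul_mem_right _ _ (Ideal.mem_sup_left (Ideal.pow_mem_pow
          (Ideal.subset_span (Set.mem_range_self (f := iter H L) i)) _))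
      have h5 := hx _ h4
      rw [map_pow] at h5
      exact eq_zero_of_pow_eq_zero h5
    obtain ⟨y, hy, z, rfl⟩ := hSZ x ⟨h3, hxQ⟩
    rcases eq_or_ne z 0 with rfl | hz
    · rw [aeval_smul_hom g e hg]
      rcases Nat.eq_zero_or_pos e with he | he
      · subst he
        have h6 : g = C (coeff 0 g) :=
          totalDegree_eq_zero_iff_eq_C.mp (Nat.le_zero.mp hg.totalDegree_le)
        rw [h6, aeval_C] at hgq
        rw [h6, aeval_C, hgq, mul_zero]
      · rw [zero_pow (by omega), zero_mul]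
    · have h6 : aeval y B1 = 0 := by
        rw [aeval_smul_hom B1 b1 hB1] at h1
        exact (mul_eq_zero.mp h1).resolve_left (pow_ne_zero _ hz)
      have h7 : Below K q y := by
        by_contra hcon
        exact hB1S y (Set.mem_insert_of_mem _ hy) hcon h6
      rw [aeval_smul_hom g e hg, h7 e g hg hgq, mul_zero]
  obtain ⟨A, hA⟩ := hnull
  refine ⟨A, ?_⟩
  have hsub : Ideal.span {f | f * R ∈ I} ≤ Submodule.colon I (Ideal.span {R}) := by
    rw [Ideal.span_le]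
    intro f hf
    rw [SetLike.mem_coe, Submodule.mem_colon]
    intro y hy
    obtain ⟨z, rfl⟩ := Ideal.mem_span_singleton'.mp hy
    rw [smul_eq_mul]
    have h8 : f * (z * R) = z * (f * R) := by ring
    rw [h8]
    exact Ideal.mul_mem_left _ _ hf
  have h9 := hsub hA
  rw [Submodule.mem_colon] at h9
  have h10 := h9 R (Ideal.mem_span_singleton_self R)
  rwa [smul_eq_mul] at h10

end Pool.Agent.Lib.MP_9ec2c5_av
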