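import Mathlib
import Pool.Agent.Lib.MP_9ec2c5_av.Defs
import Pool.Agent.Lib.MP_9ec2c5_bp.Homog
import Pool.Agent.Lib.MP_9ec2c5_gen.Deg

/-!
The degrees of the iterates on an affine variety.
-/

set_option autoImplicit false

namespace Pool.Agent.Lib.MP_9ec2c5_av

open MvPolynomial
open Pool.Agent.Lib.MP_9ec2c5_gen (iter)
open Pool.Agent.Lib.MP_9ec2c5_bp

variable {K : Type} [Field K] {s : ℕ}

namespace QDegAux

theorem totalDegree_iter (d : ℕ) (F : Fin s → MvPolynomial (Fin s) K)
    (hF : ∀ i, (F i).totalDegree ≤ d) (n : ℕ) (i : Fin s) :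
    (iter F n i).totalDegree ≤ d ^ n := by
  induction n generalizing i with
  | zero => rw [iter, totalDegree_X, pow_zero]
  | succ n ih =>
    rw [iter, pow_succ']
    exact (MP_9ec2c5_gen.Deg.totalDegree_bind_le _ _ (fun j => ih j) _).trans
      (Nat.mul_le_mul_right _ (hF i))

/-- the top form of an iterate -/
theorem aeval_top {Ω : Type} [Field Ω] [Algebra K Ω] (d : ℕ) (hd : 1 ≤ d)
    (F : Fin s → MvPolynomial (Fin s) K)
    (hF : ∀ i, (F i).totalDegree ≤ d) (n : ℕ) (v : Fin s → Ω) (i : Fin s) :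
    aeval v (homogeneousComponent (d ^ n) (iter F n i)) = aeval v (iter (lead d F) n i) := by
  set q : ℕ → Fin s → Polynomial Ω := fun n i =>
    aeval (fun l => Polynomial.C (v l) * Polynomial.X) (iter F n i) with hq
  have hqs : ∀ n i, q (n + 1) i = aeval (q n) (F i) := by
    intro n i
    simp only [hq]
    rw [iter, aeval_bind₁]
  have key : ∀ n, (∀ i, (q n i).natDegree ≤ d ^ n) ∧
      ∀ i, (q n i).coeff (d ^ n) = aeval v (iter (lead d F) n i) := by
    intro n
    induction n with
    | zero =>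
      have h0 : ∀ i, q 0 i = Polynomial.C (v i) * Polynomial.X := by
        intro i
        simp only [hq]
        rw [iter, aeval_X]
      refine ⟨fun i => ?_, fun i => ?_⟩
      · rw [h0, pow_zero]
        exact (Polynomial.natDegree_C_mul_le _ _).trans Polynomial.natDegree_X_le
      · rw [h0, pow_zero, Polynomial.coeff_C_mul_X, if_pos rfl, iter, aeval_X]
    | succ n ih =>
      obtain ⟨h1, h2⟩ := ih
      have hp : 1 ≤ d ^ n := Nat.one_le_pow _ _ hd
      have h4 := fun i => MP_9ec2c5_gen.Deg.coeff_comp (q n) (d ^ n) d hp h1 (F i) (hF i)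
      refine ⟨fun i => ?_, fun i => ?_⟩
      · rw [hqs, pow_succ']
        exact (h4 i).1
      · rw [hqs, pow_succ', (h4 i).2]
        have h5 : (fun i => (q n i).coeff (d ^ n)) = fun i => aeval v (iter (lead d F) n i) :=
          funext h2
        rw [h5, iter, aeval_bind₁]
        rfl
  have h3 := (key n).2 i
  simp only [hq] at h3
  rwa [MP_9ec2c5_gen.NullBase.coeff_line] at h3

end QDegAux

theorem iterDegOn_eq (p : Ideal (MvPolynomial (Fin s) K)) (d : ℕ) (hd : 1 ≤ d)
    (F : Fin s → MvPolynomial (Fin s) K) (hF : ∀ i, (F i).totalDegree ≤ d) (n : ℕ)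
    (h : (BadPoints d F n ∩ Infty p).Finite) (hinf : (Infty p).Infinite) :
    iterDegOn p F n = d ^ n := by
  have hmem : d ^ n ∈ {D | ∀ i, ∃ g : MvPolynomial (Fin s) K, g.totalDegree ≤ D ∧
      iter F n i - g ∈ p} := fun i =>
    ⟨iter F n i, QDegAux.totalDegree_iter d F hF n i, by rw [sub_self]; exact zero_mem _⟩
  apply le_antisymm
  · exact Nat.sInf_le hmem
  · refine le_csInf ⟨_, hmem⟩ fun D hD => ?_
    by_contra hlt
    rw [not_le] at hlt
    obtain ⟨x, hx, hxb⟩ := hinf.exists_notMem_finite h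
    have hx' : ¬ ∀ i, aeval x.rep (iter (lead d F) n i) = 0 := fun h' => hxb ⟨h', hx⟩
    push Not at hx'
    obtain ⟨i, hi⟩ := hx'
    obtain ⟨g, hg, hgp⟩ := hD i
    have h1 : homogeneousComponent (d ^ n) (iter F n i - g) =
        homogeneousComponent (d ^ n) (iter F n i) := by
      rw [map_sub, homogeneousComponent_eq_zero _ g (hg.trans_lt hlt), sub_zero]
    have h2 : aeval x.rep (homogeneousComponent (d ^ n) (iter F n i - g)) ≠ 0 := by
      rw [h1, QDegAux.aeval_top d hd F hF]
      exact hi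
    have h3 : (iter F n i - g).totalDegree = d ^ n := by
      apply le_antisymm
      · exact (totalDegree_sub _ _).trans
          (max_le (QDegAux.totalDegree_iter d F hF n i) (hg.trans hlt.le))
      · by_contra hcon
        rw [homogeneousComponent_eq_zero _ _ (not_le.1 hcon), map_zero] at h2
        exact h2 rfl
    have h4 := hx _ hgp
    rw [h3] at h4
    exact h2 h4

end Pool.Agent.Lib.MP_9ec2c5_av
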