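import Mathlib
import Pool.Agent.Lib.MP_9ec2c5_av.Defs
import Pool.Agent.Lib.MP_9ec2c5_bp.Example

/-!
An example of leading forms, on affine varieties.
-/

set_option autoImplicit false

namespace Pool.Agent.Lib.MP_9ec2c5_av

open MvPolynomial
open Pool.Agent.Lib.MP_9ec2c5_gen (iter)
open Pool.Agent.Lib.MP_9ec2c5_bp

private theorem ex_iter2 {K : Type} [Field K] {Ω : Type} [Field Ω] [Algebra K Ω] (m : ℕ)
    (F : Fin (m + 2) → MvPolynomial (Fin (m + 2)) K)
    (h2 : ∀ i, i ≠ 0 → i ≠ 1 → homogeneousComponent 3 (F i) = X i ^ 3)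
    (x : Fin (m + 2) → Ω) (n : ℕ) (i : Fin (m + 2)) (hi : i ≠ 0) (hi' : i ≠ 1) :
    aeval x (iter (lead 3 F) n i) = x i ^ 3 ^ n := by
  induction n with
  | zero => simp [iter]
  | succ n ih =>
    change aeval x (bind₁ (iter (lead 3 F) n) (homogeneousComponent 3 (F i))) = _
    rw [h2 i hi hi', aeval_bind₁, map_pow, aeval_X, ih]
    ring

theorem example_badQ {K : Type} [Field K] [CharZero K] (m : ℕ)
    (F : Fin (m + 2) → MvPolynomial (Fin (m + 2)) K)
    (h0 : homogeneousComponent 3 (F 0) = (X 0 - X 1) * X 0 ^ 2)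
    (h1 : homogeneousComponent 3 (F 1) = (X 0 - X 1) * X 1 ^ 2)
    (h2 : ∀ i, i ≠ 0 → i ≠ 1 → homogeneousComponent 3 (F i) = X i ^ 3)
    (p : Ideal (MvPolynomial (Fin (m + 2)) K))
    (hp : ∀ f ∈ p, homogeneousComponent f.totalDegree f ∈
      Ideal.span (Set.range fun i : Fin m => (X i.succ.succ : MvPolynomial (Fin (m + 2)) K))) :
    (∀ n, (BadPoints 3 F n ∩ Infty p).Finite) ∧
      (⋃ n, BadPoints 3 F n ∩ Infty p).Infinite := by
  have hsub : ∀ n, BadPoints 3 F n ⊆ Infty p := by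
    intro n x hx f hf
    have hx0 : ∀ i : Fin m, x.rep i.succ.succ = 0 := by
      intro i
      have h3 := hx i.succ.succ
      rw [ex_iter2 m F h2 x.rep n i.succ.succ (Fin.succ_ne_zero _)
        (by
          rw [← Fin.succ_zero_eq_one]
          intro h
          exact Fin.succ_ne_zero _ (Fin.succ_injective _ h))] at h3
      exact (pow_eq_zero_iff (by positivity)).mp h3
    have hle : Ideal.span (Set.range fun i : Fin m =>
        (X i.succ.succ : MvPolynomial (Fin (m + 2)) K)) ≤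
        RingHom.ker (aeval x.rep : MvPolynomial (Fin (m + 2)) K →ₐ[K] AlgebraicClosure K) := by
      rw [Ideal.span_le]
      rintro _ ⟨i, rfl⟩
      change aeval x.rep (X i.succ.succ : MvPolynomial (Fin (m + 2)) K) = 0
      rw [aeval_X, hx0]
    exact hle (hp f hf)
  have heq : ∀ n, BadPoints 3 F n ∩ Infty p = BadPoints 3 F n :=
    fun n => Set.inter_eq_left.mpr (hsub n)
  obtain ⟨h3, h4⟩ := example_bad m F h0 h1 h2
  refine ⟨fun n => by rw [heq]; exact h3 n, ?_⟩
  have h5 : (⋃ n, BadPoints 3 F n ∩ Infty p) = ⋃ n, BadPoints 3 F n :=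
    Set.iUnion_congr heq
  rw [h5]
  exact h4

end Pool.Agent.Lib.MP_9ec2c5_av
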