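import Mathlib
import Pool.Agent.Lib.MP_9ec2c5_av.Defs
import Pool.Agent.Lib.MP_9ec2c5_bp.FLFibre

/-!
Positive dimensional fibres on closed subsets of an affine variety.
-/

set_option autoImplicit false

namespace Pool.Agent.Lib.MP_9ec2c5_av

open MvPolynomial
open Pool.Agent.Lib.MP_9ec2c5_gen (iter)
open Pool.Agent.Lib.MP_9ec2c5_bp

variable {K : Type} [Field K] {s : ℕ}

theorem fl_fibreQ {Ω : Type} [Field Ω] [Algebra K Ω] [IsAlgClosed Ω]
    (F : Fin s → MvPolynomial (Fin s) K) (q : Ideal (MvPolynomial (Fin s) K)) (hq : q.IsPrime)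
    (i : Fin s)
    (htr : ∀ (r : ℕ) (a : ℕ → MvPolynomial (Fin s) K),
      ∑ j ∈ Finset.range (r + 1), bind₁ F (a j) * X i ^ j ∈ q → bind₁ F (a r) ∈ q) :
    ∃ t, t ∉ q ∧ ∀ x : Fin s → Ω, (∀ f ∈ q, aeval x f = 0) → aeval x t ≠ 0 →
      {x' : Fin s → Ω | (∀ f ∈ q, aeval x' f = 0) ∧
        ∀ l, aeval x' (F l) = aeval x (F l)}.Infinite := by
  classical
  let B := MvPolynomial (Fin s) K ⧸ q
  let L := FractionRing B
  let π : MvPolynomial (Fin s) K →+* L := (algebraMap B L).comp (Ideal.Quotient.mk q)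
  have hπ : ∀ p, π p = 0 ↔ p ∈ q := by
    intro p
    rw [RingHom.comp_apply, map_eq_zero_iff _ (IsFractionRing.injective B L),
      Ideal.Quotient.eq_zero_iff_mem]
  let ψ : MvPolynomial (Fin s) K →+* L := π.comp (bind₁ F : _ →ₐ[K] _).toRingHom
  have hψ : ∀ p, ψ p = π (bind₁ F p) := fun p => rfl
  let ι : Polynomial ψ.range →+* L := Polynomial.eval₂RingHom ψ.range.subtype (π (X i))
  have hι : Function.Injective ι := by
    rw [injective_iff_map_eq_zero]
    intro P hP
    by_contra hP0
    have h1 : ∀ j, ∃ a : MvPolynomial (Fin s) K, ψ.rangeRestrict a = P.coeff j := fun j =>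
      ψ.rangeRestrict_surjective _
    choose a ha using h1
    have h2 : ∑ j ∈ Finset.range (P.natDegree + 1), bind₁ F (a j) * X i ^ j ∈ q := by
      rw [← hπ, map_sum]
      have h3 : ι P = ∑ j ∈ Finset.range (P.natDegree + 1),
          (P.coeff j : L) * π (X i) ^ j := by
        change Polynomial.eval₂ _ _ P = _
        rw [Polynomial.eval₂_eq_sum_range]
        rfl
      rw [← hP, h3]
      refine Finset.sum_congr rfl fun j _ => ?_
      rw [map_mul, map_pow, ← hψ, ← ha]
      rfl
    have h4 := htr _ _ h2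
    rw [← hπ, ← hψ] at h4
    have h5 : P.coeff P.natDegree = 0 := by
      rw [← ha]
      exact Subtype.ext h4
    exact hP0 (Polynomial.leadingCoeff_eq_zero.1 h5)
  obtain ⟨u, hu, huf⟩ := FLFibre.ext (Ω := Ω) s (Polynomial ψ.range) ι hι (fun l => π (X l)) 1
    (by simp)
  obtain ⟨g, hg⟩ := ψ.rangeRestrict_surjective u.leadingCoeff
  refine ⟨bind₁ F g, fun h => hu ?_, fun x hx hs => ?_⟩
  · rw [← Polynomial.leadingCoeff_eq_zero, ← hg]
    refine Subtype.ext ?_
    exact (hπ _).2 h
  let φ : ψ.range →+* Ω := RingHom.liftOfSurjective ψ.rangeRestrict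
      ψ.rangeRestrict_surjective ⟨((aeval x).comp (bind₁ F) : _ →ₐ[K] Ω).toRingHom, by
        intro P hP
        rw [RingHom.mem_ker] at hP ⊢
        exact hx _ ((hπ _).1 (congrArg Subtype.val hP))⟩
  have hφ : ∀ P, φ (ψ.rangeRestrict P) = aeval x (bind₁ F P) := fun P =>
    RingHom.liftOfRightInverse_comp_apply _ _ _ _ P
  have hne : u.map φ ≠ 0 := by
    intro h
    have h1 := congrArg (fun p => Polynomial.coeff p u.natDegree) h
    simp only [Polynomial.coeff_map, Polynomial.coeff_natDegree, Polynomial.coeff_zero] at h1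
    rw [← hg, hφ] at h1
    exact hs h1
  have hpt : ∀ t : Ω, (u.map φ).eval t ≠ 0 → ∃ x' : Fin s → Ω,
      ((∀ f ∈ q, aeval x' f = 0) ∧ ∀ l, aeval x' (F l) = aeval x (F l)) ∧ x' i = t := by
    intro t ht
    obtain ⟨ξ, h1, -⟩ := huf (Polynomial.eval₂RingHom φ t) (by
      rw [Polynomial.coe_eval₂RingHom, Polynomial.eval₂_eq_eval_map]
      exact ht)
    let κ : K →+* Polynomial ψ.range := Polynomial.C.comp (ψ.rangeRestrict.comp C)
    have hA : ∀ f, MvPolynomial.eval₂ ι (fun l => π (X l)) (MvPolynomial.map κ f) = π f := by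
      intro f
      rw [MvPolynomial.eval₂_map]
      have h4 : MvPolynomial.eval₂Hom (ι.comp κ) (fun l => π (X l)) = π := by
        refine MvPolynomial.ringHom_ext ?_ ?_
        · intro a
          rw [MvPolynomial.coe_eval₂Hom, MvPolynomial.eval₂_C]
          change Polynomial.eval₂ _ _ (Polynomial.C _) = _
          rw [Polynomial.eval₂_C]
          change π (bind₁ F (C a)) = _
          rw [bind₁_C_right]
        · intro j
          simp
      exact RingHom.congr_fun h4 _
    have hB : ∀ f, MvPolynomial.eval₂ (Polynomial.eval₂RingHom φ t) ξ (MvPolynomial.map κ f) =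
        aeval ξ f := by
      intro f
      rw [MvPolynomial.eval₂_map]
      have h4 : (Polynomial.eval₂RingHom φ t).comp κ = algebraMap K Ω := by
        ext a
        change Polynomial.eval₂ _ _ (Polynomial.C _) = _
        rw [Polynomial.eval₂_C]
        change φ (ψ.rangeRestrict (C a)) = _
        rw [hφ, bind₁_C_right, aeval_C]
      rw [h4]
      rfl
    refine ⟨ξ, ⟨fun f hf => ?_, fun l => ?_⟩, ?_⟩
    · rw [← hB]
      exact h1 _ (by rw [hA]; exact (hπ f).2 hf)
    · have h2 := h1 (MvPolynomial.map κ (F l) - C (Polynomial.C (ψ.rangeRestrict (X l)))) (by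
        rw [MvPolynomial.eval₂_sub, hA, MvPolynomial.eval₂_C]
        have h3 : ι (Polynomial.C (ψ.rangeRestrict (X l))) = π (F l) := by
          change Polynomial.eval₂ _ _ (Polynomial.C _) = _
          rw [Polynomial.eval₂_C]
          change π (bind₁ F (X l)) = _
          rw [bind₁_X_right]
        rw [h3, sub_self])
      rw [MvPolynomial.eval₂_sub, hB, MvPolynomial.eval₂_C, sub_eq_zero] at h2
      have h3 : Polynomial.eval₂RingHom φ t (Polynomial.C (ψ.rangeRestrict (X l))) =
          aeval x (F l) := by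
        rw [Polynomial.coe_eval₂RingHom, Polynomial.eval₂_C, hφ, bind₁_X_right]
      rw [h3] at h2
      exact h2
    · have h2 := h1 (X i - C Polynomial.X) (by
        rw [MvPolynomial.eval₂_sub, MvPolynomial.eval₂_X, MvPolynomial.eval₂_C]
        change _ - Polynomial.eval₂ _ _ Polynomial.X = _
        rw [Polynomial.eval₂_X, sub_self])
      rw [MvPolynomial.eval₂_sub, MvPolynomial.eval₂_X, MvPolynomial.eval₂_C, sub_eq_zero,
        Polynomial.coe_eval₂RingHom, Polynomial.eval₂_X] at h2
      exact h2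
  intro hfin
  have h1 : ((fun x' : Fin s → Ω => x' i) ''
      {x' : Fin s → Ω | (∀ f ∈ q, aeval x' f = 0) ∧
        ∀ l, aeval x' (F l) = aeval x (F l)}).Finite := hfin.image _
  have h2 : {t : Ω | (u.map φ).eval t = 0}.Finite := by
    refine (Polynomial.finite_setOfPred_isRoot hne).subset fun t ht => ht
  have h3 : (Set.univ : Set Ω).Finite := by
    refine (h1.union h2).subset fun t _ => ?_
    by_cases ht : (u.map φ).eval t = 0
    · exact Or.inr ht
    · obtain ⟨x', hx', hx''⟩ := hpt t ht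
      exact Or.inl ⟨x', hx', hx''⟩
  exact Set.infinite_univ h3

/-- On a surface a curve with this property is contracted to a point. -/
theorem fl_surface (F : Fin s → MvPolynomial (Fin s) K) (p q : Ideal (MvPolynomial (Fin s) K))
    (hp : p.IsPrime) (htrp : Algebra.trdeg K (MvPolynomial (Fin s) K ⧸ p) = (2 : ℕ))
    (hq : q.IsPrime) (hpq : p < q) (i : Fin s)
    (htr : ∀ (r : ℕ) (a : ℕ → MvPolynomial (Fin s) K),
      ∑ j ∈ Finset.range (r + 1), bind₁ F (a j) * X i ^ j ∈ q → bind₁ F (a r) ∈ q)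
    (x x' : Fin s → K) (hx : ∀ f ∈ q, eval x f = 0) (hx' : ∀ f ∈ q, eval x' f = 0) (l : Fin s) :
    eval x (F l) = eval x' (F l) := by
  classical
  let mk : MvPolynomial (Fin s) K →ₐ[K] MvPolynomial (Fin s) K ⧸ q := Ideal.Quotient.mkₐ K q
  have hmk : ∀ f, mk f = 0 ↔ f ∈ q := fun f => Ideal.Quotient.eq_zero_iff_mem
  have halg : IsAlgebraic K (mk (F l)) := by
    by_contra htr1
    let y : Unit → MvPolynomial (Fin s) K ⧸ q := fun _ => mk (F l)
    have hy : AlgebraicIndependent K y := algebraicIndependent_unique_type_iff.2 htr1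
    have hle : Algebra.adjoin K (Set.range y) ≤ (mk.comp (bind₁ F)).range := by
      rw [Algebra.adjoin_le_iff]
      rintro _ ⟨_, rfl⟩
      exact ⟨X l, by simp [y]⟩
    have htr2 : Transcendental (Algebra.adjoin K (Set.range y)) (mk (X i)) := by
      rintro ⟨P, hP0, hP⟩
      have h1 : ∀ j, ∃ a : MvPolynomial (Fin s) K, mk (bind₁ F a) = P.coeff j := fun j =>
        hle (P.coeff j).2
      choose a ha using h1
      have h2 : ∑ j ∈ Finset.range (P.natDegree + 1), bind₁ F (a j) * X i ^ j ∈ q := by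
        rw [← hmk, map_sum, ← hP, Polynomial.aeval_eq_sum_range]
        refine Finset.sum_congr rfl fun j _ => ?_
        rw [map_mul, map_pow, ha]
        rfl
      have h4 := htr _ _ h2
      rw [← hmk, ha] at h4
      exact hP0 (Polynomial.leadingCoeff_eq_zero.1 (Subtype.ext h4))
    have hind := (hy.option_iff_transcendental (mk (X i))).2 htr2
    -- lift to the quotient by `p`
    let mp : MvPolynomial (Fin s) K →ₐ[K] MvPolynomial (Fin s) K ⧸ p := Ideal.Quotient.mkₐ K p
    let φ : (MvPolynomial (Fin s) K ⧸ p) →ₐ[K] (MvPolynomial (Fin s) K ⧸ q) :=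
      Ideal.Quotient.factorₐ K hpq.le
    have hφ : ∀ f, φ (mp f) = mk f := fun f => rfl
    let z : Option Unit → MvPolynomial (Fin s) K ⧸ p := fun o =>
      o.elim (mp (X i)) (fun _ => mp (F l))
    have hφz : φ ∘ z = fun o : Option Unit => o.elim (mk (X i)) y := by
      funext o
      cases o <;> rfl
    have hindz : AlgebraicIndependent K z := by
      refine AlgebraicIndependent.of_comp φ ?_
      rw [hφz]
      exact hind
    have hbz : IsTranscendenceBasis K z := by
      refine hindz.isTranscendenceBasis_of_trdeg_le_of_finite ?_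
      rw [htrp]
      simp
    obtain ⟨c, hcq, hcp⟩ := SetLike.exists_of_lt hpq
    have hc0 : mp c ≠ 0 := fun h => hcp (Ideal.Quotient.eq_zero_iff_mem.1 h)
    obtain ⟨P, hP0, hP⟩ := (hbz.isAlgebraic.isAlgebraic (mp c)).exists_nonzero_coeff_and_aeval_eq_zero
      (mem_nonZeroDivisors_of_ne_zero hc0)
    obtain ⟨m, hm⟩ : ∃ m : MvPolynomial (Option Unit) K, aeval z m = (P.coeff 0 :
        MvPolynomial (Fin s) K ⧸ p) :=
      (Algebra.adjoin_range_eq_range_aeval K z).le (P.coeff 0).2
    have hm0 : m ≠ 0 := by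
      rintro rfl
      apply hP0
      refine Subtype.ext ?_
      rw [← hm, map_zero]
      rfl
    have hred : φ (P.coeff 0 : MvPolynomial (Fin s) K ⧸ p) = 0 := by
      have h1 := congrArg φ hP
      rw [Polynomial.aeval_eq_sum_range, map_sum, map_zero,
        Finset.sum_eq_single_of_mem 0 (Finset.mem_range.2 (Nat.succ_pos _))] at h1
      · rw [pow_zero] at h1
        rw [← h1]
        congr 1
        exact (mul_one _).symm
      · intro j _ hj
        have h2 : (P.coeff j • mp c ^ j : MvPolynomial (Fin s) K ⧸ p) =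
          (P.coeff j : MvPolynomial (Fin s) K ⧸ p) * mp c ^ j := rfl
        rw [h2, map_mul, map_pow, hφ, (hmk c).2 hcq, zero_pow hj, mul_zero]
    have h5 : aeval (φ ∘ z) m = 0 := by
      rw [← hred, ← hm]
      exact (MvPolynomial.comp_aeval_apply z φ m).symm
    rw [hφz] at h5
    have h6 := hind
    rw [AlgebraicIndependent, injective_iff_map_eq_zero] at h6
    exact hm0 (h6 m h5)
  have hint := halg.isIntegral
  have hirr := minpoly.irreducible hint
  have hroot : ∀ z : Fin s → K, (∀ f ∈ q, eval z f = 0) →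
      (minpoly K (mk (F l))).eval (eval z (F l)) = 0 := by
    intro z hz
    have h1 : Polynomial.aeval (F l) (minpoly K (mk (F l))) ∈ q := by
      rw [← hmk, ← Polynomial.aeval_algHom_apply, minpoly.aeval]
    have h2 := hz _ h1
    have h3 : eval z (Polynomial.aeval (F l) (minpoly K (mk (F l)))) =
        Polynomial.aeval (aeval z (F l)) (minpoly K (mk (F l))) := by
      rw [Polynomial.aeval_algHom_apply]
      rfl
    rw [h3] at h2
    exact h2
  have hdeg := Polynomial.degree_eq_one_of_irreducible_of_root hirr (hroot x hx)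
  have h1 := hroot x hx
  have h2 := hroot x' hx'
  rw [Polynomial.eq_X_add_C_of_degree_eq_one hdeg] at h1 h2
  have hlc : (minpoly K (mk (F l))).leadingCoeff = 1 := minpoly.monic hint
  simp only [hlc, Polynomial.C_1, one_mul, Polynomial.eval_add, Polynomial.eval_X,
    Polynomial.eval_C] at h1 h2
  exact add_right_cancel (h1.trans h2.symm)

/-- If `F` is dominant then the coordinates are algebraic over the ring generated by `F`. -/
theorem fl_dominantQ (p : Ideal (MvPolynomial (Fin s) K)) (hp : p.IsPrime)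
    (F : Fin s → MvPolynomial (Fin s) K) (hFp : ∀ f ∈ p, bind₁ F f ∈ p)
    (hF : ∀ f : MvPolynomial (Fin s) K, bind₁ F f ∈ p → f ∈ p) (i : Fin s) :
    ∃ (r : ℕ) (a : ℕ → MvPolynomial (Fin s) K),
      ∑ j ∈ Finset.range (r + 1), bind₁ F (a j) * X i ^ j ∈ p ∧ a r ∉ p := by
  classical
  let mp : MvPolynomial (Fin s) K →ₐ[K] MvPolynomial (Fin s) K ⧸ p := Ideal.Quotient.mkₐ K p
  have hmp : ∀ f, mp f = 0 ↔ f ∈ p := fun f => Ideal.Quotient.eq_zero_iff_mem
  let φ : (MvPolynomial (Fin s) K ⧸ p) →ₐ[K] (MvPolynomial (Fin s) K ⧸ p) :=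
    Ideal.Quotient.liftₐ p (mp.comp (bind₁ F)) (fun f hf => (hmp _).2 (hFp f hf))
  have hφ : ∀ f, φ (mp f) = mp (bind₁ F f) := fun f => rfl
  have hinj : Function.Injective φ := by
    rw [injective_iff_map_eq_zero]
    intro b hb
    obtain ⟨f, rfl⟩ := Ideal.Quotient.mkₐ_surjective K p b
    have h1 : mp (bind₁ F f) = 0 := hb
    exact (hmp f).2 (hF f ((hmp _).1 h1))
  have hfs : @FaithfulSMul K (MvPolynomial (Fin s) K ⧸ p) Algebra.toSMul :=
    (faithfulSMul_iff_algebraMap_injective _ _).2 (algebraMap K _).injective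
  have hft : Algebra.FiniteType K (MvPolynomial (Fin s) K ⧸ p) :=
    Algebra.FiniteType.of_surjective mp (Ideal.Quotient.mkₐ_surjective K p)
  obtain ⟨ι, x, hx⟩ := exists_isTranscendenceBasis' K (MvPolynomial (Fin s) K ⧸ p)
  have hind : AlgebraicIndependent K (φ ∘ x) := hx.1.map' hinj
  have hb : IsTranscendenceBasis K (φ ∘ x) :=
    hind.isTranscendenceBasis_of_trdeg_le trdeg_lt_aleph0_of_finiteType hx.cardinalMk_eq_trdeg.ge
  have hle : Algebra.adjoin K (Set.range (φ ∘ x)) ≤ (mp.comp (bind₁ F)).range := by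
    rw [Algebra.adjoin_le_iff]
    rintro _ ⟨j, rfl⟩
    obtain ⟨f, hf⟩ := Ideal.Quotient.mkₐ_surjective K p (x j)
    refine ⟨f, ?_⟩
    change mp (bind₁ F f) = φ (x j)
    rw [← hf]
    rfl
  obtain ⟨P, hP0, hP⟩ := hb.isAlgebraic.isAlgebraic (mp (X i))
  have h1 : ∀ j, ∃ a : MvPolynomial (Fin s) K, mp (bind₁ F a) = P.coeff j := fun j =>
    hle (P.coeff j).2
  choose a ha using h1
  refine ⟨P.natDegree, a, ?_, fun h => hP0 ?_⟩
  · rw [← hmp, map_sum, ← hP, Polynomial.aeval_eq_sum_range]
    refine Finset.sum_congr rfl fun j _ => ?_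
    rw [map_mul, map_pow, ha]
    rfl
  · have h2 := ha P.natDegree
    rw [(hmp _).2 (hFp _ h)] at h2
    exact Polynomial.leadingCoeff_eq_zero.1 (Subtype.ext h2.symm)

end Pool.Agent.Lib.MP_9ec2c5_av
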