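import Mathlib
import Pool.Agent.Lib.MP_9ec2c5_av.Defs
import Pool.Agent.Lib.MP_9ec2c5_bp.Ret

/-!
Returns of a dense orbit of an affine variety to a proper closed subset.
-/

set_option autoImplicit false

namespace Pool.Agent.Lib.MP_9ec2c5_av

open MvPolynomial
open Pool.Agent.Lib.MP_9ec2c5_gen (iter)
open Pool.Agent.Lib.MP_9ec2c5_bp

variable {K : Type} [Field K] {s : ℕ}

/-- a positive dimensional variety is not a point -/
private lemma QRet_sep (p : Ideal (MvPolynomial (Fin s) K)) (N : ℕ)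
    (hN : Algebra.trdeg K (MvPolynomial (Fin s) K ⧸ p) = N) (hN1 : 1 ≤ N) (x : Fin s → K) :
    ∃ f : MvPolynomial (Fin s) K, eval x f = 0 ∧ f ∉ p := by
  by_contra hcon
  push Not at hcon
  have hsurj : Function.Surjective (algebraMap K (MvPolynomial (Fin s) K ⧸ p)) := by
    intro y
    obtain ⟨f, rfl⟩ := Ideal.Quotient.mk_surjective y
    refine ⟨eval x f, ?_⟩
    have h1 : C (eval x f) - f ∈ p := hcon _ (by simp)
    have h2 := (Ideal.Quotient.mk_eq_mk_iff_sub_mem _ _).2 h1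
    rw [← h2]
    rfl
  have halg : Algebra.IsAlgebraic K (MvPolynomial (Fin s) K ⧸ p) := by
    refine ⟨fun y => ?_⟩
    obtain ⟨c, rfl⟩ := hsurj y
    exact isAlgebraic_algebraMap c
  have h3 : Algebra.trdeg K (MvPolynomial (Fin s) K ⧸ p) = 0 :=
    trdeg_eq_zero
  rw [h3] at hN
  have h4 : (0 : ℕ) = N := by exact_mod_cast hN
  omega

/-- a dense orbit of a positive dimensional variety is infinite -/
theorem injectiveQ (p : Ideal (MvPolynomial (Fin s) K)) (hp : p.IsPrime) (N : ℕ)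
    (hN : Algebra.trdeg K (MvPolynomial (Fin s) K ⧸ p) = N) (hN1 : 1 ≤ N)
    (F : Fin s → MvPolynomial (Fin s) K) (P : ℕ → Fin s → K)
    (hP : ∀ n i, P (n + 1) i = eval (P n) (F i)) (hPp : ∀ n, ∀ f ∈ p, eval (P n) f = 0)
    (hdense : ∀ R : MvPolynomial (Fin s) K, (∀ n, eval (P n) R = 0) → R ∈ p) :
    Function.Injective P := by
  choose g hg1 hg2 using QRet_sep p N hN hN1
  have key : ∀ a b, a < b → P a ≠ P b := by
    intro a b hab h
    have h1 : ∀ k, P (a + k) = P (b + k) := by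
      intro k
      induction k with
      | zero => exact h
      | succ k ih =>
        funext i
        rw [← add_assoc, ← add_assoc, hP, hP, ih]
    have h2 : ∀ n, ∃ l, l < b ∧ P n = P l := by
      intro n
      induction n using Nat.strong_induction_on with
      | _ n ih =>
        by_cases hn : n < b
        · exact ⟨n, hn, rfl⟩
        · obtain ⟨k, rfl⟩ := Nat.exists_eq_add_of_le (not_lt.1 hn)
          rw [← h1]
          exact ih (a + k) (by omega)
    have h3 : ∏ l ∈ Finset.range b, g (P l) ∈ p := by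
      refine hdense _ fun n => ?_
      obtain ⟨l, hl, hnl⟩ := h2 n
      rw [map_prod]
      refine Finset.prod_eq_zero (Finset.mem_range.2 hl) ?_
      rw [hnl]
      exact hg1 _
    obtain ⟨l, -, hl⟩ := (hp.prod_mem_iff).1 h3
    exact hg2 _ hl
  intro a b h
  rcases lt_trichotomy a b with h1 | h1 | h1
  · exact absurd h (key a b h1)
  · exact h1
  · exact absurd h.symm (key b a h1)

/-- tails of dense orbits are dense -/
theorem dense_tailQ (p : Ideal (MvPolynomial (Fin s) K)) (hp : p.IsPrime) (N : ℕ)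
    (hN : Algebra.trdeg K (MvPolynomial (Fin s) K ⧸ p) = N) (hN1 : 1 ≤ N)
    (F : Fin s → MvPolynomial (Fin s) K) (P : ℕ → Fin s → K)
    (hP : ∀ n i, P (n + 1) i = eval (P n) (F i)) (hPp : ∀ n, ∀ f ∈ p, eval (P n) f = 0)
    (hdense : ∀ R : MvPolynomial (Fin s) K, (∀ n, eval (P n) R = 0) → R ∈ p)
    (R : MvPolynomial (Fin s) K) (n0 : ℕ) (hR : ∀ n, n0 ≤ n → eval (P n) R = 0) : R ∈ p := by
  choose g hg1 hg2 using QRet_sep p N hN hN1
  have h1 : R * ∏ l ∈ Finset.range n0, g (P l) ∈ p := by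
    refine hdense _ fun n => ?_
    rw [map_mul]
    by_cases hn : n0 ≤ n
    · rw [hR n hn, zero_mul]
    · rw [map_prod, Finset.prod_eq_zero (Finset.mem_range.2 (not_le.1 hn)) (hg1 _), mul_zero]
  rcases hp.mem_or_mem h1 with h2 | h2
  · exact h2
  · obtain ⟨l, -, hl⟩ := (hp.prod_mem_iff).1 h2
    exact absurd hl (hg2 _)

theorem ret_polyQ (p : Ideal (MvPolynomial (Fin s) K)) (hp : p.IsPrime) (N : ℕ)
    (hN : Algebra.trdeg K (MvPolynomial (Fin s) K ⧸ p) = N) (hN1 : 1 ≤ N)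
    (F : Fin s → MvPolynomial (Fin s) K) (hFp : ∀ f ∈ p, bind₁ F f ∈ p) (P : ℕ → Fin s → K)
    (hP : ∀ n i, P (n + 1) i = eval (P n) (F i)) (hPp : ∀ n, ∀ f ∈ p, eval (P n) f = 0)
    (hdense : ∀ R : MvPolynomial (Fin s) K, (∀ n, eval (P n) R = 0) → R ∈ p)
    (R : MvPolynomial (Fin s) K) (hR : R ∉ p) (δ : ℝ) (hδ : 0 < δ) :
    ∃ W0 : ℕ, ∀ W, W0 ≤ W → ∀ t : ℕ, ∀ A : Finset ℕ, A ⊆ Finset.Ico t (t + W) →
      (∀ n ∈ A, eval (P n) R = 0) → (A.card : ℝ) ≤ δ * W := by
  have hdom : IsDomain (MvPolynomial (Fin s) K ⧸ p) := (Ideal.Quotient.isDomain_iff_prime p).2 hp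
  let φ : MvPolynomial (Fin s) K ⧸ p →+* MvPolynomial (Fin s) K ⧸ p :=
    Ideal.quotientMap p (bind₁ F : MvPolynomial (Fin s) K →ₐ[K] _).toRingHom
      (fun f hf => hFp f hf)
  let ev : ℕ → MvPolynomial (Fin s) K ⧸ p →+* K := fun n =>
    Ideal.Quotient.lift p (eval (P n)) (hPp n)
  have hφ : ∀ f, φ (Ideal.Quotient.mk p f) = Ideal.Quotient.mk p (bind₁ F f) := fun f => rfl
  have hev : ∀ n f, ev n (Ideal.Quotient.mk p f) = eval (P n) f := fun n f => rfl
  obtain ⟨W0, hW0⟩ := ret_ideal φ ev (by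
      intro n r
      obtain ⟨f, rfl⟩ := Ideal.Quotient.mk_surjective r
      rw [hφ, hev, hev]
      rw [show P (n + 1) = fun i => eval (P n) (F i) from funext (hP n)]
      change eval₂Hom (RingHom.id K) _ f = eval₂Hom (RingHom.id K) _ (bind₁ F f)
      rw [eval₂Hom_bind₁]
      rfl)
    (by
      rintro r ⟨n0, h⟩
      obtain ⟨f, rfl⟩ := Ideal.Quotient.mk_surjective r
      rw [Ideal.Quotient.eq_zero_iff_mem]
      exact dense_tailQ p hp N hN hN1 F P hP hPp hdense f n0 h)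
    (Ideal.span {Ideal.Quotient.mk p R}) (by
      rw [Ne, Ideal.span_singleton_eq_bot, Ideal.Quotient.eq_zero_iff_mem]
      exact hR) δ hδ
  refine ⟨W0, fun W hW t A hA h => hW0 W hW t A hA fun n hn r hr => ?_⟩
  obtain ⟨c, rfl⟩ := Ideal.mem_span_singleton.1 hr
  rw [map_mul, hev, h n hn, zero_mul]

end Pool.Agent.Lib.MP_9ec2c5_av
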