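import Mathlib
import Pool.Agent.Lib.MP_9ec2c5_av.Defs
import Pool.Agent.Lib.MP_9ec2c5_av.QFibre
import Pool.Agent.Lib.MP_9ec2c5_av.QRet
import Pool.Agent.Lib.MP_9ec2c5_bp.FLHeight

/-!
The height of the image of an orbit point is not much smaller than that of the point.
-/

set_option autoImplicit false

namespace Pool.Agent.Lib.MP_9ec2c5_av

open MvPolynomial
open Pool.Agent.Lib.MP_9ec2c5_gen (iter)
open Pool.Agent.Lib.MP_9ec2c5_bp

open Filter Topology Height AdmissibleAbsValues

namespace QFLAux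

variable {K : Type} [Field K] [NumberField K] {N : ℕ}

/-- the height of the point of affine space -/
noncomputable def ht (x : Fin N → K) : ℝ := logHeight (Fin.cons 1 x : Fin (N + 1) → K)

/-- the statement for the points of the orbit in the zero set of an ideal -/
def Claim (P : ℕ → Fin N → K) (I : Ideal (MvPolynomial (Fin N) K)) : Prop :=
  ∃ (c C : ℝ) (n0 : ℕ), 0 < c ∧ c ≤ 1 ∧ ∀ n, n0 ≤ n → (∀ p ∈ I, eval (P n) p = 0) →
    c * ht (P n) - C ≤ ht (P (n + 1))

theorem ht_nonneg (x : Fin N → K) : 0 ≤ ht x := logHeight_nonneg _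

/-- the claim follows from a bound outside of a smaller set -/
theorem claim_or {P : ℕ → Fin N → K} {I : Ideal (MvPolynomial (Fin N) K)} {A : ℕ → Prop}
    {c1 C1 : ℝ} {n1 : ℕ} (hc1 : 0 < c1) (h1 : ∀ n, n1 ≤ n → (∀ p ∈ I, eval (P n) p = 0) → A n →
      c1 * ht (P n) - C1 ≤ ht (P (n + 1)))
    {J : Ideal (MvPolynomial (Fin N) K)} (hJ : Claim P J)
    (h2 : ∀ n, n1 ≤ n → (∀ p ∈ I, eval (P n) p = 0) → ¬ A n → ∀ p ∈ J, eval (P n) p = 0) :
    Claim P I := by
  obtain ⟨c, C, n0, hc, hc', h⟩ := hJ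
  refine ⟨min c1 c, max C1 C, max n1 n0, lt_min hc1 hc, (min_le_right _ _).trans hc',
    fun n hn hI => ?_⟩
  have h0 := ht_nonneg (P n)
  by_cases hA : A n
  · have h3 := h1 n ((le_max_left _ _).trans hn) hI hA
    have h4 : min c1 c * ht (P n) ≤ c1 * ht (P n) := by
      gcongr
      exact min_le_left _ _
    linarith [le_max_left C1 C]
  · have h3 := h n ((le_max_right _ _).trans hn) (h2 n ((le_max_left _ _).trans hn) hI hA)
    have h4 : min c1 c * ht (P n) ≤ c * ht (P n) := by
      gcongr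
      exact min_le_right _ _
    linarith [le_max_right C1 C]

omit [NumberField K] in
theorem vanish_sup {x : Fin N → K} {I : Ideal (MvPolynomial (Fin N) K)} {s : MvPolynomial (Fin N) K}
    (hI : ∀ p ∈ I, eval x p = 0) (hs : eval x s = 0) : ∀ p ∈ I ⊔ Ideal.span {s}, eval x p = 0 := by
  intro p hp
  obtain ⟨a, ha, b, hb, rfl⟩ := Submodule.mem_sup.1 hp
  obtain ⟨e, rfl⟩ := Ideal.mem_span_singleton'.1 hb
  rw [map_add, hI a ha, map_mul, hs]
  simp

omit [NumberField K] in
theorem lt_sup {I : Ideal (MvPolynomial (Fin N) K)} {s : MvPolynomial (Fin N) K} (hs : s ∉ I) :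
    I < I ⊔ Ideal.span {s} := by
  refine lt_of_le_of_ne le_sup_left fun h => hs ?_
  rw [h]
  exact Submodule.mem_sup_right (Ideal.mem_span_singleton_self s)

omit [NumberField K] in
theorem eval_bind (x : Fin N → K) (F : Fin N → MvPolynomial (Fin N) K)
    (p : MvPolynomial (Fin N) K) : eval x (bind₁ F p) = eval (fun l => eval x (F l)) p := by
  rw [← coe_aeval_eq_eval, ← coe_aeval_eq_eval]
  simp only [RingHom.coe_coe]
  rw [aeval_bind₁]

/-- the transcendental case: the orbit leaves the closed set or stays in a smaller one -/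
theorem claim_tr (p : Ideal (MvPolynomial (Fin N) K)) (hp : p.IsPrime) (M : ℕ)
    (hM : Algebra.trdeg K (MvPolynomial (Fin N) K ⧸ p) = M) (hM1 : 1 ≤ M)
    (F : Fin N → MvPolynomial (Fin N) K) (hFp : ∀ f ∈ p, bind₁ F f ∈ p)
    (P : ℕ → Fin N → K) (hP : ∀ n i, P (n + 1) i = eval (P n) (F i)) (hinj : Function.Injective P)
    (hPp : ∀ n, ∀ f ∈ p, eval (P n) f = 0)
    (hdense : ∀ R : MvPolynomial (Fin N) K, (∀ n, eval (P n) R = 0) → R ∈ p)
    (hfib : M = 2 ∨ {y : Fin N → AlgebraicClosure K |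
      {x : Fin N → AlgebraicClosure K | (∀ f ∈ p, aeval x f = 0) ∧
        ∀ i, aeval x (F i) = y i}.Infinite}.Finite)
    (q : Ideal (MvPolynomial (Fin N) K)) (hq : q.IsPrime) (hpq : p ≤ q)
    (ih : ∀ J : Ideal (MvPolynomial (Fin N) K), q < J → Claim P J) (i : Fin N)
    (htr : ∀ (r : ℕ) (a : ℕ → MvPolynomial (Fin N) K),
      ∑ j ∈ Finset.range (r + 1), bind₁ F (a j) * X i ^ j ∈ q → bind₁ F (a r) ∈ q) :
    Claim P q := by
  have hPF : ∀ n, (fun l => eval (P n) (F l)) = P (n + 1) := fun n => funext fun l => (hP n l).symm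
  rcases hfib with hM2 | hfin
  · -- surfaces
    by_cases hq0 : q = p
    · subst hq0
      exfalso
      have hF : ∀ f : MvPolynomial (Fin N) K, bind₁ F f ∈ q → f ∈ q := fun f hf => by
        refine dense_tailQ q hp M hM hM1 F P hP hPp hdense f 1 fun n hn => ?_
        obtain ⟨m, rfl⟩ : ∃ m, n = m + 1 := ⟨n - 1, by omega⟩
        rw [← hPF, ← eval_bind]
        exact hPp m _ hf
      obtain ⟨r, a, h1, h2⟩ := fl_dominantQ q hp F hFp hF i
      exact h2 (hF _ (htr r a h1))
    · have huniq : ∀ m n, (∀ p ∈ q, eval (P m) p = 0) → (∀ p ∈ q, eval (P n) p = 0) → m = n := by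
        intro m n hm hn
        have : P (m + 1) = P (n + 1) := by
          funext l
          rw [hP, hP]
          exact fl_surface F p q hp (by rw [hM, hM2]) hq (lt_of_le_of_ne hpq (Ne.symm hq0)) i htr
            (P m) (P n) hm hn l
        have := hinj this
        omega
      by_cases hex : ∃ m, ∀ p ∈ q, eval (P m) p = 0
      · obtain ⟨m, hm⟩ := hex
        refine ⟨1, 0, m + 1, one_pos, le_rfl, fun n hn hI => ?_⟩
        have := huniq m n hm hI
        omega
      · exact ⟨1, 0, 0, one_pos, le_rfl, fun n _ hI => (hex ⟨n, hI⟩).elim⟩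
  · -- finitely many infinite fibres
    obtain ⟨s, hs, hsf⟩ := fl_fibreQ (Ω := AlgebraicClosure K) F q hq i htr
    set ι : (Fin N → K) → (Fin N → AlgebraicClosure K) :=
      fun x l => algebraMap K (AlgebraicClosure K) (x l) with hι
    have hιinj : Function.Injective ι := fun x y h =>
      funext fun l => (algebraMap K (AlgebraicClosure K)).injective (congrFun h l)
    have hιe : ∀ (x : Fin N → K) (p : MvPolynomial (Fin N) K), aeval (ι x) p =
        algebraMap K (AlgebraicClosure K) (eval x p) := by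
      intro x p
      rw [hι]
      exact aeval_algebraMap_apply _ x p
    have hfinn : {n : ℕ | ι (P (n + 1)) ∈ {y : Fin N → AlgebraicClosure K |
        {x : Fin N → AlgebraicClosure K | (∀ f ∈ p, aeval x f = 0) ∧
          ∀ i, aeval x (F i) = y i}.Infinite}}.Finite := by
      refine hfin.preimage (f := fun n => ι (P (n + 1))) ?_
      intro m _ n _ h
      have := hinj (hιinj h)
      omega
    obtain ⟨n1, hn1⟩ := hfinn.bddAbove
    refine claim_or (A := fun _ => False) (c1 := 1) (C1 := 0) (n1 := n1 + 1) one_pos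
      (fun n _ _ h => h.elim) (ih _ (lt_sup hs)) fun n hn hI _ => vanish_sup hI ?_
    by_contra hne
    have h1 := hsf (ι (P n)) (fun p hp => by rw [hιe, hI p hp, map_zero]) (by
      rw [hιe]
      exact fun h => hne ((algebraMap K (AlgebraicClosure K)).injective (h.trans (map_zero _).symm)))
    have h2 : n ∈ {n : ℕ | ι (P (n + 1)) ∈ {y : Fin N → AlgebraicClosure K |
        {x : Fin N → AlgebraicClosure K | (∀ f ∈ p, aeval x f = 0) ∧
          ∀ i, aeval x (F i) = y i}.Infinite}} := by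
      have h3 : ∀ l, aeval (ι (P n)) (F l) = ι (P (n + 1)) l := fun l => by
        rw [hιe, ← hP]
      simp only [h3] at h1
      exact h1.mono fun x hx => ⟨fun f hf => hx.1 f (hpq hf), hx.2⟩
    have := hn1 h2
    omega

end QFLAux

open QFLAux in
theorem flQ {K : Type} [Field K] [NumberField K] {s : ℕ} (p : Ideal (MvPolynomial (Fin s) K))
    (hp : p.IsPrime) (N : ℕ) (hN : Algebra.trdeg K (MvPolynomial (Fin s) K ⧸ p) = N)
    (hN1 : 1 ≤ N) (F : Fin s → MvPolynomial (Fin s) K) (hFp : ∀ f ∈ p, bind₁ F f ∈ p)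
    (P : ℕ → Fin s → K) (hP : ∀ n i, P (n + 1) i = eval (P n) (F i))
    (hPp : ∀ n, ∀ f ∈ p, eval (P n) f = 0)
    (hdense : ∀ R : MvPolynomial (Fin s) K, (∀ n, eval (P n) R = 0) → R ∈ p)
    (hfib : N = 2 ∨ {y : Fin s → AlgebraicClosure K |
      {x : Fin s → AlgebraicClosure K | (∀ f ∈ p, aeval x f = 0) ∧
        ∀ i, aeval x (F i) = y i}.Infinite}.Finite) :
    ∃ (c C : ℝ) (n0 : ℕ), 0 < c ∧ c ≤ 1 ∧ ∀ n, n0 ≤ n →
      c * logHeight (Fin.cons 1 (P n) : Fin (s + 1) → K) - C ≤
        logHeight (Fin.cons 1 (P (n + 1)) : Fin (s + 1) → K) := by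
  have hinj := injectiveQ p hp N hN hN1 F P hP hPp hdense
  suffices h : ∀ I : Ideal (MvPolynomial (Fin s) K), p ≤ I → Claim P I by
    obtain ⟨c, C, n0, h1, h2, h3⟩ := h p le_rfl
    exact ⟨c, C, n0, h1, h2, fun n hn => h3 n hn fun f hf => hPp n f hf⟩
  have hPF : ∀ n, (fun l => eval (P n) (F l)) = P (n + 1) := fun n => funext fun l => (hP n l).symm
  intro I
  induction I using WellFoundedGT.induction with
  | ind I ih0 =>
    intro hpI
    have ih : ∀ J : Ideal (MvPolynomial (Fin s) K), I < J → Claim P J :=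
      fun J hJ => ih0 J hJ (hpI.trans hJ.le)
    by_cases htop : I = ⊤
    · refine ⟨1, 0, 0, one_pos, le_rfl, fun n _ hI => ?_⟩
      have := hI 1 (by rw [htop]; trivial)
      rw [map_one] at this
      exact absurd this one_ne_zero
    by_cases hq : I.IsPrime
    · by_cases htr : ∃ i : Fin s, ∀ (r : ℕ) (a : ℕ → MvPolynomial (Fin s) K),
          ∑ j ∈ Finset.range (r + 1), bind₁ F (a j) * X i ^ j ∈ I → bind₁ F (a r) ∈ I
      · obtain ⟨i, hi⟩ := htr
        exact claim_tr p hp N hN hN1 F hFp P hP hinj hPp hdense hfib I hq hpI ih i hi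
      · push Not at htr
        choose r a hra hna using htr
        obtain ⟨c, C, hc, hcC⟩ := fl_height F I r a hra
        have hprod : ∏ i, bind₁ F (a i (r i)) ∉ I := by
          intro h
          obtain ⟨i, -, hi⟩ := (hq.prod_mem_iff).1 h
          exact hna i hi
        refine claim_or (A := fun n => ∀ i, eval (P (n + 1)) (a i (r i)) ≠ 0) (c1 := c) (C1 := C)
          (n1 := 0) hc (fun n _ hI hA => ?_) (ih _ (lt_sup hprod)) fun n _ hI hA => vanish_sup hI ?_
        · have := hcC (P n) hI (by rw [hPF]; exact hA)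
          rw [hPF] at this
          exact this
        · push Not at hA
          obtain ⟨i, hi⟩ := hA
          rw [map_prod]
          refine Finset.prod_eq_zero (Finset.mem_univ i) ?_
          rw [eval_bind, hPF, hi]
    · obtain ⟨x, hx, y, hy, hxy⟩ : ∃ x, x ∉ I ∧ ∃ y, y ∉ I ∧ x * y ∈ I := by
        by_contra hcon
        push Not at hcon
        exact hq ⟨htop, fun {x y} h => by
          by_contra h2
          push Not at h2
          exact hcon x h2.1 y h2.2 h⟩
      have h1 := ih _ (lt_sup hx)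
      obtain ⟨c, C, n0, hc, hc', h⟩ := ih _ (lt_sup hy)
      refine claim_or (A := fun n => eval (P n) x ≠ 0) (c1 := c) (C1 := C) (n1 := n0) hc
        (fun n hn hI hA => h n hn (vanish_sup hI ?_)) h1 fun n _ hI hA => vanish_sup hI (not_not.1 hA)
      have := hI _ hxy
      rw [map_mul, mul_eq_zero] at this
      exact this.resolve_left hA

end Pool.Agent.Lib.MP_9ec2c5_av
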