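import Mathlib
import Pool.Agent.Lib.MP_9ec2c5_av.Defs
import Pool.Agent.Lib.MP_9ec2c5_bp.Homog
import Pool.Agent.Lib.MP_9ec2c5_bp.LocalEst

/-!
Local estimates on a variety.
-/

set_option autoImplicit false

namespace Pool.Agent.Lib.MP_9ec2c5_av

open MvPolynomial
open Pool.Agent.Lib.MP_9ec2c5_gen (iter)
open Pool.Agent.Lib.MP_9ec2c5_bp

variable {K : Type} [Field K] {N : ℕ}

/-- the zero set of a homogeneous ideal is a cone -/
lemma eval_smul_cone (Q : Ideal (MvPolynomial (Fin (N + 1)) K)) (hQh : IsHom Q)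
    (x : Fin (N + 1) → K) (hx : ∀ f ∈ Q, eval x f = 0) (c : K)
    (f : MvPolynomial (Fin (N + 1)) K) (hf : f ∈ Q) : eval (c • x) f = 0 := by
  rw [← sum_homogeneousComponent f, map_sum]
  refine Finset.sum_eq_zero fun n _ => ?_
  have h2 := aeval_smul_hom (Ω := K) _ n (homogeneousComponent_isHomogeneous n f) c x
  rw [aeval_eq_eval, aeval_eq_eval] at h2
  change eval (c • x) (homogeneousComponent n f) = c ^ n * eval x (homogeneousComponent n f) at h2
  rw [h2, hx _ (hQh f hf n), mul_zero]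

open LocalEstAux in
/-- the local estimate for the auxiliary form away from a point -/
theorem local_estQ (Q : Ideal (MvPolynomial (Fin (N + 1)) K)) (hQh : IsHom Q)
    (v : AbsoluteValue K ℝ) (δ : ℕ)
    (h : Fin (N + 1) → MvPolynomial (Fin (N + 1)) K) (hh : ∀ i, (h i).IsHomogeneous δ) (k D : ℕ)
    (hD : D ≤ k * δ) (R : MvPolynomial (Fin (N + 1)) K) (hR : R.IsHomogeneous D) (e E : ℕ)
    (g : MvPolynomial (Fin (N + 1)) K) (hg : g.IsHomogeneous e)
    (hgR : g ^ E * R ∈ Ideal.span (Set.range h) ^ k ⊔ Q) (ε : ℝ) (hε : 0 < ε) :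
    ∃ C : ℝ, 0 ≤ C ∧ ∀ x : Fin (N + 1) → K, x ≠ 0 → (∀ f ∈ Q, eval x f = 0) →
      ε * nrm v x ^ e ≤ v (eval x g) →
      v (eval x R) * nrm v x ^ (k * δ - D) ≤ C * nrm v (fun i => eval x (h i)) ^ k := by
  obtain ⟨u, hu, w, hw, huw⟩ := Submodule.mem_sup.mp hgR
  obtain ⟨C, hC, h1⟩ := local_pow v h k u hu
  refine ⟨C / ε ^ E, by positivity, fun x hx hxQ hgx => ?_⟩
  obtain ⟨i, hi⟩ := exists_nrm v x
  have hM : 0 < nrm v x := by
    obtain ⟨j, hj⟩ := Function.ne_iff.1 hx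
    exact (v.pos hj).trans_le (le_nrm v x j)
  have hxi : x i ≠ 0 := by
    intro h0
    rw [← hi, h0, map_zero] at hM
    exact lt_irrefl _ hM
  have hev : ∀ (p : MvPolynomial (Fin (N + 1)) K) (a : ℕ), p.IsHomogeneous a →
      v (eval ((x i)⁻¹ • x) p) = v (eval x p) / nrm v x ^ a := by
    intro p a hp
    have h2 := aeval_smul_hom (Ω := K) p a hp (x i)⁻¹ x
    rw [aeval_eq_eval, aeval_eq_eval] at h2
    change eval ((x i)⁻¹ • x) p = (x i)⁻¹ ^ a * eval x p at h2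
    rw [h2, map_mul, map_pow, map_inv₀, hi, inv_pow, div_eq_mul_inv, mul_comm]
  have hue : eval ((x i)⁻¹ • x) u = eval ((x i)⁻¹ • x) (g ^ E * R) := by
    rw [← huw, map_add, eval_smul_cone Q hQh x hxQ _ w hw, add_zero]
  have h2 := h1 ((x i)⁻¹ • x) (by
    intro j
    rw [Pi.smul_apply, smul_eq_mul, map_mul, map_inv₀, hi, inv_mul_le_iff₀ hM, mul_one]
    exact le_nrm v x j)
  have hn : nrm v (fun j => eval ((x i)⁻¹ • x) (h j)) =
      nrm v (fun j => eval x (h j)) / nrm v x ^ δ := by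
    unfold nrm
    rw [div_eq_mul_inv, Real.iSup_mul_of_nonneg (by positivity)]
    refine congrArg _ (funext fun j => ?_)
    rw [hev (h j) δ (hh j), div_eq_mul_inv]
    rfl
  rw [hue, hn, map_mul, map_mul, map_pow, map_pow, hev g e hg, hev R D hR,
    div_pow (nrm v fun j => eval x (h j))] at h2
  have h3 : ε ≤ v (eval x g) / nrm v x ^ e := (le_div_iff₀ (by positivity)).2 hgx
  have h4 : ε ^ E * (v (eval x R) / nrm v x ^ D) ≤
      C * (nrm v (fun j => eval x (h j)) ^ k / (nrm v x ^ δ) ^ k) :=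
    (mul_le_mul_of_nonneg_right (pow_le_pow_left₀ hε.le h3 E) (by positivity)).trans h2
  have h5 : nrm v x ^ (k * δ) = nrm v x ^ D * nrm v x ^ (k * δ - D) := by
    rw [← pow_add, Nat.add_sub_cancel' hD]
  have h6 : (nrm v x ^ δ) ^ k = nrm v x ^ (k * δ) := by
    rw [← pow_mul, mul_comm]
  rw [h6] at h4
  have h7 := mul_le_mul_of_nonneg_right h4 (pow_nonneg hM.le (k * δ))
  rw [mul_assoc C, div_mul_cancel₀ _ (by positivity), h5] at h7
  have h8 : ε ^ E * (v (eval x R) / nrm v x ^ D) * (nrm v x ^ D * nrm v x ^ (k * δ - D)) =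
      ε ^ E * (v (eval x R) * nrm v x ^ (k * δ - D)) := by
    field_simp
  rw [h8] at h7
  rw [div_mul_eq_mul_div, le_div_iff₀ (by positivity), mul_comm]
  exact h7

end Pool.Agent.Lib.MP_9ec2c5_av
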