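import Mathlib
import Pool.Agent.Lib.MP_9ec2c5_av.Defs
import Pool.Agent.Lib.MP_9ec2c5_av.Hid
import Pool.Agent.Lib.MP_9ec2c5_bp.Homog
import Pool.Agent.Lib.MP_9ec2c5_bp.ConjL
import Pool.Agent.Lib.MP_9ec2c5_bp.Seq

/-!
The points at infinity of an affine variety which are eventually mapped to indeterminacy.
-/

set_option autoImplicit false

namespace Pool.Agent.Lib.MP_9ec2c5_av

open MvPolynomial
open Pool.Agent.Lib.MP_9ec2c5_gen (iter)
open Pool.Agent.Lib.MP_9ec2c5_bp

variable {K : Type} [Field K] {s : ℕ}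

namespace QSeqAux

theorem seq_lead_hom (d : ℕ) (F : Fin s → MvPolynomial (Fin s) K) (n : ℕ) (i : Fin s) :
    (iter (lead d F) n i).IsHomogeneous (d ^ n) :=
  iter_hom _ d (fun _ => homogeneousComponent_isHomogeneous _ _) n i

theorem seq_zer (d : ℕ) (hd : 1 ≤ d) (F : Fin s → MvPolynomial (Fin s) K)
    (hF : ∀ i, (F i).totalDegree ≤ d) (n : ℕ)
    (x : Projectivization (AlgebraicClosure K) (Fin s → AlgebraicClosure K)) :
    (Fin.cons 0 x.rep : Fin (s + 1) → AlgebraicClosure K) ∈
      Zer (AlgebraicClosure K) (iter (hmap d F) n) ↔ x ∈ BadPoints d F n := by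
  constructor
  · intro h i
    rw [← hmap_infty d hd F hF n]
    exact h i.succ
  · intro h j
    refine Fin.cases ?_ (fun i => ?_) j
    · rw [hmap_zero_coord, Fin.cons_zero, zero_pow (by positivity)]
    · rw [hmap_infty d hd F hF n]
      exact h i

end QSeqAux

theorem finLinesQ (p : Ideal (MvPolynomial (Fin s) K)) (d : ℕ) (hd : 1 ≤ d)
    (F : Fin s → MvPolynomial (Fin s) K) (hF : ∀ i, (F i).totalDegree ≤ d) (n : ℕ)
    (h : (BadPoints d F n ∩ Infty p).Finite) :
    FinLines (Zer (AlgebraicClosure K) (iter (hmap d F) n) ∩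
      Cone (AlgebraicClosure K) (hid p)) := by
  classical
  refine ⟨insert 0 ((fun x => (Fin.cons 0 x.rep : Fin (s + 1) → AlgebraicClosure K)) ''
    (BadPoints d F n ∩ Infty p)), (h.image _).insert 0, fun x hx => ?_⟩
  obtain ⟨hx, hxc⟩ := hx
  have hx0 : x 0 = 0 := by
    have := hx 0
    rw [hmap_zero_coord] at this
    exact pow_eq_zero_iff (by positivity) |>.1 this
  set v : Fin s → AlgebraicClosure K := Fin.tail x with hv
  have hxv : x = Fin.cons 0 v := by
    rw [hv, ← hx0, Fin.cons_self_tail]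
  by_cases hv0 : v = 0
  · refine ⟨0, Set.mem_insert _ _, 0, ?_⟩
    rw [hxv, hv0, smul_zero]
    funext j
    refine Fin.cases ?_ (fun i => ?_) j <;> simp
  · obtain ⟨a, ha⟩ := Projectivization.exists_smul_eq_mk_rep (AlgebraicClosure K) v hv0
    have h2 : (a • v : Fin s → AlgebraicClosure K) = (a : AlgebraicClosure K) • v := rfl
    refine ⟨_, Set.mem_insert_of_mem _ ⟨Projectivization.mk (AlgebraicClosure K) v hv0,
      ⟨?_, ?_⟩, rfl⟩, ((a⁻¹ : (AlgebraicClosure K)ˣ) : AlgebraicClosure K), ?_⟩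
    · intro i
      rw [← ha]
      have h1 := aeval_smul_hom _ _ (QSeqAux.seq_lead_hom d F n i) (a : AlgebraicClosure K) v
      rw [h2, h1, ← hmap_infty d hd F hF n, ← hxv, hx i.succ, mul_zero]
    · intro f hf
      rw [← ha, h2, aeval_smul_hom _ _ (homogeneousComponent_isHomogeneous _ _)]
      rw [hxv, cons_zero_mem_cone] at hxc
      rw [hxc f hf, mul_zero]
    · rw [hxv]
      funext j
      refine Fin.cases ?_ (fun i => ?_) j
      · simp
      · simp only [Fin.cons_succ, Pi.smul_apply, smul_eq_mul]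
        rw [← ha]
        have h2 : (a • v : Fin s → AlgebraicClosure K) i = (a : AlgebraicClosure K) * v i := rfl
        rw [h2, ← mul_assoc, Units.inv_mul, one_mul]

theorem one_le_dim (p : Ideal (MvPolynomial (Fin s) K)) (hp : p.IsPrime) (N : ℕ)
    (hN : Algebra.trdeg K (MvPolynomial (Fin s) K ⧸ p) = N) (h : (Infty p).Nonempty) :
    1 ≤ N := by
  classical
  by_contra hcon
  have hN0 : N = 0 := by omega
  subst hN0
  obtain ⟨x, hx⟩ := h
  have hinj : Function.Injective (algebraMap K (MvPolynomial (Fin s) K ⧸ p)) := by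
    rw [IsScalarTower.algebraMap_eq K (MvPolynomial (Fin s) K) (MvPolynomial (Fin s) K ⧸ p)]
    exact RingHom.injective _
  have halg : Algebra.IsAlgebraic K (MvPolynomial (Fin s) K ⧸ p) := by
    have hf : FaithfulSMul K (MvPolynomial (Fin s) K ⧸ p) :=
      (faithfulSMul_iff_algebraMap_injective _ _).2 hinj
    rw [← trdeg_eq_zero_iff]
    simpa using hN
  apply x.rep_nonzero
  funext i
  obtain ⟨P, hP0, hP⟩ := halg.isAlgebraic (Ideal.Quotient.mk p (X i))
  -- the polynomial P (X i) is in p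
  set f : MvPolynomial (Fin s) K := Polynomial.aeval (X i) P with hf
  have hfp : f ∈ p := by
    rw [← Ideal.Quotient.eq_zero_iff_mem, ← hP, hf]
    have h1 := Polynomial.aeval_algHom_apply (Ideal.Quotient.mkₐ K p) (X i) P
    simpa using h1.symm
  have hcomp : ∀ m, homogeneousComponent m f = P.coeff m • (X i : MvPolynomial (Fin s) K) ^ m := by
    intro m
    rw [hf, Polynomial.aeval_eq_sum_range, map_sum]
    have h2 : ∀ k, homogeneousComponent m (P.coeff k • (X i : MvPolynomial (Fin s) K) ^ k) =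
        if m = k then P.coeff k • (X i : MvPolynomial (Fin s) K) ^ k else 0 := by
      intro k
      rw [homogeneousComponent_of_mem]
      rw [smul_eq_C_mul]
      simpa using (isHomogeneous_C (Fin s) (P.coeff k)).mul ((isHomogeneous_X K i).pow k)
    rw [Finset.sum_congr rfl (fun k _ => h2 k), Finset.sum_ite_eq]
    split_ifs with h3
    · rfl
    · rw [Polynomial.coeff_eq_zero_of_natDegree_lt (by simpa using h3), zero_smul]
  have hdeg : f.totalDegree = P.natDegree := by
    apply le_antisymm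
    · rw [hf, Polynomial.aeval_eq_sum_range]
      refine (totalDegree_finsetSum _ _).trans (Finset.sup_le fun k hk => ?_)
      rw [Finset.mem_range] at hk
      refine (totalDegree_smul_le _ _).trans ((totalDegree_X_pow _ _).le.trans (by omega))
    · by_contra hlt
      have h3 := hcomp P.natDegree
      rw [homogeneousComponent_eq_zero _ _ (not_le.1 hlt)] at h3
      have h4 : P.coeff P.natDegree ≠ 0 := Polynomial.leadingCoeff_ne_zero.2 hP0
      exact smul_ne_zero h4 (pow_ne_zero _ (X_ne_zero i)) h3.symm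
  have h5 := hx f hfp
  rw [hdeg, hcomp, map_smul, map_pow, aeval_X] at h5
  have h4 : P.coeff P.natDegree ≠ 0 := Polynomial.leadingCoeff_ne_zero.2 hP0
  rcases smul_eq_zero.1 h5 with h6 | h6
  · exact absurd h6 h4
  · exact eq_zero_of_pow_eq_zero h6

/-- infinitely many pairwise non-conjugate points at infinity eventually mapped to
indeterminacy -/
theorem exists_seqQ (p : Ideal (MvPolynomial (Fin s) K)) (d : ℕ) (hd : 1 ≤ d)
    (F : Fin s → MvPolynomial (Fin s) K) (hF : ∀ i, (F i).totalDegree ≤ d)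
    (hfin : ∀ n, (BadPoints d F n ∩ Infty p).Finite)
    (hinf : (⋃ n, BadPoints d F n ∩ Infty p).Infinite) :
    ∃ (q : ℕ → Fin (s + 1) → AlgebraicClosure K) (j : ℕ → ℕ), (∀ i, q i ≠ 0) ∧
      (∀ i, q i ∈ Cone (AlgebraicClosure K) (hid p)) ∧
      (∀ i, q i ∈ Zer (AlgebraicClosure K) (iter (hmap d F) (j i))) ∧
      ∀ i i', i ≠ i' → ∀ x, Below K (q i) x → Below K (q i') x → x = 0 := by
  classical
  have hstep : ∀ n, ∃ m, n < m ∧ ∃ x, x ∈ Infty p ∧ x ∈ BadPoints d F m ∧
      x ∉ BadPoints d F n := by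
    intro n
    obtain ⟨x, hx, hxn⟩ := hinf.exists_notMem_finite (hfin n)
    obtain ⟨m, hm, hmi⟩ := Set.mem_iUnion.1 hx
    exact ⟨max m (n + 1), by omega, x, hmi, badPoints_mono d hd F _ _ (le_max_left _ _) hm,
      fun h => hxn ⟨h, hmi⟩⟩
  choose m hm x hx0 hx1 hx2 using hstep
  set n : ℕ → ℕ := fun i => m^[i] 0 with hn
  have hns : ∀ i, n (i + 1) = m (n i) := fun i => Function.iterate_succ_apply' m i 0
  have hmono : StrictMono n := strictMono_nat_of_lt_succ fun i => by
    rw [hns]
    exact hm _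
  have hq0 : ∀ i, (Fin.cons 0 (x (n i)).rep : Fin (s + 1) → AlgebraicClosure K) ≠ 0 := by
    intro i h
    apply (x (n i)).rep_nonzero
    funext j
    have := congrFun h j.succ
    simpa using this
  -- the ordered case
  have key : ∀ i i', i < i' → ∀ y : Fin (s + 1) → AlgebraicClosure K,
      Below K (Fin.cons 0 (x (n i)).rep : Fin (s + 1) → AlgebraicClosure K) y →
      Below K (Fin.cons 0 (x (n i')).rep : Fin (s + 1) → AlgebraicClosure K) y → y = 0 := by
    intro i i' hii y h1 h2
    by_contra hy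
    have h3 := below_symm _ _ (hq0 i') hy h2
    have h4 : x (n i) ∈ BadPoints d F (n i') := by
      have := hx1 (n i)
      rw [← hns] at this
      exact badPoints_mono d hd F _ _ (hmono.monotone (by omega)) this
    have h5 := (QSeqAux.seq_zer d hd F hF (n i') (x (n i))).2 h4
    apply hx2 (n i')
    rw [← QSeqAux.seq_zer d hd F hF (n i')]
    intro j
    have hhom := iter_hom (hmap d F) d (hmap_hom d F hF) (n i') j
    exact h3 _ _ hhom (h1 _ _ hhom (h5 j))
  refine ⟨fun i => Fin.cons 0 (x (n i)).rep, fun i => n (i + 1), hq0, fun i => ?_,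
    fun i => ?_, fun i i' hii y h1 h2 => ?_⟩
  · rw [cons_zero_mem_cone]
    exact hx0 (n i)
  · rw [QSeqAux.seq_zer d hd F hF]
    have := hx1 (n i)
    rwa [← hns] at this
  · rcases lt_or_gt_of_ne hii with h | h
    · exact key i i' h y h1 h2
    · exact key i' i h y h2 h1

end Pool.Agent.Lib.MP_9ec2c5_av
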