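import Mathlib
import Pool.Agent.Lib.MP_9ec2c5_av.Defs
import Pool.Agent.Lib.MP_9ec2c5_bp.Homog
import Pool.Agent.Lib.MP_9ec2c5_av.Hid
import Pool.Agent.Lib.MP_9ec2c5_av.QSeq
import Pool.Agent.Lib.MP_9ec2c5_av.QAux
import Pool.Agent.Lib.MP_9ec2c5_av.QLocal
import Pool.Agent.Lib.MP_9ec2c5_bp.Sep
import Pool.Agent.Lib.MP_9ec2c5_bp.Compare
import Pool.Agent.Lib.MP_9ec2c5_gen.Glob

/-!
The height inequality along an orbit of an affine variety, outside of a proper closed subset.
-/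

set_option autoImplicit false

namespace Pool.Agent.Lib.MP_9ec2c5_av

open MvPolynomial
open Pool.Agent.Lib.MP_9ec2c5_gen (iter)
open Pool.Agent.Lib.MP_9ec2c5_bp

open Filter Topology Height AdmissibleAbsValues

/-- norms of scaled powers -/
lemma globQ_nrm {K : Type} [Field K] {M : ℕ} (v : AbsoluteValue K ℝ) (c : K)
    (x : Fin (M + 1) → K) (n : ℕ) : nrm v (c • x ^ n) = v c * nrm v x ^ n := by
  rw [nrm, nrm]
  have h1 : (fun i => v ((c • x ^ n) i)) = fun i => v c * v (x i) ^ n := by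
    funext i
    rw [Pi.smul_apply, smul_eq_mul, Pi.pow_apply, map_mul, map_pow]
  have h2 : (⨆ i, v ((c • x ^ n) i)) = ⨆ i, v c * v (x i) ^ n := congrArg iSup h1
  rw [h2, ← Real.mul_iSup_of_nonneg (v.nonneg c), Real.iSup_pow (fun i => v.nonneg _)]

/-- the norm of an integral point of the affine space -/
lemma globQ_nrm_one {K : Type} [Field K] {N : ℕ} (v : AbsoluteValue K ℝ) (x : Fin N → K)
    (h : ∀ i, v (x i) ≤ 1) : nrm v (Fin.cons 1 x : Fin (N + 1) → K) = 1 := by
  rw [nrm]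
  refine le_antisymm (ciSup_le fun i => ?_) ?_
  · refine Fin.cases ?_ (fun i => ?_) i
    · rw [Fin.cons_zero, map_one]
    · rw [Fin.cons_succ]
      exact h i
  · refine le_ciSup_of_le (Set.finite_range _).bddAbove 0 ?_
    rw [Fin.cons_zero, map_one]

/-- local estimates at a place for finitely many auxiliary forms -/
lemma globQ_local {K : Type} [Field K] {N r : ℕ}
    (Q : Ideal (MvPolynomial (Fin (N + 1)) K)) (hQh : IsHom Q) (v : AbsoluteValue K ℝ) (δ : ℕ)
    (h : Fin (N + 1) → MvPolynomial (Fin (N + 1)) K) (hh : ∀ i, (h i).IsHomogeneous δ)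
    (𝒢 : Fin r → Finset (ℕ × MvPolynomial (Fin (N + 1)) K))
    (h𝒢 : ∀ i, ∀ g ∈ 𝒢 i, g.2.IsHomogeneous g.1)
    (hε : ∃ ε : ℝ, 0 < ε ∧ ∀ i i', i ≠ i' → ∀ x : Fin (N + 1) → K, x ≠ 0 →
        (∃ g ∈ 𝒢 i, ε * nrm v x ^ g.1 ≤ v (eval x g.2)) ∨
        (∃ g ∈ 𝒢 i', ε * nrm v x ^ g.1 ≤ v (eval x g.2)))
    (k D : Fin r → ℕ) (R : Fin r → MvPolynomial (Fin (N + 1)) K)
    (hD : ∀ i, D i ≤ k i * δ) (hR : ∀ i, (R i).IsHomogeneous (D i))
    (hRg : ∀ i, ∀ g ∈ 𝒢 i, ∃ E : ℕ, g.2 ^ E * R i ∈ Ideal.span (Set.range h) ^ k i ⊔ Q) :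
    ∃ C : ℝ, 0 ≤ C ∧ ∀ x : Fin (N + 1) → K, x ≠ 0 → (∀ f ∈ Q, eval x f = 0) →
      ∀ i i', i ≠ i' →
      (v (eval x (R i)) * nrm v x ^ (k i * δ - D i) ≤
        C * nrm v (fun l => eval x (h l)) ^ k i) ∨
      (v (eval x (R i')) * nrm v x ^ (k i' * δ - D i') ≤
        C * nrm v (fun l => eval x (h l)) ^ k i') := by
  classical
  obtain ⟨ε, hε0, hε⟩ := hε
  have hex : ∀ (i : Fin r) (g : ℕ × MvPolynomial (Fin (N + 1)) K), ∃ C : ℝ, 0 ≤ C ∧
      (g ∈ 𝒢 i → ∀ x : Fin (N + 1) → K, x ≠ 0 → (∀ f ∈ Q, eval x f = 0) →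
        ε * nrm v x ^ g.1 ≤ v (eval x g.2) →
        v (eval x (R i)) * nrm v x ^ (k i * δ - D i) ≤
          C * nrm v (fun l => eval x (h l)) ^ k i) := by
    intro i g
    by_cases hg : g ∈ 𝒢 i
    · obtain ⟨E, hE⟩ := hRg i g hg
      obtain ⟨C, hC, h1⟩ := local_estQ Q hQh v δ h hh (k i) (D i) (hD i) (R i) (hR i) g.1 E g.2
        (h𝒢 i g hg) hE ε hε0
      exact ⟨C, hC, fun _ => h1⟩
    · exact ⟨0, le_refl _, fun h => absurd h hg⟩
  choose C hC hCx using hex
  have hCle : ∀ i, ∀ g ∈ 𝒢 i, C i g ≤ ∑ i, ∑ g ∈ 𝒢 i, C i g := by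
    intro i g hg
    refine le_trans (Finset.single_le_sum (f := fun g => C i g) (fun g _ => hC i g) hg) ?_
    exact Finset.single_le_sum (f := fun i => ∑ g ∈ 𝒢 i, C i g)
      (fun i _ => Finset.sum_nonneg fun g _ => hC i g) (Finset.mem_univ i)
  have hnn : ∀ x : Fin (N + 1) → K, ∀ n, 0 ≤ nrm v (fun l => eval x (h l)) ^ n := by
    intro x n
    exact pow_nonneg (Real.iSup_nonneg fun i => v.nonneg _) n
  refine ⟨∑ i, ∑ g ∈ 𝒢 i, C i g, Finset.sum_nonneg fun i _ => Finset.sum_nonneg fun g _ => hC i g,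
    fun x hx hxQ i i' hii => ?_⟩
  rcases hε i i' hii x hx with ⟨g, hg, h1⟩ | ⟨g, hg, h1⟩
  · left
    exact (hCx i g hg x hx hxQ h1).trans (mul_le_mul_of_nonneg_right (hCle i g hg) (hnn x _))
  · right
    exact (hCx i' g hg x hx hxQ h1).trans (mul_le_mul_of_nonneg_right (hCle i' g hg) (hnn x _))

theorem globalQ {K : Type} [Field K] [NumberField K] {s : ℕ}
    (p : Ideal (MvPolynomial (Fin s) K)) (hp : p.IsPrime) (N : ℕ)
    (hN : Algebra.trdeg K (MvPolynomial (Fin s) K ⧸ p) = N) (hN1 : 1 ≤ N) (d : ℕ) (hd : 2 ≤ d)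
    (F : Fin s → MvPolynomial (Fin s) K) (hF : ∀ i, (F i).totalDegree ≤ d)
    (hfin : ∀ n, (BadPoints d F n ∩ Infty p).Finite)
    (hinf : (⋃ n, BadPoints d F n ∩ Infty p).Infinite)
    (P : ℕ → Fin s → K) (hP : ∀ n i, P (n + 1) i = eval (P n) (F i))
    (hPp : ∀ n, ∀ f ∈ p, eval (P n) f = 0) :
    ∃ (c : ℝ) (L0 : ℕ), 0 < c ∧ ∀ L, L0 ≤ L → ∃ (C : ℝ) (R : MvPolynomial (Fin s) K), R ∉ p ∧
      ∀ n, eval (P n) R ≠ 0 →
        c * (d : ℝ) ^ L * logHeight (Fin.cons 1 (P n) : Fin (s + 1) → K) - C ≤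
          logHeight (Fin.cons 1 (P (n + L)) : Fin (s + 1) → K) := by
  classical
  obtain ⟨q, j, hq0, hqQ, hqj, hsep⟩ := exists_seqQ p d (by omega) F hF hfin hinf
  have hQp := hid_prime p hp
  have hQh := hid_isHom p
  have hQN := trdeg_hid p hp N hN
  obtain ⟨S0, hS0, hgood⟩ := Pool.Agent.Lib.MP_9ec2c5_gen.gb_good_places F P hP
  -- the bad places
  set PS : Finset (AbsoluteValue K ℝ) :=
    (archAbsVal (K := K)).toFinset ∪ (hS0.toFinset.image Subtype.val) with hPS
  set r := PS.card + 1 with hr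
  obtain ⟨𝒢, h𝒢, hε⟩ := sep (Ω := AlgebraicClosure K) (fun i : Fin r => q i)
    (fun i i' hii p => hsep i i' (fun h => hii (Fin.ext h)) p)
  have haux := fun i : Fin r => exists_auxQ (Ω := AlgebraicClosure K) (hid p) hQp hQh hQN hN1 d
    hd (hmap d F) (hmap_hom d F hF) (fun n => finLinesQ p d (by omega) F hF n (hfin n)) (q i)
    (hq0 i) (hqQ i) (j i) (hqj i)
  choose a ha2 haux using haux
  have hapos : 0 < ∑ i : Fin r, (a i : ℝ) := by
    refine Finset.sum_pos (fun i _ => ?_) ⟨⟨0, by omega⟩, Finset.mem_univ _⟩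
    have := ha2 i
    exact_mod_cast (by omega : 0 < a i)
  have hale : ∀ i, (a i : ℝ) ≤ ∑ i : Fin r, (a i : ℝ) := fun i =>
    Finset.single_le_sum (f := fun i : Fin r => (a i : ℝ)) (fun i _ => Nat.cast_nonneg _)
      (Finset.mem_univ i)
  refine ⟨1 / ∑ i : Fin r, (a i : ℝ), Finset.univ.sup (fun i : Fin r => j i),
    one_div_pos.mpr hapos, fun L hL => ?_⟩
  have hjL : ∀ i : Fin r, j i ≤ L := fun i =>
    (Finset.le_sup (f := fun i : Fin r => j i) (Finset.mem_univ i)).trans hL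
  have haux2 := fun i : Fin r => haux i L (hjL i)
  choose k D R hk hkD hR0 hR hRg using haux2
  set h := iter (hmap d F) L with hh
  have hhom : ∀ i, (h i).IsHomogeneous (d ^ L) := iter_hom _ d (hmap_hom d F hF) L
  have hD : ∀ i, D i ≤ k i * d ^ L := by
    intro i
    have h1 := hkD i
    have h2 := ha2 i
    by_contra hcon
    push Not at hcon
    have h3 : (a i - 1) * (k i * d ^ L) ≤ a i * (k i * d ^ L) :=
      Nat.mul_le_mul_right _ (Nat.sub_le _ _)
    have h4 : a i * (k i * d ^ L) < a i * D i := Nat.mul_lt_mul_of_pos_left hcon (by omega)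
    omega
  -- local estimates
  have hloc := fun v : AbsoluteValue K ℝ => globQ_local (hid p) hQh v (d ^ L) h hhom 𝒢
    (fun i g hg => (h𝒢 i g hg).1) (hε v) k D R hD hR
    (fun i g hg => hRg i g.1 g.2 (h𝒢 i g hg).1 (h𝒢 i g hg).2)
  choose Cv hCv hloc using hloc
  -- integrality of the auxiliary forms
  obtain ⟨S1, hS1, hS1'⟩ := Pool.Agent.Lib.MP_9ec2c5_gen.gb_finite_coeff Finset.univ R
  obtain ⟨CB, hCB⟩ : ∃ CB : AbsoluteValue K ℝ → ℝ, ∀ v, 0 ≤ CB v ∧ ∀ i, ∀ s,
      v (coeff s (R i)) ≤ CB v := by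
    have hex : ∀ v : AbsoluteValue K ℝ, ∃ c : ℝ, 0 ≤ c ∧ ∀ i, ∀ s,
        v (coeff s (R i)) ≤ c := by
      intro v
      refine ⟨∑ i, ∑ s ∈ (R i).support, v (coeff s (R i)),
        Finset.sum_nonneg fun i _ => Finset.sum_nonneg fun s _ => v.nonneg _, fun i s => ?_⟩
      by_cases hs : s ∈ (R i).support
      · refine le_trans (Finset.single_le_sum (f := fun s => v (coeff s (R i)))
          (fun b _ => v.nonneg _) hs) ?_
        exact Finset.single_le_sum (f := fun i => ∑ s ∈ (R i).support, v (coeff s (R i)))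
          (fun i _ => Finset.sum_nonneg fun s _ => v.nonneg _) (Finset.mem_univ i)
      · rw [notMem_support_iff] at hs
        rw [hs, map_zero]
        exact Finset.sum_nonneg fun i _ => Finset.sum_nonneg fun s _ => v.nonneg _
    choose CB hCB using hex
    exact ⟨CB, hCB⟩
  obtain ⟨C1, hC1, hcomp⟩ := compare (K := K) (S0 ∪ S1) (hS0.union hS1)
    (fun v => 1 + Cv v + CB v) (fun v => by
      have h1 := hCv v
      have h2 := (hCB v).1
      linarith)
  refine ⟨C1, ∏ i, dehom (R i), ?_, fun n hn => ?_⟩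
  · intro h0
    obtain ⟨i, -, h1⟩ := (hp.prod_mem_iff).mp h0
    exact hR0 i ((mem_hid_hom p (R i) (D i) (hR i)).mpr h1)
  · rw [map_prod, Finset.prod_ne_zero_iff] at hn
    set x : Fin (s + 1) → K := Fin.cons 1 (P n) with hx
    have hx0 : x ≠ 0 := by
      intro h0
      have h1 := congrFun h0 0
      rw [hx, Fin.cons_zero] at h1
      exact one_ne_zero h1
    have hxQ : ∀ f ∈ hid p, eval x f = 0 := fun f hf => eval_hid p (P n) (hPp n) f hf
    have hRx : ∀ i, eval x (R i) ≠ 0 := by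
      intro i
      have h1 := hn i (Finset.mem_univ i)
      rwa [eval_dehom] at h1
    have hhx : (fun l => eval x (h l)) = (Fin.cons 1 (P (n + L)) : Fin (s + 1) → K) := by
      funext l
      exact hmap_orbit d F P hP n L l
    -- the pigeonhole principle
    obtain ⟨i, hi⟩ : ∃ i : Fin r, ∀ v ∈ PS,
        v (eval x (R i)) * nrm v x ^ (k i * d ^ L - D i) ≤
          Cv v * nrm v (fun l => eval x (h l)) ^ k i := by
      by_contra hcon
      push Not at hcon
      set Bad : AbsoluteValue K ℝ → Finset (Fin r) := fun v => Finset.univ.filter fun i =>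
        Cv v * nrm v (fun l => eval x (h l)) ^ k i <
          v (eval x (R i)) * nrm v x ^ (k i * d ^ L - D i) with hBad
      have h1 : (Finset.univ : Finset (Fin r)) ⊆ PS.biUnion Bad := by
        intro i _
        obtain ⟨v, hv, h2⟩ := hcon i
        rw [Finset.mem_biUnion]
        exact ⟨v, hv, Finset.mem_filter.mpr ⟨Finset.mem_univ _, h2⟩⟩
      have h2 : ∀ v ∈ PS, (Bad v).card ≤ 1 := by
        intro v _
        rw [Finset.card_le_one]
        intro i hi i' hi'
        by_contra hii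
        rw [hBad, Finset.mem_filter] at hi hi'
        rcases hloc v x hx0 hxQ i i' hii with h3 | h3
        · exact absurd h3 (not_le.mpr hi.2)
        · exact absurd h3 (not_le.mpr hi'.2)
      have h3 := Finset.card_le_card h1
      have h4 : (PS.biUnion Bad).card ≤ PS.card * 1 := Finset.card_biUnion_le_card_mul _ _ _ h2
      rw [Finset.card_univ, Fintype.card_fin] at h3
      omega
    -- the two vectors
    have hy0 : (eval x (R i) • x ^ (k i * d ^ L - D i) : Fin (s + 1) → K) ≠ 0 := by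
      intro h0
      have h1 := congrFun h0 0
      rw [Pi.smul_apply, Pi.pow_apply, hx, Fin.cons_zero, one_pow, smul_eq_mul, mul_one] at h1
      exact hRx i h1
    have hz0 : (1 : K) • (fun l => eval x (h l)) ^ k i ≠ 0 := by
      intro h0
      have h1 := congrFun h0 0
      rw [hhx, Pi.smul_apply, Pi.pow_apply, Fin.cons_zero, one_pow, smul_eq_mul, mul_one] at h1
      exact one_ne_zero h1
    have hone : ∀ v : AbsoluteValue K ℝ,
        nrm v ((1 : K) • (fun l => eval x (h l)) ^ k i) = nrm v (fun l => eval x (h l)) ^ k i := by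
      intro v
      rw [globQ_nrm, map_one, one_mul]
    have hnn : ∀ v : AbsoluteValue K ℝ, 0 ≤ nrm v (fun l => eval x (h l)) ^ k i := fun v =>
      pow_nonneg (Real.iSup_nonneg fun i => v.nonneg _) _
    have hPSv : ∀ v ∈ PS, nrm v (eval x (R i) • x ^ (k i * d ^ L - D i)) ≤
        (1 + Cv v + CB v) * nrm v ((1 : K) • (fun l => eval x (h l)) ^ k i) := by
      intro v hv
      rw [globQ_nrm, hone]
      refine (hi v hv).trans (mul_le_mul_of_nonneg_right ?_ (hnn v))
      have h1 := (hCB v).1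
      linarith
    have hnon : ∀ v : nonarchAbsVal (K := K), v ∉ S0 → ∀ B : ℝ, 0 ≤ B →
        (∀ s, v.val (coeff s (R i)) ≤ B) →
        nrm v.val (eval x (R i) • x ^ (k i * d ^ L - D i)) ≤ B ∧
          nrm v.val ((1 : K) • (fun l => eval x (h l)) ^ k i) = 1 := by
      intro v hv B hB hBc
      have hna : IsNonarchimedean v.val := isNonarchimedean v.val v.property
      have h1 : nrm v.val x = 1 := globQ_nrm_one v.val (P n) (hgood v hv n)
      have h2 : nrm v.val (fun l => eval x (h l)) = 1 := by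
        rw [hhx]
        exact globQ_nrm_one v.val (P (n + L)) (hgood v hv (n + L))
      rw [globQ_nrm, hone, h1, h2, one_pow, one_pow, mul_one]
      refine ⟨?_, rfl⟩
      refine Pool.Agent.Lib.MP_9ec2c5_gen.gb_value_integral v.val hna (R i) x B hB hBc ?_
      intro l
      rw [hx]
      refine Fin.cases ?_ (fun l => ?_) l
      · rw [Fin.cons_zero, map_one]
      · rw [Fin.cons_succ]
        exact hgood v hv n l
    have h1 : logHeight (eval x (R i) • x ^ (k i * d ^ L - D i) : Fin (s + 1) → K) ≤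
        C1 + logHeight ((1 : K) • (fun l => eval x (h l)) ^ k i : Fin (s + 1) → K) := by
      refine hcomp _ _ _ _ hy0 hz0 (fun v hv => ?_) (fun v hv => ?_) (fun v hv => ?_)
      · refine hPSv v ?_
        rw [hPS, Finset.mem_union, Multiset.mem_toFinset]
        exact Or.inl hv
      · by_cases hv0 : v ∈ S0
        · refine hPSv v.val ?_
          rw [hPS, Finset.mem_union, Finset.mem_image]
          exact Or.inr ⟨v, hS0.mem_toFinset.mpr hv0, rfl⟩
        · obtain ⟨h2, h3⟩ := hnon v hv0 (CB v.val) (hCB v.val).1 ((hCB v.val).2 i)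
          rw [h3, mul_one]
          have h4 := hCv v.val
          linarith
      · rw [Set.mem_union, not_or] at hv
        obtain ⟨h2, h3⟩ := hnon v hv.1 1 zero_le_one (fun s => hS1' v hv.2 i (Finset.mem_univ _) s)
        rw [h3]
        exact h2
    rw [logHeight_smul_eq_logHeight _ (hRx i), logHeight_pow, one_smul, logHeight_pow, hhx] at h1
    have hk1 : (1 : ℝ) ≤ k i := by exact_mod_cast hk i
    have hx1 : 0 ≤ logHeight x := logHeight_nonneg _
    have ha1 : (0 : ℝ) < a i := by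
      have := ha2 i
      exact_mod_cast (by omega : 0 < a i)
    have h2 : ((k i * d ^ L - D i : ℕ) : ℝ) = k i * (d : ℝ) ^ L / a i := by
      rw [Nat.cast_sub (hD i), eq_div_iff ha1.ne']
      have h3 := hkD i
      have h4 : ((a i * D i : ℕ) : ℝ) = (((a i - 1) * (k i * d ^ L) : ℕ) : ℝ) := by rw [h3]
      have h5 := ha2 i
      rw [Nat.cast_mul, Nat.cast_mul, Nat.cast_sub (by omega), Nat.cast_one, Nat.cast_mul,
        Nat.cast_pow] at h4
      rw [Nat.cast_mul, Nat.cast_pow]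
      linarith
    rw [h2] at h1
    have h3 : 1 / (∑ i : Fin r, (a i : ℝ)) ≤ 1 / a i := one_div_le_one_div_of_le ha1 (hale i)
    have hdL : (0 : ℝ) ≤ (d : ℝ) ^ L * logHeight x := by positivity
    have h4 : 1 / (∑ i : Fin r, (a i : ℝ)) * ((d : ℝ) ^ L * logHeight x) ≤
        1 / a i * ((d : ℝ) ^ L * logHeight x) := mul_le_mul_of_nonneg_right h3 hdL
    have h5 : (k i : ℝ) * (1 / a i * ((d : ℝ) ^ L * logHeight x)) ≤
        C1 + k i * logHeight (Fin.cons 1 (P (n + L)) : Fin (s + 1) → K) := by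
      refine le_trans (le_of_eq ?_) h1
      ring
    have h6 : C1 ≤ k i * C1 := le_mul_of_one_le_left hC1 hk1
    have h7 : (k i : ℝ) * (1 / a i * ((d : ℝ) ^ L * logHeight x)) ≤
        k i * (C1 + logHeight (Fin.cons 1 (P (n + L)) : Fin (s + 1) → K)) := by
      rw [mul_add]
      linarith
    have h8 := le_of_mul_le_mul_left h7 (by linarith)
    rw [mul_assoc]
    linarith

end Pool.Agent.Lib.MP_9ec2c5_av
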