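import Mathlib
import Pool.Agent.Lib.MP_9ec2c5_av.Defs
import Pool.Agent.Lib.MP_9ec2c5_bp.Homog
import Pool.Agent.Lib.MP_9ec2c5_bp.Grow
import Pool.Agent.Lib.MP_9ec2c5_bp.Compare
import Pool.Agent.Lib.MP_9ec2c5_av.QSeq
import Pool.Agent.Lib.MP_9ec2c5_av.QDeg
import Pool.Agent.Lib.MP_9ec2c5_av.QGlobal
import Pool.Agent.Lib.MP_9ec2c5_av.QFL
import Pool.Agent.Lib.MP_9ec2c5_av.QRet

/-!
The Kawaguchi-Silverman conjecture for endomorphisms of affine varieties with finite but unbounded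
sets of bad points at infinity.
-/

set_option autoImplicit false

namespace Pool.Agent.Lib.MP_9ec2c5_av

open MvPolynomial
open Pool.Agent.Lib.MP_9ec2c5_gen (iter weilHeight)
open Pool.Agent.Lib.MP_9ec2c5_bp

open Filter Topology Height AdmissibleAbsValues

theorem height_upperQ {K : Type} [Field K] [NumberField K] {N : ℕ} (d : ℕ) (hd : 2 ≤ d)
    (F : Fin N → MvPolynomial (Fin N) K) (hF : ∀ i, (F i).totalDegree ≤ d)
    (P : ℕ → Fin N → K) (hP : ∀ n i, P (n + 1) i = eval (P n) (F i)) :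
    ∃ M : ℝ, ∀ n, logHeight (Fin.cons 1 (P n) : Fin (N + 1) → K) ≤ M * (d : ℝ) ^ n := by
  obtain ⟨C, hC⟩ := logHeight_eval_le' (hmap_hom d F hF)
  set C' : ℝ := max C 0 with hC'
  have hC0 : 0 ≤ C' := le_max_right _ _
  set a : ℕ → ℝ := fun n => logHeight (Fin.cons 1 (P n) : Fin (N + 1) → K) with ha
  have ha0 : ∀ n, 0 ≤ a n := fun n => logHeight_nonneg _
  have hstep : ∀ n, a (n + 1) ≤ C' + d * a n := by
    intro n
    have h1 := hC (Fin.cons 1 (P n))
    have h2 : (fun j => eval (Fin.cons 1 (P n) : Fin (N + 1) → K) (hmap d F j)) =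
        Fin.cons 1 (P (n + 1)) := by
      funext j
      refine Fin.cases ?_ (fun i => ?_) j
      · rw [hmap, Fin.cons_zero, Fin.cons_zero, map_pow, eval_X, Fin.cons_zero, one_pow]
      · rw [hmap, Fin.cons_succ, Fin.cons_succ, hz_eval, hP]
    rw [h2] at h1
    exact h1.trans (by gcongr; exact le_max_left _ _)
  have hd2 : (2 : ℝ) ≤ d := by exact_mod_cast hd
  refine ⟨a 0 + C', ?_⟩
  have key : ∀ n, a n + C' ≤ (a 0 + C') * (d : ℝ) ^ n := by
    intro n
    induction n with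
    | zero => rw [pow_zero, mul_one]
    | succ n ih =>
      have h1 := hstep n
      have h2 : 0 ≤ C' * (d - 2) := mul_nonneg hC0 (by linarith)
      calc a (n + 1) + C' ≤ d * (a n + C') := by linarith
        _ ≤ d * ((a 0 + C') * (d : ℝ) ^ n) := mul_le_mul_of_nonneg_left ih (by linarith)
        _ = _ := by rw [pow_succ]; ring
  intro n
  have := key n
  linarith

theorem arithmetic_degreeQ {K : Type} [Field K] [NumberField K] (s d : ℕ)
    (p : Ideal (MvPolynomial (Fin s) K)) (F : Fin s → MvPolynomial (Fin s) K) (hp : p.IsPrime)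
    (hFp : ∀ f ∈ p, bind₁ F f ∈ p) (hd : 2 ≤ d) (hF : ∀ i, (F i).totalDegree ≤ d)
    (hfin : ∀ n, (BadPoints d F n ∩ Infty p).Finite)
    (hinf : (⋃ n, BadPoints d F n ∩ Infty p).Infinite)
    (hfib : Algebra.trdeg K (MvPolynomial (Fin s) K ⧸ p) = 2 ∨
      {y : Fin s → AlgebraicClosure K |
        {x : Fin s → AlgebraicClosure K | (∀ f ∈ p, aeval x f = 0) ∧
          ∀ i, aeval x (F i) = y i}.Infinite}.Finite) :
    (∀ n, iterDegOn p F n = d ^ n) ∧
    ∀ P : ℕ → Fin s → K, (∀ n i, P (n + 1) i = eval (P n) (F i)) →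
      (∀ n, ∀ f ∈ p, eval (P n) f = 0) →
      (∀ R : MvPolynomial (Fin s) K, (∀ n, eval (P n) R = 0) → R ∈ p) →
      Tendsto (fun n : ℕ => weilHeight (P n) ^ (1 / (n : ℝ))) atTop (𝓝 (d : ℝ)) := by
  have hsub : (⋃ n, BadPoints d F n ∩ Infty p) ⊆ Infty p :=
    Set.iUnion_subset fun n => Set.inter_subset_right
  have hInf : (Infty p).Infinite := hinf.mono hsub
  have hdom : IsDomain (MvPolynomial (Fin s) K ⧸ p) := Ideal.Quotient.isDomain p
  obtain ⟨N, hN⟩ : ∃ N : ℕ, Algebra.trdeg K (MvPolynomial (Fin s) K ⧸ p) = N :=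
    Cardinal.lt_aleph0.mp trdeg_lt_aleph0_of_finiteType
  have hN1 : 1 ≤ N := one_le_dim p hp N hN hInf.nonempty
  have hfib' : N = 2 ∨ {y : Fin s → AlgebraicClosure K |
        {x : Fin s → AlgebraicClosure K | (∀ f ∈ p, aeval x f = 0) ∧
          ∀ i, aeval x (F i) = y i}.Infinite}.Finite := by
    rcases hfib with h | h
    · left
      rw [hN] at h
      exact_mod_cast h
    · exact Or.inr h
  refine ⟨fun n => iterDegOn_eq p d (by omega) F hF n (hfin n) hInf, fun P hP hPp hdense => ?_⟩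
  have hinj := injectiveQ p hp N hN hN1 F P hP hPp hdense
  obtain ⟨c, L0, hc, hglob⟩ := globalQ p hp N hN hN1 d hd F hF hfin hinf P hP hPp
  obtain ⟨c0, C0, n0, hc0, hc1, hFL⟩ := flQ p hp N hN hN1 F hFp P hP hPp hdense hfib'
  obtain ⟨M, hM⟩ := height_upperQ d hd F hF P hP
  have hlow : ∀ ρ : ℝ, 0 < ρ → ρ < d → ∀ᶠ n in atTop,
      ρ ^ n ≤ logHeight (Fin.cons 1 (P n) : Fin (s + 1) → K) := by
    intro ρ hρ hρd
    refine grow (fun n => logHeight (Fin.cons 1 (P n) : Fin (s + 1) → K)) d hd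
      (height_tendsto P hinj) c0 C0 n0 hc0 hc1 hFL c hc L0 (fun L hL => ?_) ρ hρ hρd
    obtain ⟨C, R, hR, h1⟩ := hglob L hL
    refine ⟨C, {n | eval (P n) R = 0}, fun δ hδ => ?_, fun n hn => h1 n hn⟩
    exact ret_polyQ p hp N hN hN1 F hFp P hP hPp hdense R hR δ hδ
  have hfr : (0 : ℝ) < Module.finrank ℚ K := by
    exact_mod_cast Module.finrank_pos
  exact root_tendsto (fun n => logHeight (Fin.cons 1 (P n) : Fin (s + 1) → K)) d hd M hM
    hlow (Module.finrank ℚ K) hfr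

end Pool.Agent.Lib.MP_9ec2c5_av
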