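import Mathlib
import Pool.Agent.Lib.MP_9ec2c5_av.QFinal
import Pool.Agent.Lib.MP_9ec2c5_av.QExample

/-!
The Kawaguchi-Silverman conjecture for affine varieties: the conditions of the theorem.
-/

set_option autoImplicit false

namespace Pool.Agent.Lib.MP_9ec2c5_av

open MvPolynomial Filter Topology
open Pool.Agent.Lib.MP_9ec2c5_gen (weilHeight)
open Pool.Agent.Lib.MP_9ec2c5_bp

variable {K : Type} [Field K] {s : ℕ}

/-- `F` is a polynomial map of degree at most `d` of affine space, which maps the zero set of the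
ideal `p` to itself. -/
def IsMapOn (d : ℕ) (p : Ideal (MvPolynomial (Fin s) K)) (F : Fin s → MvPolynomial (Fin s) K) :
    Prop :=
  (∀ i, (F i).totalDegree ≤ d) ∧ ∀ f ∈ p, bind₁ F f ∈ p

/-- For every `n` only finitely many points at infinity of the projective closure of the zero set
of `p` are zeros of the leading forms of the `n`-th iterate of `F`, but infinitely many points are
such zeros for some `n`. -/
def FewBadPoints (d : ℕ) (p : Ideal (MvPolynomial (Fin s) K))
    (F : Fin s → MvPolynomial (Fin s) K) : Prop :=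
  (∀ n, (BadPoints d F n ∩ Infty p).Finite) ∧ (⋃ n, BadPoints d F n ∩ Infty p).Infinite

/-- All but finitely many of the fibres of `F` on the zero set of `p` (over the algebraic closure)
are finite. -/
def FewInfiniteFibres (p : Ideal (MvPolynomial (Fin s) K))
    (F : Fin s → MvPolynomial (Fin s) K) : Prop :=
  {y : Fin s → AlgebraicClosure K |
    {x : Fin s → AlgebraicClosure K | (∀ f ∈ p, aeval x f = 0) ∧
      ∀ i, aeval x (F i) = y i}.Infinite}.Finite

/-- `P` is an orbit of `F` in the zero set of `p`, Zariski dense in it. -/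
def IsDenseOrbit (p : Ideal (MvPolynomial (Fin s) K)) (F : Fin s → MvPolynomial (Fin s) K)
    (P : ℕ → Fin s → K) : Prop :=
  (∀ n i, P (n + 1) i = eval (P n) (F i)) ∧
    ∀ R : MvPolynomial (Fin s) K, (∀ n, eval (P n) R = 0) ↔ R ∈ p

/-- The forms of degree `3` of the polynomials `F i` are `(X 0 - X 1) * X 0 ^ 2`,
`(X 0 - X 1) * X 1 ^ 2` and `X i ^ 3` for `i ≥ 2`, and the leading forms of all elements of `p` are
in the ideal generated by the `X i` with `i ≥ 2`. -/
def IsExample {m : ℕ} (p : Ideal (MvPolynomial (Fin (m + 2)) K))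
    (F : Fin (m + 2) → MvPolynomial (Fin (m + 2)) K) : Prop :=
  homogeneousComponent 3 (F 0) = (X 0 - X 1) * X 0 ^ 2 ∧
    homogeneousComponent 3 (F 1) = (X 0 - X 1) * X 1 ^ 2 ∧
    (∀ i, 2 ≤ i.val → homogeneousComponent 3 (F i) = X i ^ 3) ∧
    ∀ f ∈ p, homogeneousComponent f.totalDegree f ∈ Ideal.span {g | ∃ i, 2 ≤ i.val ∧ g = X i}

theorem few_bad_example [CharZero K] {m : ℕ} (p : Ideal (MvPolynomial (Fin (m + 2)) K))
    (F : Fin (m + 2) → MvPolynomial (Fin (m + 2)) K) (h : IsExample p F) :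
    FewBadPoints 3 p F := by
  obtain ⟨h0, h1, h2, h3⟩ := h
  refine example_badQ m F h0 h1 (fun i hi hi' => h2 i ?_) p (fun f hf => ?_)
  · have e0 : i.val ≠ 0 := fun h => hi (Fin.ext h)
    have e1 : i.val ≠ 1 := fun h => hi' (Fin.ext (by rw [h]; rfl))
    omega
  · refine Ideal.span_mono ?_ (h3 f hf)
    rintro g ⟨i, hi, rfl⟩
    have hi' : (⟨i.val - 2, by omega⟩ : Fin m).succ.succ = i := by
      apply Fin.ext
      change i.val - 2 + 1 + 1 = i.val
      omega
    exact ⟨⟨i.val - 2, by omega⟩, congrArg X hi'⟩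

theorem arithmetic_degree_main [NumberField K] (d : ℕ) (p : Ideal (MvPolynomial (Fin s) K))
    (F : Fin s → MvPolynomial (Fin s) K) (hp : p.IsPrime) (hd : 2 ≤ d) (hF : IsMapOn d p F)
    (hbad : FewBadPoints d p F)
    (hfib : Algebra.trdeg K (MvPolynomial (Fin s) K ⧸ p) = 2 ∨ FewInfiniteFibres p F) :
    (∀ n, iterDegOn p F n = d ^ n) ∧
    ∀ P : ℕ → Fin s → K, IsDenseOrbit p F P →
      Tendsto (fun n : ℕ => weilHeight (P n) ^ (1 / (n : ℝ))) atTop (𝓝 (d : ℝ)) := by
  obtain ⟨h1, h2⟩ := arithmetic_degreeQ s d p F hp hF.2 hd hF.1 hbad.1 hbad.2 hfib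
  refine ⟨h1, fun P hP => h2 P hP.1 (fun n f hf => ?_) (fun R hR => (hP.2 R).mp hR)⟩
  exact (hP.2 f).mpr hf n

end Pool.Agent.Lib.MP_9ec2c5_av
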